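import Pool.Agent.Helper60.LRUpper

/-!
MP_6358c9_nt: arithmetic growth of the counting function (module LR-COUNT).
-/

open MvPolynomial Pool.Agent.Helper21.LR Pool.Agent.Helper60.LRBase Pool.Agent.Helper60.LRUpper
open scoped Pointwise

namespace Pool.Agent.Helper60.LRCount

variable {m : ℕ} {ξ : Fin m → ℂ}

/-- values of functions of degree `Y` and length at most `ρ` -/
def BS (ξ : Fin m → ℂ) (Y : ℕ) (ρ : ℝ) : Set ℂ :=
  {g | ∃ Q G, Rep ξ Y Q G ∧ len G ≤ ρ ∧ g = aeval ξ Q}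

/-- rational rank of `BS` -/
noncomputable def DS (ξ : Fin m → ℂ) (Y : ℕ) (ρ : ℝ) : ℕ :=
  Module.finrank ℚ (Submodule.span ℚ (BS ξ Y ρ))

theorem BS_mono {Y : ℕ} {ρ ρ' : ℝ} (h : ρ ≤ ρ') : BS ξ Y ρ ⊆ BS ξ Y ρ' := by
  rintro g ⟨Q, G, h1, h2, h3⟩
  exact ⟨Q, G, h1, h2.trans h, h3⟩

theorem BS_sub_vals {Y : ℕ} {ρ : ℝ} : ∀ g ∈ BS ξ Y ρ, g ∈ vals ξ Y := by
  rintro g ⟨Q, G, h1, _, h3⟩
  exact mem_vals.mpr ⟨Q, h1.1, h3.symm⟩

theorem span_BS_le {Y : ℕ} {ρ : ℝ} : Submodule.span ℚ (BS ξ Y ρ) ≤ polySpan ξ Y :=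
  Submodule.span_le.mpr fun g hg => mem_polySpan_of_mem_vals (BS_sub_vals g hg)

instance {Y : ℕ} {ρ : ℝ} : Module.Finite ℚ (Submodule.span ℚ (BS ξ Y ρ)) :=
  Submodule.finiteDimensional_of_le span_BS_le

theorem DS_mono {Y : ℕ} {ρ ρ' : ℝ} (h : ρ ≤ ρ') : DS ξ Y ρ ≤ DS ξ Y ρ' :=
  Submodule.finrank_mono (Submodule.span_mono (BS_mono h))

theorem zero_mem_BS {Y : ℕ} {ρ : ℝ} (h : 0 ≤ ρ) : (0 : ℂ) ∈ BS ξ Y ρ :=
  ⟨0, 0, Rep.zero ξ Y, by simpa using h, by simp⟩

/-- halving -/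
theorem halving {Y : ℕ} {ρ : ℝ} (hfin : (BS ξ Y ρ).Finite) (hρ : 0 ≤ ρ) :
    (BS ξ Y ρ).ncard ≤ 4 ^ (DS ξ Y ρ) * (BS ξ Y (ρ / 2)).ncard := by
  have hfin' : (BS ξ Y (ρ / 2)).Finite := hfin.subset (BS_mono (by linarith))
  have : Module.Finite ℤ (Submodule.span ℤ (BS ξ Y ρ)) := Module.Finite.span_of_finite ℤ hfin
  have hle : Submodule.span ℤ (BS ξ Y ρ) ≤ vals ξ Y := Submodule.span_le.mpr BS_sub_vals
  obtain ⟨_, h2⟩ := ncard_le_of_congr (Submodule.span ℤ (BS ξ Y ρ)) 4 (by norm_num) (BS ξ Y ρ)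
    (BS ξ Y (ρ / 2)) (fun x hx => Submodule.subset_span hx) hfin' (by
      rintro x ⟨Q, G, hR, hl, rfl⟩ y ⟨Q', G', hR', hl', rfl⟩ z hz hxy
      obtain ⟨Q₀, hd, rfl⟩ := mem_vals.mp (hle hz)
      refine ⟨Q₀, C (((4 : ℕ) : ℂ)⁻¹) * (G - G'), ?_, ?_, rfl⟩
      · apply Rep.div (Rep.sub hR hR') 4 (by norm_num) hd
        rw [map_sub, hxy]
      · rw [len_C_mul, norm_inv, Complex.norm_natCast]
        have := len_sub_le G G'
        push_cast
        linarith)
  refine h2.trans ?_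
  apply Nat.mul_le_mul_right
  apply Nat.pow_le_pow_right (by norm_num)
  apply finrank_int_le
  intro z hz
  have h3 : Submodule.span ℤ (BS ξ Y ρ) ≤ (Submodule.span ℚ (BS ξ Y ρ)).restrictScalars ℤ :=
    Submodule.span_le.mpr fun g hg => Submodule.subset_span hg
  exact h3 hz

/-- iterated halving -/
theorem halving_iter {Y : ℕ} {ρ : ℝ} (hfin : (BS ξ Y ρ).Finite) (hρ : 0 ≤ ρ) (I : ℕ) :
    (BS ξ Y ρ).ncard ≤ 4 ^ (∑ i ∈ Finset.range I, DS ξ Y (ρ / 2 ^ i)) *
      (BS ξ Y (ρ / 2 ^ I)).ncard := by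
  induction I with
  | zero => simp
  | succ I ih =>
    have hρI : 0 ≤ ρ / 2 ^ I := by positivity
    have h2 : ρ / 2 ^ I ≤ ρ := div_le_self hρ (one_le_pow₀ (by norm_num))
    have h1 := halving (hfin.subset (BS_mono h2)) hρI
    refine ih.trans ?_
    rw [Finset.sum_range_succ, pow_add, mul_assoc]
    apply Nat.mul_le_mul_left
    have h3 : ρ / 2 ^ I / 2 = ρ / 2 ^ (I + 1) := by
      rw [pow_succ]
      field_simp
    rw [h3] at h1
    exact h1

/-- small functions vanish -/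
theorem exists_small {Y : ℕ} {ρ : ℝ} (hfin : (BS ξ Y ρ).Finite) (hρ : 0 ≤ ρ) :
    ∃ I₀ : ℕ, ∀ I, I₀ ≤ I → BS ξ Y (ρ / 2 ^ I) = {0} := by
  set R : ℝ := 1 + ∑ i, ‖ξ i‖ with hR
  have hR1 : 1 ≤ R := by
    have : 0 ≤ ∑ i, ‖ξ i‖ := Finset.sum_nonneg fun _ _ => norm_nonneg _
    linarith
  have hRi : ∀ i, ‖ξ i‖ ≤ R := by
    intro i
    have : ‖ξ i‖ ≤ ∑ i, ‖ξ i‖ :=
      Finset.single_le_sum (f := fun i => ‖ξ i‖) (fun _ _ => norm_nonneg _) (Finset.mem_univ i)
    linarith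
  have hε : ∃ ε : ℝ, 0 < ε ∧ ∀ g ∈ BS ξ Y ρ, g ≠ 0 → ε ≤ ‖g‖ := by
    classical
    by_cases hne : (hfin.toFinset.filter (fun g => g ≠ 0)).Nonempty
    · obtain ⟨g₀, hg₀, hmin⟩ := Finset.exists_min_image _ (fun g : ℂ => ‖g‖) hne
      rw [Finset.mem_filter] at hg₀
      refine ⟨‖g₀‖, norm_pos_iff.mpr hg₀.2, ?_⟩
      intro g hg hg0
      exact hmin g (by rw [Finset.mem_filter, Set.Finite.mem_toFinset]; exact ⟨hg, hg0⟩)
    · refine ⟨1, one_pos, ?_⟩
      intro g hg hg0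
      exact absurd ⟨g, by rw [Finset.mem_filter, Set.Finite.mem_toFinset]; exact ⟨hg, hg0⟩⟩ hne
  obtain ⟨ε, hε0, hε⟩ := hε
  have hRY : 0 < R ^ Y := by positivity
  obtain ⟨I₀, hI₀⟩ : ∃ I₀ : ℕ, ρ * R ^ Y / ε < 2 ^ I₀ :=
    pow_unbounded_of_one_lt _ (by norm_num)
  refine ⟨I₀, ?_⟩
  intro I hI
  apply Set.eq_singleton_iff_unique_mem.mpr
  refine ⟨zero_mem_BS (by positivity), ?_⟩
  intro g hg
  by_contra hg0
  have h1 : ε ≤ ‖g‖ := hε g (BS_mono (div_le_self hρ (one_le_pow₀ (by norm_num))) hg) hg0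
  obtain ⟨Q, G, hRep, hl, rfl⟩ := hg
  rw [hRep.2.2 ξ (OnV.refl ξ)] at h1
  have h2 := norm_eval_le_len G Y hRep.2.1 ξ R hR1 hRi
  have h3 : (2 : ℝ) ^ I₀ ≤ 2 ^ I := pow_le_pow_right₀ (by norm_num) hI
  have h4 : ρ * R ^ Y / ε < 2 ^ I := lt_of_lt_of_le hI₀ h3
  rw [div_lt_iff₀ hε0] at h4
  have h5 : len G * R ^ Y ≤ ρ / 2 ^ I * R ^ Y := mul_le_mul_of_nonneg_right hl hRY.le
  have h6 : ρ / 2 ^ I * R ^ Y < ε := by
    rw [div_mul_eq_mul_div, div_lt_iff₀ (by positivity)]
    linarith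
  linarith

theorem Rep.mono {N N' : ℕ} (h : N ≤ N') {Q : MvPolynomial (Fin m) ℤ} {G : MvPolynomial (Fin m) ℂ}
    (hR : Rep ξ N Q G) : Rep ξ N' Q G := ⟨hR.1.trans h, hR.2.1.trans h, hR.2.2⟩

theorem Rep.mul {N N' : ℕ} {Q Q' : MvPolynomial (Fin m) ℤ} {G G' : MvPolynomial (Fin m) ℂ}
    (h : Rep ξ N Q G) (h' : Rep ξ N' Q' G') : Rep ξ (N + N') (Q * Q') (G * G') := by
  refine ⟨(totalDegree_mul _ _).trans (add_le_add h.1 h'.1),
    (totalDegree_mul _ _).trans (add_le_add h.2.1 h'.2.1), ?_⟩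
  intro p hp
  rw [map_mul, map_mul, h.2.2 p hp, h'.2.2 p hp]

theorem Rep.pow {N : ℕ} {Q : MvPolynomial (Fin m) ℤ} {G : MvPolynomial (Fin m) ℂ}
    (h : Rep ξ N Q G) (n : ℕ) : Rep ξ (n * N) (Q ^ n) (G ^ n) := by
  refine ⟨(totalDegree_pow _ _).trans (Nat.mul_le_mul_left _ h.1),
    (totalDegree_pow _ _).trans (Nat.mul_le_mul_left _ h.2.1), ?_⟩
  intro p hp
  rw [map_pow, map_pow, h.2.2 p hp]

theorem Rep.monomial (ξ : Fin m → ℂ) (α : Fin m →₀ ℕ) (N : ℕ) (h : α.degree ≤ N) :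
    Rep ξ N (MvPolynomial.monomial α 1) (MvPolynomial.monomial α 1) := by
  have hd : (α.sum fun _ e => e) ≤ N := by
    rw [Finsupp.sum_fintype _ _ (fun _ => rfl)]
    rw [Finsupp.degree_eq_sum] at h
    exact h
  refine ⟨?_, ?_, ?_⟩
  · rw [totalDegree_monomial _ (by norm_num)]
    exact hd
  · rw [totalDegree_monomial _ (by norm_num)]
    exact hd
  · intro p _
    rw [aeval_monomial, eval_monomial]
    simp

/-- values of monomials -/
def mono (ξ : Fin m → ℂ) (N : ℕ) : Set ℂ :=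
  {z | ∃ α : Fin m →₀ ℕ, α.degree ≤ N ∧ z = aeval ξ (MvPolynomial.monomial α (1 : ℤ))}

theorem polySpan_le_span_mono (N : ℕ) : polySpan ξ N ≤ Submodule.span ℚ (mono ξ N) := by
  unfold polySpan
  rw [Submodule.span_le]
  rintro z ⟨Q, hQ, rfl⟩
  rw [Q.as_sum, map_sum]
  apply Submodule.sum_mem
  intro α hα
  have h1 : aeval ξ (MvPolynomial.monomial α (Q.coeff α)) =
      ((Q.coeff α : ℤ) : ℚ) • aeval ξ (MvPolynomial.monomial α (1 : ℤ)) := by
    rw [aeval_monomial, aeval_monomial]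
    simp [Rat.smul_def]
  rw [h1]
  apply Submodule.smul_mem
  apply Submodule.subset_span
  refine ⟨α, ?_, rfl⟩
  have h2 := le_totalDegree hα
  rw [Finsupp.sum_fintype _ _ (fun _ => rfl)] at h2
  rw [Finsupp.degree_eq_sum]
  exact h2.trans hQ

theorem polySpan_le_span_BS (Y : ℕ) (ρ : ℝ) (hρ : 1 ≤ ρ) :
    polySpan ξ Y ≤ Submodule.span ℚ (BS ξ Y ρ) := by
  refine (polySpan_le_span_mono Y).trans (Submodule.span_mono ?_)
  rintro z ⟨α, hα, rfl⟩
  refine ⟨_, _, Rep.monomial ξ α Y hα, ?_, rfl⟩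
  rw [len_monomial]
  simpa using hρ

theorem finrank_polySpan_le (Y : ℕ) : Module.finrank ℚ (polySpan ξ Y) ≤ (Y + 1) ^ m := by
  let f : (Fin m → Fin (Y + 1)) → ℂ := fun a => ∏ i, ξ i ^ (a i : ℕ)
  have h1 : polySpan ξ Y ≤ Submodule.span ℚ (Set.range f) := by
    refine (polySpan_le_span_mono Y).trans (Submodule.span_mono ?_)
    rintro z ⟨α, hα, rfl⟩
    refine ⟨fun i => ⟨α i, ?_⟩, ?_⟩
    · have := Finsupp.le_degree i α
      omega
    · rw [aeval_monomial, Finsupp.prod_fintype _ _ (fun _ => pow_zero _)]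
      simp [f]
  have : Module.Finite ℚ (Submodule.span ℚ (Set.range f)) :=
    Module.Finite.span_of_finite ℚ (Set.finite_range f)
  refine (Submodule.finrank_mono h1).trans ?_
  refine (finrank_range_le_card f).trans ?_
  simp

/-- growth of the ranks -/
theorem grow_step {c : ℝ} {r : ℕ} {X K k : ℕ} {ρ : ℝ} (hk1 : 1 ≤ k) (hkK : k < K)
    (hρ : 0 ≤ ρ)
    (hG : ∀ A : Submodule ℚ ℂ, A ≤ polySpan ξ X →
      c * ((K - k : ℕ) : ℝ) ^ r * Module.finrank ℚ A ≤
        Module.finrank ℚ ↥(A * polySpan ξ ((K - k) * X))) :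
    c * ((K - k : ℕ) : ℝ) ^ r * DS ξ X ρ ≤ DS ξ (K * X) (ρ ^ k) := by
  by_cases hz : ∀ g ∈ BS ξ X ρ, g = 0
  · have h0 : DS ξ X ρ = 0 := by
      unfold DS
      have : Submodule.span ℚ (BS ξ X ρ) = ⊥ := by
        rw [Submodule.span_eq_bot]
        exact hz
      rw [this]
      simp
    rw [h0]
    simp
  · push Not at hz
    obtain ⟨g₀, hg₀, hg₀0⟩ := hz
    obtain ⟨Q₀, G₀, hR₀, hl₀, hg₀e⟩ := hg₀
    refine (hG _ span_BS_le).trans ?_
    have hinc : Submodule.map (LinearMap.mulLeft ℚ (g₀ ^ (k - 1)))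
        (Submodule.span ℚ (BS ξ X ρ) * polySpan ξ ((K - k) * X)) ≤
        Submodule.span ℚ (BS ξ (K * X) (ρ ^ k)) := by
      have h1 : Submodule.span ℚ (BS ξ X ρ) * polySpan ξ ((K - k) * X) ≤
          Submodule.span ℚ (BS ξ X ρ * mono ξ ((K - k) * X)) := by
        rw [← Submodule.span_mul_span]
        exact mul_le_mul' le_rfl (polySpan_le_span_mono _)
      refine (Submodule.map_mono h1).trans ?_
      rw [Submodule.map_span, Submodule.span_le]
      rintro _ ⟨_, ⟨g, ⟨Q, G, hR, hl, rfl⟩, μ, ⟨α, hα, rfl⟩, rfl⟩, rfl⟩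
      apply Submodule.subset_span
      refine ⟨Q₀ ^ (k - 1) * (Q * MvPolynomial.monomial α 1),
        G₀ ^ (k - 1) * (G * MvPolynomial.monomial α 1), ?_, ?_, ?_⟩
      · have h2 := Rep.mul (Rep.pow hR₀ (k - 1)) (Rep.mul hR (Rep.monomial ξ α _ hα))
        refine Rep.mono (le_of_eq ?_) h2
        obtain ⟨k', rfl⟩ : ∃ k', k = k' + 1 := ⟨k - 1, by omega⟩
        obtain ⟨d, rfl⟩ : ∃ d, K = k' + 1 + d := ⟨K - (k' + 1), by omega⟩
        have : k' + 1 + d - (k' + 1) = d := by omega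
        rw [this]
        simp only [Nat.add_sub_cancel]
        ring
      · have h3 : len (G * MvPolynomial.monomial α (1 : ℂ)) ≤ ρ := by
          refine (len_mul_le _ _).trans ?_
          rw [len_monomial]
          simpa using hl
        calc len (G₀ ^ (k - 1) * (G * MvPolynomial.monomial α 1))
            ≤ len (G₀ ^ (k - 1)) * len (G * MvPolynomial.monomial α 1) := len_mul_le _ _
          _ ≤ ρ ^ (k - 1) * ρ := by
              apply mul_le_mul _ h3 (len_nonneg _) (by positivity)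
              exact (len_pow_le _ _).trans (pow_le_pow_left₀ (len_nonneg _) hl₀ _)
          _ = ρ ^ k := by
              rw [← pow_succ]
              congr 1
              omega
      · change g₀ ^ (k - 1) * (aeval ξ Q * aeval ξ (MvPolynomial.monomial α (1 : ℤ))) = _
        simp only [map_mul, map_pow, ← hg₀e]
    have hinj : Function.Injective (LinearMap.mulLeft ℚ (g₀ ^ (k - 1))) := by
      intro x y hxy
      simp only [LinearMap.mulLeft_apply] at hxy
      exact mul_left_cancel₀ (pow_ne_zero _ hg₀0) hxy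
    have h4 : Module.finrank ℚ ↥(Submodule.map (LinearMap.mulLeft ℚ (g₀ ^ (k - 1)))
        (Submodule.span ℚ (BS ξ X ρ) * polySpan ξ ((K - k) * X))) =
        Module.finrank ℚ ↥(Submodule.span ℚ (BS ξ X ρ) * polySpan ξ ((K - k) * X)) :=
      (LinearEquiv.finrank_eq (Submodule.equivMapOfInjective _ hinj _)).symm
    have h5 := Submodule.finrank_mono hinc
    rw [h4] at h5
    exact_mod_cast h5

/-- nested bases of a decreasing sequence of sets -/
theorem nested (n : ℕ) : ∀ S : ℕ → Set ℂ, (∀ j, S (j + 1) ⊆ S j) →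
    (∀ j, Module.Finite ℚ (Submodule.span ℚ (S j))) →
    ∃ (E : Finset ℂ) (w : ℂ → ℕ), LinearIndepOn ℚ id (E : Set ℂ) ∧
      (∀ e ∈ E, 1 ≤ w e ∧ e ∈ S (w e - 1)) ∧
      ∑ e ∈ E, w e = ∑ j ∈ Finset.range n, Module.finrank ℚ (Submodule.span ℚ (S j)) := by
  classical
  induction n with
  | zero =>
    intro S _ _
    refine ⟨∅, fun _ => 0, ?_, ?_, ?_⟩
    · simp
    · simp
    · simp
  | succ n ih =>
    intro S hS hfin
    obtain ⟨E', w', hli, hmem, hsum⟩ := ih (fun j => S (j + 1)) (fun j => hS (j + 1))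
      (fun j => hfin (j + 1))
    have hanti : Antitone S := antitone_nat_of_succ_le hS
    have hsub : (E' : Set ℂ) ⊆ S 0 := by
      intro e he
      exact hanti (Nat.zero_le _) (hmem e he).2
    obtain ⟨b, hb1, hb2, hb3, hb4⟩ := exists_linearIndepOn_extension hli hsub
    simp only [Set.image_id] at hb3
    have hfin0 := hfin 0
    have hbfin : b.Finite := by
      have h1 : LinearIndependent ℚ (fun x : b => (⟨x, Submodule.subset_span (hb1 x.2)⟩ :
          Submodule.span ℚ (S 0))) := by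
        apply LinearIndependent.of_comp (Submodule.span ℚ (S 0)).subtype
        exact hb4
      have := h1.finite
      exact Set.toFinite b
    have hspan : Submodule.span ℚ (S 0) = Submodule.span ℚ b :=
      le_antisymm (Submodule.span_le.mpr hb3) (Submodule.span_mono hb1)
    have hcoe : ((hbfin.toFinset : Finset ℂ) : Set ℂ) = b := hbfin.coe_toFinset
    have hE'sub : E' ⊆ hbfin.toFinset := by
      intro e he
      rw [Set.Finite.mem_toFinset]
      exact hb2 he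
    refine ⟨hbfin.toFinset, fun e => if e ∈ E' then w' e + 1 else 1, ?_, ?_, ?_⟩
    · rw [hcoe]
      exact hb4
    · intro e he
      rw [Set.Finite.mem_toFinset] at he
      by_cases h : e ∈ E'
      · simp only [h, if_true]
        refine ⟨by omega, ?_⟩
        have := (hmem e h).2
        have h1 := (hmem e h).1
        have h2 : w' e - 1 + 1 = w' e + 1 - 1 := by omega
        rw [h2] at this
        exact this
      · simp only [h, if_false]
        exact ⟨le_refl _, hb1 he⟩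
    · have h1 : ∑ e ∈ hbfin.toFinset, (if e ∈ E' then w' e + 1 else 1) =
          ∑ e ∈ hbfin.toFinset, ((if e ∈ E' then w' e else 0) + 1) := by
        apply Finset.sum_congr rfl
        intro e _
        split_ifs <;> omega
      rw [h1, Finset.sum_add_distrib, ← Finset.sum_filter, Finset.sum_const, smul_eq_mul, mul_one]
      have h2 : hbfin.toFinset.filter (fun e => e ∈ E') = E' := by
        ext e
        simp only [Finset.mem_filter]
        exact ⟨fun h => h.2, fun h => ⟨hE'sub h, h⟩⟩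
      rw [h2, hsum, Finset.sum_range_succ' (fun j => Module.finrank ℚ (Submodule.span ℚ (S j)))]
      congr 1
      have h3 := finrank_span_finset_eq_card (R := ℚ) (s := hbfin.toFinset)
        (by rw [hcoe]; exact hb4)
      rw [hcoe, ← hspan] at h3
      exact h3.symm

/-- successive minima lower bound for the number of functions -/
theorem low_count {Y h : ℕ} (hh : Module.finrank ℚ (polySpan ξ Y) ≤ h) (hh0 : 0 < h) (ρ : ℝ)
    (hρ : 0 ≤ ρ) (hfin : (BS ξ Y ρ).Finite) (n : ℕ) :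
    2 ^ (∑ j ∈ Finset.range n, DS ξ Y (ρ / 2 ^ (j + 1) / h)) ≤ (BS ξ Y ρ).ncard := by
  classical
  have hhR : (0 : ℝ) < h := by exact_mod_cast hh0
  obtain ⟨E, w, hli, hmem, hsum⟩ := nested n (fun j => BS ξ Y (ρ / 2 ^ (j + 1) / h)) (by
      intro j
      apply BS_mono
      apply div_le_div_of_nonneg_right _ hhR.le
      apply div_le_div_of_nonneg_left hρ (by positivity)
      apply pow_le_pow_right₀ (by norm_num)
      omega) (fun j => inferInstance)
  have hsum' : ∑ j ∈ Finset.range n, DS ξ Y (ρ / 2 ^ (j + 1) / h) = ∑ e ∈ E, w e := hsum.symm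
  rw [hsum']
  -- representatives
  have hch : ∀ e : E, ∃ Q G, Rep ξ Y Q G ∧ len G ≤ ρ / 2 ^ (w e) / h ∧ (e : ℂ) = aeval ξ Q := by
    intro e
    obtain ⟨h1, h2⟩ := hmem e e.2
    have h3 : w e - 1 + 1 = w e := by omega
    simp only [h3] at h2
    exact h2
  choose Qf Gf hRf hlf hef using hch
  have hcardE : E.card ≤ h := by
    have h1 : LinearIndependent ℚ (fun x : (E : Set ℂ) => (⟨x, span_BS_le
        (Submodule.subset_span (hmem x x.2).2)⟩ : polySpan ξ Y)) := by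
      apply LinearIndependent.of_comp (polySpan ξ Y).subtype
      exact hli
    have h2 := h1.fintype_card_le_finrank
    simp only [Finset.coe_sort_coe, Fintype.card_coe] at h2
    omega
  let T := (e : E) → Fin (2 ^ (w e))
  let F : T → ℂ := fun c => ∑ e : E, ((c e : ℕ) : ℂ) * (e : ℂ)
  have hFinj : Function.Injective F := by
    intro c c' hcc
    have h1 : ∑ e : E, (((c e : ℕ) : ℚ) - ((c' e : ℕ) : ℚ)) • (e : ℂ) = 0 := by
      have : ∑ e : E, (((c e : ℕ) : ℚ) - ((c' e : ℕ) : ℚ)) • (e : ℂ) = F c - F c' := by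
        simp only [F]
        rw [← Finset.sum_sub_distrib]
        apply Finset.sum_congr rfl
        intro e _
        rw [Rat.smul_def]
        push_cast
        ring
      rw [this, hcc, sub_self]
    have h2 := Fintype.linearIndependent_iff.mp (show LinearIndependent ℚ (fun e : E => (e : ℂ))
      from hli) _ h1
    funext e
    have h3 := h2 e
    rw [sub_eq_zero] at h3
    exact Fin.ext (by exact_mod_cast h3)
  have hFmem : ∀ c : T, F c ∈ BS ξ Y ρ := by
    intro c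
    refine ⟨∑ e : E, C ((c e : ℕ) : ℤ) * Qf e, ∑ e : E, C ((c e : ℕ) : ℂ) * Gf e, ⟨?_, ?_, ?_⟩,
      ?_, ?_⟩
    · refine (totalDegree_finsetSum _ _).trans ?_
      apply Finset.sup_le
      intro e _
      refine (totalDegree_mul _ _).trans ?_
      rw [totalDegree_C, zero_add]
      exact (hRf e).1
    · refine (totalDegree_finsetSum _ _).trans ?_
      apply Finset.sup_le
      intro e _
      refine (totalDegree_mul _ _).trans ?_
      rw [totalDegree_C, zero_add]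
      exact (hRf e).2.1
    · intro p hp
      rw [map_sum, map_sum]
      apply Finset.sum_congr rfl
      intro e _
      rw [map_mul, map_mul, (hRf e).2.2 p hp, eval_C, algHom_C]
      simp
    · refine (len_sum_le _ _).trans ?_
      have h1 : ∀ e ∈ (Finset.univ : Finset E), len (C ((c e : ℕ) : ℂ) * Gf e) ≤ ρ / h := by
        intro e _
        rw [len_C_mul, Complex.norm_natCast]
        have h2 : ((c e : ℕ) : ℝ) ≤ 2 ^ (w e) := by exact_mod_cast (c e).2.le
        calc ((c e : ℕ) : ℝ) * len (Gf e) ≤ 2 ^ (w e) * (ρ / 2 ^ (w e) / h) :=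
              mul_le_mul h2 (hlf e) (len_nonneg _) (by positivity)
          _ = ρ / h := by field_simp
      refine (Finset.sum_le_sum h1).trans ?_
      rw [Finset.sum_const, nsmul_eq_mul, Finset.card_univ, Fintype.card_coe]
      rw [mul_div_assoc', div_le_iff₀ hhR, mul_comm]
      apply mul_le_mul_of_nonneg_left _ hρ
      exact_mod_cast hcardE
    · rw [map_sum]
      apply Finset.sum_congr rfl
      intro e _
      rw [map_mul, ← hef e, algHom_C]
      simp
  have hcard : Fintype.card T = 2 ^ (∑ e ∈ E, w e) := by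
    simp only [T]
    rw [Fintype.card_pi]
    simp only [Fintype.card_fin]
    rw [Finset.prod_pow_eq_pow_sum]
    congr 1
    exact Finset.sum_coe_sort E w
  rw [← hcard, ← Nat.card_eq_fintype_card]
  have hfin' : Finite (BS ξ Y ρ) := hfin.to_subtype
  have := Nat.card_le_card_of_injective (fun c : T => (⟨F c, hFmem c⟩ : BS ξ Y ρ)) (by
    intro c c' hcc
    exact hFinj (congrArg Subtype.val hcc))
  rwa [Nat.card_coe_set_eq] at this

theorem exists_X₀ (m : ℕ) : ∃ X₀ : ℕ, 1 ≤ X₀ ∧ ∀ z : ℕ, X₀ ≤ z →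
    ((z : ℝ) + 1) ^ m ≤ Real.exp ((z : ℝ) / 2) := by
  have h1 := Real.tendsto_exp_div_pow_atTop m
  have h2 := (Filter.tendsto_atTop.mp h1 ((4 : ℝ) ^ m))
  obtain ⟨x₀, hx₀⟩ := Filter.eventually_atTop.mp h2
  refine ⟨⌈2 * x₀⌉₊ + 1, by omega, ?_⟩
  intro z hz
  have hz1 : (1 : ℝ) ≤ z := by
    have : 1 ≤ z := by omega
    exact_mod_cast this
  have h3 : x₀ ≤ (z : ℝ) / 2 := by
    have h4 : 2 * x₀ ≤ ⌈2 * x₀⌉₊ := Nat.le_ceil _
    have h5 : (⌈2 * x₀⌉₊ : ℝ) + 1 ≤ z := by exact_mod_cast hz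
    linarith
  have h4 := hx₀ _ h3
  have hpos : (0 : ℝ) < ((z : ℝ) / 2) ^ m := by positivity
  rw [le_div_iff₀ hpos, ← mul_pow] at h4
  refine le_trans ?_ h4
  apply pow_le_pow_left₀ (by positivity)
  linarith

theorem sum_blocks (f : ℕ → ℕ) (g : ℕ → ℕ) (k I : ℕ)
    (h : ∀ i < I, ∀ l < k, g i ≤ f (k * i + l)) :
    k * ∑ i ∈ Finset.range I, g i ≤ ∑ j ∈ Finset.range (k * I), f j := by
  induction I with
  | zero => simp
  | succ I ih =>
    rw [Finset.sum_range_succ, mul_add, mul_add, mul_one, Finset.sum_range_add]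
    apply add_le_add (ih fun i hi => h i (by omega))
    calc k * g I = ∑ _l ∈ Finset.range k, g I := by simp
      _ ≤ ∑ l ∈ Finset.range k, f (k * I + l) :=
          Finset.sum_le_sum fun l hl => h I (by omega) l (Finset.mem_range.mp hl)

theorem count (hG : SGrow) (hU : SUpper) (_hC : SCnt) (hz : SSz) : SCount := by
  intro m
  obtain ⟨cG, hcG0, hcG⟩ := hG m
  obtain ⟨CU, _, hCU⟩ := hU m
  obtain ⟨X₀, hX₀1, hX₀⟩ := exists_X₀ m
  refine ⟨min 1 (cG / (12 * 2 ^ m)), by positivity, X₀, ?_⟩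
  intro r ξ F hF X K hX hK
  obtain ⟨hrm, _, _⟩ := hz m r ξ F hF
  have hcnt0 : 0 ≤ cnt ξ X := Real.log_natCast_nonneg _
  have hX1 : 1 ≤ X := hX₀1.trans hX
  by_cases hK1 : K = 1
  · subst hK1
    simp only [Nat.cast_one, one_pow, mul_one, one_mul]
    calc min 1 (cG / (12 * 2 ^ m)) * cnt ξ X ≤ 1 * cnt ξ X :=
          mul_le_mul_of_nonneg_right (min_le_left _ _) hcnt0
      _ = cnt ξ X := one_mul _
  have hK2 : 2 ≤ K := by omega
  set k : ℕ := K / 2 with hk
  have hk1 : 1 ≤ k := by omega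
  have hkK : k < K := by omega
  have hKk3 : K ≤ 3 * k := by omega
  have hKk2 : K ≤ 2 * (K - k) := by omega
  have hKX1 : 1 ≤ K * X := Nat.mul_pos hK hX1
  have hfinX : (BS ξ X (Real.exp X)).Finite := (hCU r ξ F hF X hX1).1
  have hfinKX : (BS ξ (K * X) (Real.exp ((K * X : ℕ) : ℝ))).Finite := (hCU r ξ F hF (K * X) hKX1).1
  obtain ⟨I₀, hI₀⟩ := exists_small hfinX (Real.exp_pos _).le
  set I := I₀ + 1 with hI
  -- ranks
  set S1 : ℕ := ∑ i ∈ Finset.range I, DS ξ X (Real.exp X / 2 ^ (i + 1)) with hS1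
  have hupX : cnt ξ X ≤ 4 * Real.log 2 * S1 := by
    have h1 := halving_iter hfinX (Real.exp_pos _).le (I + 1)
    rw [hI₀ (I + 1) (by omega), Set.ncard_singleton, mul_one, Finset.sum_range_succ'] at h1
    have h2 : DS ξ X (Real.exp X / 2 ^ 0) ≤ S1 := by
      have h3 : DS ξ X (Real.exp X / 2 ^ 0) ≤ Module.finrank ℚ (polySpan ξ X) :=
        Submodule.finrank_mono span_BS_le
      have h4 : Module.finrank ℚ (polySpan ξ X) ≤ DS ξ X (Real.exp X / 2 ^ (0 + 1)) := by
        apply Submodule.finrank_mono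
        apply polySpan_le_span_BS
        have : (1 : ℝ) ≤ X := by exact_mod_cast hX1
        have h5 : (X : ℝ) + 1 ≤ Real.exp X := Real.add_one_le_exp _
        rw [zero_add, pow_one]
        linarith
      refine (h3.trans h4).trans ?_
      rw [hS1]
      exact Finset.single_le_sum (f := fun i => DS ξ X (Real.exp X / 2 ^ (i + 1)))
        (fun _ _ => Nat.zero_le _) (Finset.mem_range.mpr (by omega : 0 < I))
    have h3 : (BS ξ X (Real.exp X)).ncard ≤ 4 ^ (2 * S1) := by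
      refine h1.trans (Nat.pow_le_pow_right (by norm_num) ?_)
      omega
    have h4 : 0 < (BS ξ X (Real.exp X)).ncard :=
      (Set.ncard_pos hfinX).mpr ⟨0, zero_mem_BS (Real.exp_pos _).le⟩
    calc cnt ξ X = Real.log ((BS ξ X (Real.exp X)).ncard : ℝ) := rfl
      _ ≤ Real.log ((4 : ℝ) ^ (2 * S1)) := by
          apply Real.log_le_log (by exact_mod_cast h4)
          exact_mod_cast h3
      _ = 4 * Real.log 2 * S1 := by
          have : (4 : ℝ) = 2 ^ (2 : ℕ) := by norm_num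
          rw [Real.log_pow, this, Real.log_pow]
          push_cast
          ring
  -- growth of the ranks
  have hgrow : ∀ i, cG * ((K - k : ℕ) : ℝ) ^ r * DS ξ X (Real.exp X / 2 ^ (i + 1)) ≤
      DS ξ (K * X) ((Real.exp X / 2 ^ (i + 1)) ^ k) := by
    intro i
    apply grow_step hk1 hkK (by positivity)
    intro A hA
    exact hcG r ξ F hF X (K - k) hX1 (by omega) A hA
  -- lower bound
  set h : ℕ := (K * X + 1) ^ m with hh
  have hh0 : 0 < h := by positivity
  have hhR : (0 : ℝ) < h := by exact_mod_cast hh0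
  have hlow := low_count (ξ := ξ) (Y := K * X) (h := h) (finrank_polySpan_le _) hh0
    (Real.exp ((K * X : ℕ) : ℝ)) (Real.exp_pos _).le hfinKX (k * I)
  have hhexp : (h : ℝ) ≤ Real.exp (((K - k : ℕ) : ℝ) * X) := by
    have h1 := hX₀ (K * X) (hX.trans (Nat.le_mul_of_pos_left _ hK))
    have h2 : ((K * X : ℕ) : ℝ) / 2 ≤ ((K - k : ℕ) : ℝ) * X := by
      have h3 : (K : ℝ) ≤ 2 * ((K - k : ℕ) : ℝ) := by exact_mod_cast hKk2
      push_cast
      have h4 : (0 : ℝ) ≤ X := by positivity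
      nlinarith
    rw [hh]
    push_cast at h1 ⊢
    refine h1.trans (Real.exp_le_exp.mpr ?_)
    push_cast at h2
    exact h2
  have hcmp : ∀ i l : ℕ, l < k → (Real.exp X / 2 ^ (i + 1)) ^ k ≤
      Real.exp ((K * X : ℕ) : ℝ) / 2 ^ (k * i + l + 1) / h := by
    intro i l hl
    rw [le_div_iff₀ hhR, le_div_iff₀ (by positivity), div_pow, ← pow_mul]
    have h1 : Real.exp ((K * X : ℕ) : ℝ) = Real.exp X ^ k * Real.exp (((K - k : ℕ) : ℝ) * X) := by
      rw [← Real.exp_nat_mul, ← Real.exp_add]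
      congr 1
      rw [Nat.cast_sub hkK.le]
      push_cast
      ring
    have h2 : (2 : ℝ) ^ (k * i + l + 1) ≤ 2 ^ ((i + 1) * k) := by
      apply pow_le_pow_right₀ (by norm_num)
      nlinarith
    rw [h1]
    have h3 : Real.exp X ^ k / 2 ^ ((i + 1) * k) * h * 2 ^ (k * i + l + 1) =
        Real.exp X ^ k * h * (2 ^ (k * i + l + 1) / 2 ^ ((i + 1) * k)) := by ring
    rw [h3]
    have h4 : (2 : ℝ) ^ (k * i + l + 1) / 2 ^ ((i + 1) * k) ≤ 1 := by
      rw [div_le_one (by positivity)]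
      exact h2
    calc Real.exp X ^ k * h * (2 ^ (k * i + l + 1) / 2 ^ ((i + 1) * k))
        ≤ Real.exp X ^ k * h * 1 := mul_le_mul_of_nonneg_left h4 (by positivity)
      _ = Real.exp X ^ k * h := mul_one _
      _ ≤ Real.exp X ^ k * Real.exp (((K - k : ℕ) : ℝ) * X) :=
          mul_le_mul_of_nonneg_left hhexp (by positivity)
  have hblocks := sum_blocks
    (fun j => DS ξ (K * X) (Real.exp ((K * X : ℕ) : ℝ) / 2 ^ (j + 1) / h))
    (fun i => DS ξ (K * X) ((Real.exp X / 2 ^ (i + 1)) ^ k)) k I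
    (fun i _ l hl => DS_mono (hcmp i l hl))
  set S2 : ℕ := ∑ i ∈ Finset.range I, DS ξ (K * X) ((Real.exp X / 2 ^ (i + 1)) ^ k) with hS2
  have hS12 : cG * ((K - k : ℕ) : ℝ) ^ r * S1 ≤ S2 := by
    rw [hS1, hS2]
    push_cast
    rw [Finset.mul_sum]
    exact Finset.sum_le_sum fun i _ => hgrow i
  have hloKX : Real.log 2 * (k * S2) ≤ cnt ξ (K * X) := by
    have h1 : 2 ^ (k * S2) ≤ (BS ξ (K * X) (Real.exp ((K * X : ℕ) : ℝ))).ncard :=
      (Nat.pow_le_pow_right (by norm_num) hblocks).trans hlow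
    calc Real.log 2 * (k * S2) = Real.log ((2 : ℝ) ^ (k * S2)) := by
          rw [Real.log_pow]
          push_cast
          ring
      _ ≤ Real.log ((BS ξ (K * X) (Real.exp ((K * X : ℕ) : ℝ))).ncard : ℝ) := by
          apply Real.log_le_log (by positivity)
          exact_mod_cast h1
      _ = cnt ξ (K * X) := rfl
  -- conclusion
  have hlog2 : 0 < Real.log 2 := Real.log_pos (by norm_num)
  have hkR : (K : ℝ) / 3 ≤ k := by
    have : (K : ℝ) ≤ 3 * k := by exact_mod_cast hKk3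
    linarith
  have hKkR : (K : ℝ) / 2 ≤ ((K - k : ℕ) : ℝ) := by
    have : (K : ℝ) ≤ 2 * ((K - k : ℕ) : ℝ) := by exact_mod_cast hKk2
    linarith
  have hKpos : (0 : ℝ) < K := by exact_mod_cast hK
  have hS1' : cnt ξ X / (4 * Real.log 2) ≤ S1 := by
    rw [div_le_iff₀ (by positivity)]
    linarith
  calc min 1 (cG / (12 * 2 ^ m)) * (K : ℝ) ^ (r + 1) * cnt ξ X
      ≤ cG / (12 * 2 ^ r) * (K : ℝ) ^ (r + 1) * cnt ξ X := by
        apply mul_le_mul_of_nonneg_right _ hcnt0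
        apply mul_le_mul_of_nonneg_right _ (by positivity)
        refine (min_le_right _ _).trans ?_
        apply div_le_div_of_nonneg_left hcG0.le (by positivity)
        apply mul_le_mul_of_nonneg_left _ (by norm_num)
        exact pow_le_pow_right₀ (by norm_num) hrm
    _ = Real.log 2 * ((K / 3) * (cG * (K / 2) ^ r * (cnt ξ X / (4 * Real.log 2)))) := by
        rw [div_pow]
        field_simp
        ring
    _ ≤ Real.log 2 * (k * (cG * ((K - k : ℕ) : ℝ) ^ r * S1)) := by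
        apply mul_le_mul_of_nonneg_left _ hlog2.le
        apply mul_le_mul hkR _ (by positivity) (by positivity)
        apply mul_le_mul _ hS1' (by positivity) (by positivity)
        apply mul_le_mul_of_nonneg_left _ hcG0.le
        exact pow_le_pow_left₀ (by positivity) hKkR _
    _ ≤ Real.log 2 * (k * S2) := by
        apply mul_le_mul_of_nonneg_left _ hlog2.le
        exact mul_le_mul_of_nonneg_left hS12 (by positivity)
    _ ≤ cnt ξ (K * X) := hloKX

end Pool.Agent.Helper60.LRCount
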