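import Pool.Agent.Helper60.LRBase

/-!
MP_6358c9_nt: upper bound for the counting function (module LR-UPPER).
-/

open MvPolynomial Pool.Agent.Helper21.LR Pool.Agent.Helper60.LRBase

namespace Pool.Agent.Helper60.LRUpper

section vals

variable {m : ℕ} (ξ : Fin m → ℂ) (X : ℕ)

/-- the group of values at `ξ` of the integer polynomials of degree at most `X` -/
noncomputable def vals : Submodule ℤ ℂ :=
  (restrictTotalDegree (Fin m) ℤ X).map (aeval ξ : MvPolynomial (Fin m) ℤ →ₐ[ℤ] ℂ).toLinearMap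

variable {ξ X}

theorem mem_vals {z : ℂ} : z ∈ vals ξ X ↔ ∃ Q : MvPolynomial (Fin m) ℤ,
    Q.totalDegree ≤ X ∧ aeval ξ Q = z := by
  unfold vals
  simp [Submodule.mem_map, mem_restrictTotalDegree]

instance : Module.Finite ℤ (vals ξ X) := by
  unfold vals
  infer_instance

theorem polySpan_eq : polySpan ξ X = Submodule.span ℚ (vals ξ X : Set ℂ) := by
  unfold polySpan
  congr 1
  ext z
  simp only [Set.mem_setOf_eq, SetLike.mem_coe, mem_vals]
  constructor
  · rintro ⟨Q, h1, h2⟩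
    exact ⟨Q, h1, h2.symm⟩
  · rintro ⟨Q, h1, h2⟩
    exact ⟨Q, h1, h2.symm⟩

instance : Module.Finite ℚ (polySpan ξ X) := by
  have h : (vals ξ X).FG := Module.Finite.iff_fg.mp inferInstance
  obtain ⟨s, hs⟩ := h
  rw [polySpan_eq, ← hs, Submodule.span_span_of_tower]
  exact Module.Finite.span_of_finite ℚ s.finite_toSet

theorem mem_polySpan_of_mem_vals {z : ℂ} (hz : z ∈ vals ξ X) : z ∈ polySpan ξ X := by
  rw [polySpan_eq]
  exact Submodule.subset_span hz

theorem Rep.sub {N : ℕ} {Q Q' : MvPolynomial (Fin m) ℤ} {G G' : MvPolynomial (Fin m) ℂ}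
    (h : Rep ξ N Q G) (h' : Rep ξ N Q' G') : Rep ξ N (Q - Q') (G - G') := by
  refine ⟨(totalDegree_sub _ _).trans (max_le h.1 h'.1),
    (totalDegree_sub _ _).trans (max_le h.2.1 h'.2.1), ?_⟩
  intro p hp
  rw [map_sub, map_sub, h.2.2 p hp, h'.2.2 p hp]

theorem Rep.div {N : ℕ} {Q Q₀ : MvPolynomial (Fin m) ℤ} {G : MvPolynomial (Fin m) ℂ}
    (h : Rep ξ N Q G) (q : ℕ) (hq : 0 < q) (hdeg : Q₀.totalDegree ≤ N)
    (hv : aeval ξ Q = (q : ℂ) * aeval ξ Q₀) : Rep ξ N Q₀ (C ((q : ℂ)⁻¹) * G) := by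
  have hqC : (q : ℂ) ≠ 0 := by exact_mod_cast hq.ne'
  refine ⟨hdeg, ?_, ?_⟩
  · refine (totalDegree_mul _ _).trans ?_
    rw [totalDegree_C, zero_add]
    exact h.2.1
  · intro p hp
    have h1 : aeval ξ (Q - (q : MvPolynomial (Fin m) ℤ) * Q₀) = 0 := by
      rw [map_sub, map_mul, hv, map_natCast, sub_self]
    have h2 := hp _ h1
    rw [map_sub, map_mul, map_natCast, sub_eq_zero, h.2.2 p hp] at h2
    rw [map_mul, eval_C, h2]
    field_simp

theorem OnV.refl (ξ : Fin m → ℂ) : OnV ξ ξ := fun _ h => h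

theorem Rep.zero (ξ : Fin m → ℂ) (N : ℕ) : Rep ξ N 0 0 := by
  refine ⟨by simp, by simp, ?_⟩
  intro p _
  simp

end vals

theorem degreeOf_le_sz {ι : Type*} (F : MvPolynomial ι ℤ) (i : ι) : (F.degreeOf i : ℝ) ≤ sz F := by
  unfold sz
  have h1 : (F.degreeOf i : ℝ) ≤ F.totalDegree := by exact_mod_cast degreeOf_le_totalDegree F i
  have h2 : 0 ≤ Real.log (ht F) := Real.log_natCast_nonneg _
  linarith

theorem upper (hS : SSplit) (hZ : SSize) (hH : SHilb) (hz : SSz) : SUpper := by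
  intro m
  obtain ⟨C₀, hC₀, hC⟩ := hZ m
  refine ⟨2 ^ m * (3 + C₀), ?_, ?_⟩
  · have : (1 : ℝ) ≤ 2 ^ m := one_le_pow₀ (by norm_num)
    nlinarith
  intro r ξ F hF X hX
  obtain ⟨S⟩ := hS m r ξ F hF
  obtain ⟨hrm, hdeg, hsz⟩ := hz m r ξ F hF
  have hX' : (1 : ℝ) ≤ X := by exact_mod_cast hX
  set s := sz F with hs
  have hδ0 : 0 < S.δ := S.δ_pos
  have hδ1 : (1 : ℝ) ≤ S.δ := by exact_mod_cast hδ0
  have hδs : (S.δ : ℝ) ≤ s := by
    rw [S.δ_eq]
    exact degreeOf_le_sz F _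
  -- lower bound for the length
  have low : ∀ Q G, Rep ξ X Q G → aeval ξ Q ≠ 0 →
      1 ≤ (len G) ^ S.δ * Real.exp (C₀ * X * s) := by
    intro Q G hR hne
    obtain ⟨h1, h2⟩ := hC r ξ F hF S X Q G hX hR
    exact one_le_of_int (S.g Q X) (S.g_ne Q X hR.1 hne) _ h2
  set E := Real.exp (C₀ * X * s / S.δ) with hE
  have hEpow : E ^ S.δ = Real.exp (C₀ * X * s) := by
    rw [hE, ← Real.exp_nat_mul]
    congr 1
    field_simp
  have hEpos : 0 < E := Real.exp_pos _
  have hE1 : 1 ≤ E := by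
    rw [hE]
    apply Real.one_le_exp
    positivity
  have heX1 : 1 ≤ Real.exp (X : ℝ) := Real.one_le_exp (by positivity)
  set q : ℕ := ⌊2 * Real.exp X * E⌋₊ + 1 with hq
  have hq0 : 0 < q := by omega
  have hq1 : 2 * Real.exp X * E < q := by
    rw [hq]
    push_cast
    exact Nat.lt_floor_add_one _
  have hqpos : (0 : ℝ) < q := by exact_mod_cast hq0
  set B : Set ℂ := {g : ℂ | ∃ Q G, Rep ξ X Q G ∧ len G ≤ Real.exp X ∧ g = aeval ξ Q} with hB
  have hBM : ∀ x ∈ B, x ∈ vals ξ X := by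
    rintro x ⟨Q, G, hR, _, rfl⟩
    exact mem_vals.mpr ⟨Q, hR.1, rfl⟩
  have hcong : ∀ x ∈ B, ∀ y ∈ B, ∀ z ∈ vals ξ X, x - y = (q : ℂ) * z → z ∈ ({0} : Set ℂ) := by
    rintro x ⟨Q, G, hR, hl, rfl⟩ y ⟨Q', G', hR', hl', rfl⟩ z hzM hxy
    obtain ⟨Q₀, hd, rfl⟩ := mem_vals.mp hzM
    by_contra hne
    have hne' : aeval ξ Q₀ ≠ 0 := hne
    have h1 : Rep ξ X Q₀ (C ((q : ℂ)⁻¹) * (G - G')) := by
      apply Rep.div (Rep.sub hR hR') q hq0 hd
      rw [map_sub, hxy]
    have h2 := low _ _ h1 hne'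
    have h3 : len (C ((q : ℂ)⁻¹) * (G - G')) ≤ 2 * Real.exp X / q := by
      rw [len_C_mul, norm_inv, Complex.norm_natCast, inv_mul_eq_div]
      apply div_le_div_of_nonneg_right _ hqpos.le
      have := len_sub_le G G'
      linarith
    have h4 : (len (C ((q : ℂ)⁻¹) * (G - G'))) ^ S.δ * Real.exp (C₀ * X * s) ≤
        (2 * Real.exp X * E / q) ^ S.δ := by
      rw [← hEpow, ← mul_pow]
      apply pow_le_pow_left₀ (mul_nonneg (len_nonneg _) hEpos.le)
      calc len (C ((q : ℂ)⁻¹) * (G - G')) * E ≤ 2 * Real.exp X / q * E :=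
            mul_le_mul_of_nonneg_right h3 hEpos.le
        _ = 2 * Real.exp X * E / q := by ring
    have h5 : (2 * Real.exp X * E / q) ^ S.δ < 1 := by
      apply pow_lt_one₀ (by positivity) _ hδ0.ne'
      rw [div_lt_one hqpos]
      exact hq1
    linarith
  obtain ⟨hfin, hcard⟩ := ncard_le_of_congr (vals ξ X) q hq0 B {0} hBM (Set.finite_singleton 0)
    hcong
  rw [Set.ncard_singleton, mul_one] at hcard
  refine ⟨hfin, ?_⟩
  have hrank : (Module.finrank ℤ (vals ξ X) : ℝ) ≤ S.δ * ((X : ℝ) + 1) ^ r := by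
    have h1 : Module.finrank ℤ (vals ξ X) ≤ Module.finrank ℚ (polySpan ξ X) :=
      finrank_int_le _ _ fun z hz => mem_polySpan_of_mem_vals hz
    have h2 := hH m r ξ F hF X
    rw [← S.δ_eq] at h2
    exact (Nat.cast_le.mpr h1).trans h2
  have hlogq : Real.log q ≤ 3 * X + C₀ * X * s / S.δ := by
    have h1 : (q : ℝ) ≤ 4 * Real.exp X * E := by
      rw [hq]
      push_cast
      have : (⌊2 * Real.exp X * E⌋₊ : ℝ) ≤ 2 * Real.exp X * E := Nat.floor_le (by positivity)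
      nlinarith
    have h2 : Real.log q ≤ Real.log (4 * Real.exp X * E) := Real.log_le_log hqpos h1
    have h3 : Real.log (4 * Real.exp X * E) = Real.log 4 + X + C₀ * X * s / S.δ := by
      rw [Real.log_mul (by positivity) (by positivity), Real.log_mul (by norm_num) (by positivity),
        Real.log_exp, hE, Real.log_exp]
    have h4 : Real.log 4 ≤ 2 := by
      have : (4 : ℝ) = 2 ^ (2 : ℕ) := by norm_num
      rw [this, Real.log_pow]
      have := Real.log_two_lt_d9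
      push_cast
      linarith
    linarith
  have hlogq0 : 0 ≤ Real.log q := Real.log_natCast_nonneg _
  have hB0 : (0 : ℂ) ∈ B := ⟨0, 0, Rep.zero ξ X, by simp; positivity, by simp⟩
  have hBpos : 0 < B.ncard := (Set.ncard_pos hfin).mpr ⟨0, hB0⟩
  have hcnt : cnt ξ X ≤ Module.finrank ℤ (vals ξ X) * Real.log q := by
    unfold cnt
    calc Real.log (B.ncard : ℝ) ≤ Real.log ((q : ℝ) ^ Module.finrank ℤ (vals ξ X)) := by
          apply Real.log_le_log (by exact_mod_cast hBpos)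
          exact_mod_cast hcard
      _ = _ := by rw [Real.log_pow]
  have hC₀' : 0 ≤ C₀ := by linarith
  have hs0 : 0 < s := by linarith
  calc cnt ξ X ≤ Module.finrank ℤ (vals ξ X) * Real.log q := hcnt
    _ ≤ (S.δ * ((X : ℝ) + 1) ^ r) * (3 * X + C₀ * X * s / S.δ) :=
        mul_le_mul hrank hlogq hlogq0 (by positivity)
    _ = ((X : ℝ) + 1) ^ r * (3 * X * S.δ + C₀ * X * s) := by
        field_simp
    _ ≤ (2 * (X : ℝ)) ^ r * (3 * X * s + C₀ * X * s) := by
        apply mul_le_mul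
        · apply pow_le_pow_left₀ (by positivity)
          linarith
        · have : 3 * (X : ℝ) * S.δ ≤ 3 * X * s := mul_le_mul_of_nonneg_left hδs (by positivity)
          linarith
        · positivity
        · positivity
    _ = 2 ^ r * ((3 + C₀) * (X : ℝ) ^ (r + 1) * s) := by
        rw [mul_pow]
        ring
    _ ≤ 2 ^ m * ((3 + C₀) * (X : ℝ) ^ (r + 1) * s) := by
        apply mul_le_mul_of_nonneg_right _ (by positivity)
        exact pow_le_pow_right₀ (by norm_num) hrm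
    _ = 2 ^ m * (3 + C₀) * (X : ℝ) ^ (r + 1) * s := by ring

end Pool.Agent.Helper60.LRUpper
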