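import Pool.Agent.Helper60.BTDefs

namespace Pool.Agent.Helper60.BT

theorem rook_adj {n : ℕ} (x y : Fin n × Fin n) :
    (rook n).Adj x y ↔ (x ≠ y ∧ (x.1 = y.1 ∨ x.2 = y.2)) := by
  unfold rook
  rw [SimpleGraph.boxProd_adj]
  simp only [SimpleGraph.top_adj]
  constructor
  · rintro (⟨h, h2⟩ | ⟨h, h2⟩)
    · exact ⟨fun hxy => h (by rw [hxy]), Or.inr h2⟩
    · exact ⟨fun hxy => h (by rw [hxy]), Or.inl h2⟩
  · rintro ⟨hne, h | h⟩
    · right
      exact ⟨fun h2 => hne (Prod.ext h h2), h⟩
    · left
      exact ⟨fun h2 => hne (Prod.ext h2 h), h⟩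

theorem HasBookEmbedding.mono {V : Type} {G : SimpleGraph V} {p q : ℕ} (h : HasBookEmbedding G p)
    (hpq : p ≤ q) : HasBookEmbedding G q := by
  obtain ⟨pos, page, hinj, hlt, hnc⟩ := h
  exact ⟨pos, page, hinj, fun e he => (hlt e he).trans_le hpq, hnc⟩

theorem HasBookEmbedding.comap {V W : Type} {G : SimpleGraph V} {H : SimpleGraph W} {p : ℕ}
    (h : HasBookEmbedding H p) (φ : V → W) (hφ : Function.Injective φ)
    (hadj : ∀ u v, G.Adj u v → H.Adj (φ u) (φ v)) : HasBookEmbedding G p := by
  obtain ⟨pos, page, hinj, hlt, hnc⟩ := h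
  refine ⟨fun v => pos (φ v), fun e => page (e.map φ), hinj.comp hφ, ?_, ?_⟩
  · intro e he
    induction e using Sym2.ind with
    | _ x y =>
      have := hadj x y he
      exact hlt _ this
  · intro a b c d hab hcd h1 h2 h3
    have := hnc (φ a) (φ b) (φ c) (φ d) (hadj _ _ hab) (hadj _ _ hcd) h1 h2 h3
    simpa [Sym2.map_mk] using this

theorem rook_mono {m n p : ℕ} (hmn : m ≤ n) (h : HasBookEmbedding (rook n) p) :
    HasBookEmbedding (rook m) p := by
  refine h.comap (fun x => (Fin.castLE hmn x.1, Fin.castLE hmn x.2)) ?_ ?_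
  · rintro ⟨a, b⟩ ⟨c, d⟩ h
    simp only [Prod.mk.injEq] at h
    have h1 := Fin.castLE_injective hmn h.1
    have h2 := Fin.castLE_injective hmn h.2
    rw [h1, h2]
  · rintro ⟨a, b⟩ ⟨c, d⟩ h
    rw [rook_adj] at h ⊢
    refine ⟨?_, ?_⟩
    · intro h3
      simp only [Prod.mk.injEq] at h3
      have h1 := Fin.castLE_injective hmn h3.1
      have h2 := Fin.castLE_injective hmn h3.2
      exact h.1 (by rw [h1, h2])
    · rcases h.2 with h2 | h2
      · left; simp only at h2 ⊢; rw [h2]
      · right; simp only at h2 ⊢; rw [h2]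

/-- A book embedding given by a page function on oriented edges with values in a finite set. -/
theorem hasBookEmbedding_of_directed {V α : Type} {G : SimpleGraph V} {p : ℕ}
    (pos : V → ℕ) (hinj : Function.Injective pos) (P : V → V → α) (S : Finset α)
    (hS : ∀ a b, G.Adj a b → pos a < pos b → P a b ∈ S) (hcard : S.card ≤ p)
    (h : ∀ a b c d, G.Adj a b → G.Adj c d → pos a < pos c → pos c < pos b → pos b < pos d →
      P a b ≠ P c d) : HasBookEmbedding G p := by
  classical
  let num : α → ℕ := fun x => if hx : x ∈ S then (S.equivFin ⟨x, hx⟩ : ℕ) else 0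
  let pg : V → V → ℕ := fun a b => if pos a < pos b then num (P a b) else
    if pos b < pos a then num (P b a) else 0
  have hsymm : ∀ a b, pg a b = pg b a := by
    intro a b
    simp only [pg]
    rcases lt_trichotomy (pos a) (pos b) with hlt | heq | hgt
    · rw [if_pos hlt, if_neg (by omega), if_pos hlt]
    · rw [if_neg (by omega), if_neg (by omega), if_neg (by omega), if_neg (by omega)]
    · rw [if_neg (by omega), if_pos hgt, if_pos hgt]
  refine ⟨pos, Sym2.lift ⟨pg, hsymm⟩, hinj, ?_, ?_⟩
  · intro e he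
    induction e using Sym2.ind with
    | _ a b =>
      have hab : G.Adj a b := he
      have hne : pos a ≠ pos b := fun h => hab.ne (hinj h)
      rw [Sym2.lift_mk]
      simp only [pg]
      rcases lt_or_gt_of_ne hne with hlt | hgt
      · rw [if_pos hlt]
        have hm := hS a b hab hlt
        simp only [num, dif_pos hm]
        exact lt_of_lt_of_le (Fin.is_lt _) hcard
      · rw [if_neg (by omega), if_pos hgt]
        have hm := hS b a hab.symm hgt
        simp only [num, dif_pos hm]
        exact lt_of_lt_of_le (Fin.is_lt _) hcard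
  · intro a b c d hab hcd h1 h2 h3 heq
    rw [Sym2.lift_mk, Sym2.lift_mk] at heq
    simp only [pg] at heq
    rw [if_pos (show pos a < pos b by omega), if_pos (show pos c < pos d by omega)] at heq
    have hm := hS a b hab (by omega)
    have hm' := hS c d hcd (by omega)
    simp only [num, dif_pos hm, dif_pos hm'] at heq
    have h4 := S.equivFin.injective (Fin.ext heq)
    exact h a b c d hab hcd h1 h2 h3 (Subtype.ext_iff.mp h4)

end Pool.Agent.Helper60.BT
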