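import Mathlib

/-!
Book embeddings of finite simple graphs, and the rook's graph `K_n □ K_n`.
-/

namespace Pool.Agent.Helper60.BT

/-- `HasBookEmbedding G p`: the graph `G` has a book embedding on `p` pages.
`pos` gives the positions of the vertices on the spine (an injective map, so it is a linear
order of the vertices), `page e < p` is the page of the edge `e` (the value of `page` at
pairs that are not edges is irrelevant), and no two edges `ab`, `cd` on one page interleave,
i.e. never `a < c < b < d` on the spine. -/
def HasBookEmbedding {V : Type} (G : SimpleGraph V) (p : ℕ) : Prop :=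
  ∃ (pos : V → ℕ) (page : Sym2 V → ℕ), Function.Injective pos ∧
    (∀ e ∈ G.edgeSet, page e < p) ∧
    ∀ a b c d : V, G.Adj a b → G.Adj c d → pos a < pos c → pos c < pos b → pos b < pos d →
      page s(a, b) ≠ page s(c, d)

/-- The Cartesian product `K_n □ K_n` (the `n × n` rook's graph). -/
def rook (n : ℕ) : SimpleGraph (Fin n × Fin n) :=
  SimpleGraph.boxProd (⊤ : SimpleGraph (Fin n)) (⊤ : SimpleGraph (Fin n))

/-- The book thickness `bt(G)` of a finite graph: the least `p` such that `G` has a book
embedding on `p` pages. -/
noncomputable def bt {V : Type} (G : SimpleGraph V) : ℕ := sInf {p | HasBookEmbedding G p}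

end Pool.Agent.Helper60.BT
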