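import Pool.Agent.Helper60.BTLowDefs

namespace Pool.Agent.Helper60.BT
open Finset

variable {N n p : ℕ}

theorem WD.w_spec (W : WD N n p) {V : Finset ℕ} {M i t : ℕ} (ht : t ∈ W.D V M i) :
    W.Partner V M i t (W.w V M i t) := by
  classical
  unfold WD.D at ht
  rw [mem_filter] at ht
  obtain ⟨_, w, _, hw⟩ := ht
  have h : ∃ w, W.Partner V M i t w := ⟨w, hw⟩
  unfold WD.w
  rw [dif_pos h]
  exact h.choose_spec

theorem WD.D_sub (W : WD N n p) {V : Finset ℕ} {M i t : ℕ} (ht : t ∈ W.D V M i) : t ∈ V := by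
  unfold WD.D at ht
  exact (mem_filter.mp ht).1

theorem cell_lt {M a b : ℕ} (hM : 0 < M) (h : a / M = b / M) : a < b + M := by
  have h1 : a < M * (a / M) + M := Nat.lt_mul_div_succ a hM
  have h2 : M * (b / M) ≤ b := Nat.mul_div_le b M
  rw [h] at h1
  omega

/-- Antitonicity of the partners inside a cell. -/
theorem WD.anti (W : WD N n p) {V : Finset ℕ} (hV : V ⊆ range N) {M i t1 t2 : ℕ} (hM : 0 < M)
    (h1 : t1 ∈ W.D V M i) (h2 : t2 ∈ W.D V M i) (hlt : t1 < t2) (hc : t1 / M = t2 / M) :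
    (t1 < W.w V M i t1 → t2 < W.w V M i t2 ∧ W.w V M i t2 ≤ W.w V M i t1) ∧
    (W.w V M i t2 < t2 → W.w V M i t1 < t1 ∧ W.w V M i t2 ≤ W.w V M i t1) := by
  obtain ⟨hw1V, hw1f, hw1far, hw1p⟩ := W.w_spec h1
  obtain ⟨hw2V, hw2f, hw2far, hw2p⟩ := W.w_spec h2
  set w1 := W.w V M i t1
  set w2 := W.w V M i t2
  have hN1 : t1 < N := mem_range.mp (hV (W.D_sub h1))
  have hN2 : t2 < N := mem_range.mp (hV (W.D_sub h2))
  have hNw1 : w1 < N := mem_range.mp (hV hw1V)
  have hNw2 : w2 < N := mem_range.mp (hV hw2V)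
  have hcell : t2 < t1 + M := cell_lt hM hc.symm
  have hpp : W.pg t1 w1 = W.pg t2 w2 := by rw [hw1p, hw2p]
  unfold Far at hw1far hw2far
  -- no `w2 < t1 < t2 < w1`
  have hA : ¬ (t1 < w1 ∧ w2 < t2) := by
    rintro ⟨ha, hb⟩
    have h3 := W.nc w2 t1 t2 w1 (by omega) hlt (by omega) hNw1 hw2f hw1f.symm
    rw [W.pg_symm w2 t2] at h3
    exact h3 hpp.symm
  -- both right
  have hB : t1 < w1 → t2 < w2 → w2 ≤ w1 := by
    intro ha hb
    by_contra hc'
    push Not at hc'
    exact W.nc t1 t2 w1 w2 hlt (by omega) hc' hNw2 hw1f.symm hw2f.symm hpp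
  have hC : w1 < t1 → w2 < t2 → w2 ≤ w1 := by
    intro ha hb
    by_contra hc'
    push Not at hc'
    have h3 := W.nc w1 w2 t1 t2 hc' (by omega) hlt hN2 hw1f hw2f
    rw [W.pg_symm w1 t1, W.pg_symm w2 t2] at h3
    exact h3 hpp
  constructor
  · intro ha
    have hb : t2 < w2 := by
      by_contra hb'
      exact hA ⟨ha, by omega⟩
    exact ⟨hb, hB ha hb⟩
  · intro hb
    have ha : w1 < t1 := by
      by_contra ha'
      exact hA ⟨by omega, hb⟩
    exact ⟨ha, hC ha hb⟩

/-- Convexity: if `t1 < t2 < t3` are in one cell and the partners of `t1`, `t3` are in one region,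
so is the partner of `t2`. -/
theorem WD.conv (W : WD N n p) {V : Finset ℕ} (hV : V ⊆ range N) {M ℓ i t1 t2 t3 : ℕ}
    (hℓ : 1 ≤ ℓ) (hℓM : 2 * ℓ < M)
    (h1 : t1 ∈ W.D V M i) (h2 : t2 ∈ W.D V M i) (h3 : t3 ∈ W.D V M i)
    (h12 : t1 ≤ t2) (h23 : t2 ≤ t3) (hc : t1 / M = t3 / M)
    (hr : W.w V M i t1 / ℓ = W.w V M i t3 / ℓ) :
    W.w V M i t2 / ℓ = W.w V M i t1 / ℓ := by
  have hM : 0 < M := by omega
  rcases h12.eq_or_lt with h12' | h12'
  · rw [h12']
  rcases h23.eq_or_lt with h23' | h23'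
  · rw [h23', hr]
  have hc12 : t1 / M = t2 / M :=
    le_antisymm (Nat.div_le_div_right h12) (hc ▸ Nat.div_le_div_right h23)
  have hc23 : t2 / M = t3 / M := hc12 ▸ hc
  obtain ⟨a12, b12⟩ := W.anti hV hM h1 h2 h12' hc12
  obtain ⟨a23, b23⟩ := W.anti hV hM h2 h3 h23' hc23
  obtain ⟨_, _, far1, _⟩ := W.w_spec h1
  obtain ⟨_, _, far3, _⟩ := W.w_spec h3
  unfold Far at far1 far3
  have hcell : t3 < t1 + M := cell_lt hM hc.symm
  have hr1 := cell_lt (by omega : 0 < ℓ) hr
  have hr2 := cell_lt (by omega : 0 < ℓ) hr.symm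
  have key : W.w V M i t3 ≤ W.w V M i t2 ∧ W.w V M i t2 ≤ W.w V M i t1 := by
    rcases lt_or_ge t1 (W.w V M i t1) with hright | hleft
    · obtain ⟨c1, c2⟩ := a12 hright
      obtain ⟨_, c4⟩ := a23 c1
      exact ⟨c4, c2⟩
    · have h3l : W.w V M i t3 < t3 := by omega
      obtain ⟨c1, c2⟩ := b23 h3l
      obtain ⟨_, c4⟩ := b12 c1
      exact ⟨c2, c4⟩
  apply le_antisymm
  · exact Nat.div_le_div_right key.2
  · rw [hr]
    exact Nat.div_le_div_right key.1

/-- A noncrossing set of edges has at most twice as many edges as end points. -/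
theorem noncross_card (E : Finset (ℕ × ℕ)) (hlt : ∀ e ∈ E, e.1 < e.2)
    (hnc : ∀ e ∈ E, ∀ e' ∈ E, ¬ (e.1 < e'.1 ∧ e'.1 < e.2 ∧ e.2 < e'.2)) :
    E.card ≤ 2 * (E.image Prod.fst ∪ E.image Prod.snd).card := by
  classical
  set E1 := E.filter (fun e => ∀ e' ∈ E, e'.1 = e.1 → e'.2 ≤ e.2) with hE1
  set E2 := E.filter (fun e => ¬ ∀ e' ∈ E, e'.1 = e.1 → e'.2 ≤ e.2) with hE2
  have hsplit : E1.card + E2.card = E.card := card_filter_add_card_filter_not _
  have h1 : E1.card ≤ (E.image Prod.fst).card := by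
    apply card_le_card_of_injOn Prod.fst
    · intro e he
      exact mem_image_of_mem _ (mem_filter.mp he).1
    · intro e he e' he' heq
      have he := mem_filter.mp (mem_coe.mp he)
      have he' := mem_filter.mp (mem_coe.mp he')
      have a := he.2 e' he'.1 heq.symm
      have b := he'.2 e he.1 heq
      exact Prod.ext heq (le_antisymm b a)
  have h2 : E2.card ≤ (E.image Prod.snd).card := by
    apply card_le_card_of_injOn Prod.snd
    · intro e he
      exact mem_image_of_mem _ (mem_filter.mp he).1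
    · have aux : ∀ e ∈ E2, ∀ e' ∈ E2, e.2 = e'.2 → ¬ (e.1 < e'.1) := by
        intro e he e' he' heq hlt'
        have he := mem_filter.mp he
        have he' := mem_filter.mp he'
        have h3 := he'.2
        push Not at h3
        obtain ⟨e'', he'', h4, h5⟩ := h3
        exact hnc e he.1 e'' he'' ⟨by omega, by have := hlt e' he'.1; omega, by omega⟩
      intro e he e' he' heq
      have a := aux e (mem_coe.mp he) e' (mem_coe.mp he') heq
      have b := aux e' (mem_coe.mp he') e (mem_coe.mp he) heq.symm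
      exact Prod.ext (by omega) heq
  have h3 : (E.image Prod.fst).card ≤ (E.image Prod.fst ∪ E.image Prod.snd).card :=
    card_le_card subset_union_left
  have h4 : (E.image Prod.snd).card ≤ (E.image Prod.fst ∪ E.image Prod.snd).card :=
    card_le_card subset_union_right
  omega

end Pool.Agent.Helper60.BT
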