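import Pool.Agent.Helper60.BTBasic

/-!
Definitions for the lower bound `bt (K_n □ K_n) ≥ c n^{7/6}`.
-/

namespace Pool.Agent.Helper60.BT

/-- A word of length `N` over `n` letters (`f t` is the letter at position `t`; each letter occurs
at most `n` times), with a page `pg a b < p` for each pair of positions with the same letter, such
that interleaving pairs are on different pages. -/
structure WD (N n p : ℕ) where
  f : ℕ → ℕ
  pg : ℕ → ℕ → ℕ
  f_lt : ∀ t < N, f t < n
  mult : ∀ c, ((Finset.range N).filter (fun s => f s = c)).card ≤ n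
  pg_symm : ∀ a b, pg a b = pg b a
  pg_lt : ∀ a b, a < N → b < N → a ≠ b → f a = f b → pg a b < p
  nc : ∀ a b c d, a < b → b < c → c < d → d < N → f a = f c → f b = f d → pg a c ≠ pg b d

variable {N n p : ℕ}

/-- The positions within distance `ℓ` of `t` with the same letter as `t` (including `t`). -/
def WD.nbs (W : WD N n p) (t ℓ : ℕ) : Finset ℕ :=
  (Finset.range N).filter (fun s => W.f s = W.f t ∧ s ≤ t + ℓ ∧ t ≤ s + ℓ)

/-- Distance greater than `2M`. -/
def Far (M s t : ℕ) : Prop := t + 2 * M < s ∨ s + 2 * M < t

instance (M s t : ℕ) : Decidable (Far M s t) := by unfold Far; infer_instance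

/-- `w` is a far partner of `t` in `V` on page `i`. -/
def WD.Partner (W : WD N n p) (V : Finset ℕ) (M i t w : ℕ) : Prop :=
  w ∈ V ∧ W.f w = W.f t ∧ Far M w t ∧ W.pg t w = i

instance (W : WD N n p) (V : Finset ℕ) (M i t w : ℕ) : Decidable (W.Partner V M i t w) := by
  unfold WD.Partner; infer_instance

/-- The positions in `V` with a far partner in `V` on page `i`. -/
def WD.D (W : WD N n p) (V : Finset ℕ) (M i : ℕ) : Finset ℕ :=
  V.filter (fun t => ∃ w ∈ V, W.Partner V M i t w)

open Classical in
/-- A chosen far partner. -/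
noncomputable def WD.w (W : WD N n p) (V : Finset ℕ) (M i t : ℕ) : ℕ :=
  if h : ∃ w, W.Partner V M i t w then h.choose else 0

/-- The fibre of `t`: the positions in `D i` in the same cell, with partners in the same region,
and with the same letter. -/
noncomputable def WD.fib (W : WD N n p) (V : Finset ℕ) (M ℓ i t : ℕ) : Finset ℕ :=
  (W.D V M i).filter (fun s => s / M = t / M ∧ W.w V M i s / ℓ = W.w V M i t / ℓ ∧ W.f s = W.f t)

/-- The good positions on page `i`: those whose fibre has fewer than `S'` elements. -/
noncomputable def WD.B (W : WD N n p) (V : Finset ℕ) (M ℓ S' i : ℕ) : Finset ℕ :=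
  (W.D V M i).filter (fun t => (W.fib V M ℓ i t).card < S')

end Pool.Agent.Helper60.BT
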