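import Pool.Agent.Helper60.BTLowStage
import Pool.Agent.Helper67.BTLowP

namespace Pool.Agent.Helper60.BT
open Finset

theorem self_mem_nbs {N n p : ℕ} (W : WD N n p) {t ℓ : ℕ} (ht : t < N) : t ∈ W.nbs t ℓ := by
  unfold WD.nbs
  rw [mem_filter]
  exact ⟨mem_range.mpr ht, rfl, by omega, by omega⟩

theorem nbs_card_le {N n p : ℕ} (W : WD N n p) (t ℓ : ℕ) : (W.nbs t ℓ).card ≤ n := by
  refine le_trans (card_le_card ?_) (W.mult (W.f t))
  intro s hs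
  unfold WD.nbs at hs
  obtain ⟨h1, h2, _⟩ := mem_filter.mp hs
  exact mem_filter.mpr ⟨h1, h2⟩

/-- No book embedding of `K_n □ K_n` with `m⁷` pages for `n = 2⁶⁰ m⁶`. -/
theorem no_embedding (htw : ∀ {N n p : ℕ} (W : WD N n p), TwistStmt W) (m : ℕ) (hm : 1 ≤ m) :
    ¬ HasBookEmbedding (rook (2 ^ 60 * m ^ 6)) (m ^ 7) := by
  intro hemb
  have hmp : ∀ k, 1 ≤ m ^ k := fun k => Nat.one_le_pow _ _ hm
  set n := 2 ^ 60 * m ^ 6 with hn
  have hn1 : 1 ≤ n := Nat.mul_pos (by norm_num) (hmp 6)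
  have hNM : n * n = 2 ^ 50 * (2 ^ 70 * m ^ 12) := by rw [hn]; ring
  obtain ⟨W, hW⟩ := exists_spread_word (z := 2 ^ 21) (M := 2 ^ 70 * m ^ 12) hn1 (by norm_num)
    (Nat.mul_pos (by norm_num) (hmp 12)) (by
      rw [hNM]
      have h1 : 144 * (2 ^ 21) ^ 2 ≤ 2 ^ 50 := by norm_num
      exact Nat.mul_le_mul_right _ h1) hemb
  set M := 2 ^ 70 * m ^ 12 with hM
  set G := (range (n * n)).filter (fun t => 2 ^ 21 * (W.nbs t (2 * M)).card < n) with hG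
  have hGm : ∀ t ∈ G, t < n * n ∧ 2 ^ 21 * (W.nbs t (2 * M)).card < n := by
    intro t ht
    obtain ⟨h1, h2⟩ := mem_filter.mp ht
    exact ⟨mem_range.mp h1, h2⟩
  -- the stages
  set S1 := 2 ^ 60 * m ^ 3 with hS1
  set ℓ1 := 2 ^ 13 * m ^ 4 with hℓ1
  set S2 := 2 ^ 120 * m ^ 5 with hS2
  set ℓ2 := 2 ^ 26 * m ^ 7 with hℓ2
  set V0 := G.filter (fun t => (W.nbs t ℓ1).card < S1) with hV0
  set V1 := G.filter (fun t => S1 ≤ (W.nbs t ℓ1).card ∧ (W.nbs t ℓ2).card < S2) with hV1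
  set V2 := G.filter (fun t => S2 ≤ (W.nbs t ℓ2).card) with hV2
  have hsub : G ⊆ V0 ∪ (V1 ∪ V2) := by
    intro t ht
    rw [mem_union, mem_union]
    by_cases h0 : (W.nbs t ℓ1).card < S1
    · exact Or.inl (mem_filter.mpr ⟨ht, h0⟩)
    · right
      by_cases h1 : (W.nbs t ℓ2).card < S2
      · exact Or.inl (mem_filter.mpr ⟨ht, by omega, h1⟩)
      · exact Or.inr (mem_filter.mpr ⟨ht, by omega⟩)
  have hcards : G.card ≤ V0.card + (V1.card + V2.card) :=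
    (card_le_card hsub).trans ((card_union_le _ _).trans
      (Nat.add_le_add_left (card_union_le _ _) _))
  have hNK : n * n ≤ 2 ^ 50 * M := hNM.le
  have hsubr : ∀ V ⊆ G, V ⊆ range (n * n) := fun V hV t ht => mem_range.mpr (hGm t (hV ht)).1
  have hpow : ∀ a b : ℕ, a ≤ b → m ^ a ≤ m ^ b := fun a b h => Nat.pow_le_pow_right hm h
  -- stage 0
  have s0 : ¬ n * n ≤ 8 * V0.card := by
    intro hc
    have hVG : V0 ⊆ G := filter_subset _ _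
    refine stage W (htw W) rfl hn1 V0 (hsubr V0 hVG) M (2 ^ 50) 1 1 S1 ℓ1 hNK le_rfl le_rfl
      (Nat.mul_pos (by norm_num) (hmp 4)) ?_ (fun t ht => (hGm t (hVG ht)).2)
      (fun t ht => card_pos.mpr ⟨t, self_mem_nbs W (hGm t (hVG ht)).1⟩)
      (fun t ht => (mem_filter.mp ht).2) hc ?_ ?_
    · have := hmp 12
      rw [hM]; omega
    · rw [hS1, hℓ1, hn]
      calc 6144 * m ^ 7 * 1 * (2 ^ 60 * m ^ 3) = (6144 * 2 ^ 60) * m ^ 10 := by ring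
        _ ≤ (2 ^ 60 * 2 ^ 13) * m ^ 10 := Nat.mul_le_mul_right _ (by norm_num)
        _ = 2 ^ 60 * m ^ 6 * 1 * (2 ^ 13 * m ^ 4) := by ring
    · rw [hS1, hn]
      calc 30 * 2 ^ 21 * (2 ^ 50) ^ 3 * 1 * (2 ^ 60 * m ^ 3) * (m ^ 7) ^ 3
          = (30 * 2 ^ 231) * m ^ 24 := by ring
        _ < (2 ^ 240) * m ^ 24 := Nat.mul_lt_mul_of_pos_right (by norm_num) (hmp 24)
        _ = (2 ^ 60 * m ^ 6) ^ 4 * 1 ^ 2 := by ring
  -- stage 1
  have s1 : ¬ n * n ≤ 8 * V1.card := by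
    intro hc
    have hVG : V1 ⊆ G := filter_subset _ _
    refine stage W (htw W) rfl hn1 V1 (hsubr V1 hVG) M (2 ^ 50) S1 ℓ1 S2 ℓ2 hNK
      (Nat.mul_pos (by norm_num) (hmp 4)) (Nat.mul_pos (by norm_num) (hmp 3))
      (Nat.mul_pos (by norm_num) (hmp 7)) ?_ (fun t ht => (hGm t (hVG ht)).2)
      (fun t ht => (mem_filter.mp ht).2.1)
      (fun t ht => (mem_filter.mp ht).2.2) hc ?_ ?_
    · rw [hM, hℓ1]
      have := hpow 4 12 (by norm_num)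
      have := hmp 4
      omega
    · rw [hS1, hℓ1, hS2, hℓ2, hn]
      calc 6144 * m ^ 7 * (2 ^ 13 * m ^ 4) * (2 ^ 120 * m ^ 5)
          = (6144 * 2 ^ 133) * m ^ 16 := by ring
        _ ≤ (2 ^ 146) * m ^ 16 := Nat.mul_le_mul_right _ (by norm_num)
        _ = 2 ^ 60 * m ^ 6 * (2 ^ 60 * m ^ 3) * (2 ^ 26 * m ^ 7) := by ring
    · rw [hS1, hℓ1, hS2, hn]
      calc 30 * 2 ^ 21 * (2 ^ 50) ^ 3 * (2 ^ 13 * m ^ 4) * (2 ^ 120 * m ^ 5) * (m ^ 7) ^ 3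
          = (30 * (2 ^ 152 * 2 ^ 152)) * m ^ 30 := by ring
        _ < (2 ^ 180 * 2 ^ 180) * m ^ 30 := Nat.mul_lt_mul_of_pos_right (by norm_num) (hmp 30)
        _ = (2 ^ 60 * m ^ 6) ^ 4 * (2 ^ 60 * m ^ 3) ^ 2 := by ring
  -- stage 2
  have s2 : ¬ n * n ≤ 8 * V2.card := by
    intro hc
    have hVG : V2 ⊆ G := filter_subset _ _
    have hn2 : n + 1 ≤ 2 ^ 61 * m ^ 6 := by
      have := hmp 6
      rw [hn]; omega
    refine stage W (htw W) rfl hn1 V2 (hsubr V2 hVG) M (2 ^ 50) S2 ℓ2 (n + 1) (m ^ 9) hNK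
      (Nat.mul_pos (by norm_num) (hmp 7)) (Nat.mul_pos (by norm_num) (hmp 5))
      (hmp 9) ?_ (fun t ht => (hGm t (hVG ht)).2)
      (fun t ht => (mem_filter.mp ht).2)
      (fun t _ => Nat.lt_succ_of_le (nbs_card_le W t _)) hc ?_ ?_
    · rw [hM, hℓ2]
      have := hpow 7 12 (by norm_num)
      have := hmp 7
      omega
    · calc 6144 * m ^ 7 * ℓ2 * (n + 1) ≤ 6144 * m ^ 7 * ℓ2 * (2 ^ 61 * m ^ 6) :=
            Nat.mul_le_mul_left _ hn2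
        _ = (6144 * 2 ^ 87) * m ^ 20 := by rw [hℓ2]; ring
        _ ≤ (2 ^ 180) * m ^ 20 := Nat.mul_le_mul_right _ (by norm_num)
        _ = n * S2 * m ^ 9 := by rw [hn, hS2]; ring
    · calc 30 * 2 ^ 21 * (2 ^ 50) ^ 3 * ℓ2 * (n + 1) * (m ^ 7) ^ 3
          ≤ 30 * 2 ^ 21 * (2 ^ 50) ^ 3 * ℓ2 * (2 ^ 61 * m ^ 6) * (m ^ 7) ^ 3 :=
            Nat.mul_le_mul_right _ (Nat.mul_le_mul_left _ hn2)
        _ = (30 * (2 ^ 129 * 2 ^ 129)) * m ^ 34 := by rw [hℓ2]; ring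
        _ < (2 ^ 240 * 2 ^ 240) * m ^ 34 := Nat.mul_lt_mul_of_pos_right (by norm_num) (hmp 34)
        _ = n ^ 4 * S2 ^ 2 := by rw [hn, hS2]; ring
  omega

/-- The lower bound, for all `n ≥ 2`. -/
theorem rook_lower (htw : ∀ {N n p : ℕ} (W : WD N n p), TwistStmt W) (n p : ℕ) (hn : 2 ≤ n)
    (h : HasBookEmbedding (rook n) p) : (n : ℝ) ^ (7 / 6 : ℝ) / 2 ^ 77 ≤ p := by
  have hnR : (2 : ℝ) ≤ n := by exact_mod_cast hn
  have hn0 : (0 : ℝ) ≤ n := by linarith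
  -- at least one page
  have hp1 : 1 ≤ p := by
    obtain ⟨pos, page, _, hlt, _⟩ := h
    have hadj : (rook n).Adj (⟨0, by omega⟩, ⟨0, by omega⟩) (⟨0, by omega⟩, ⟨1, by omega⟩) := by
      rw [rook_adj]
      refine ⟨?_, Or.inl rfl⟩
      simp
    have := hlt _ ((SimpleGraph.mem_edgeSet _).mpr hadj)
    omega
  rcases lt_or_ge n (2 ^ 60) with hsmall | hbig
  · have h1 : (n : ℝ) ≤ 2 ^ 60 := by exact_mod_cast hsmall.le
    have h2 : (n : ℝ) ^ (7 / 6 : ℝ) ≤ ((2 : ℝ) ^ 60) ^ (7 / 6 : ℝ) :=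
      Real.rpow_le_rpow hn0 h1 (by norm_num)
    have h3 : ((2 : ℝ) ^ 60) ^ (7 / 6 : ℝ) = 2 ^ 70 := by
      rw [← Real.rpow_natCast, ← Real.rpow_natCast, ← Real.rpow_mul (by norm_num)]
      norm_num
    rw [h3] at h2
    have h4 : (1 : ℝ) ≤ p := by exact_mod_cast hp1
    rw [div_le_iff₀ (by positivity)]
    calc (n : ℝ) ^ (7 / 6 : ℝ) ≤ 2 ^ 70 := h2
      _ ≤ 1 * 2 ^ 77 := by norm_num
      _ ≤ p * 2 ^ 77 := by
        apply mul_le_mul_of_nonneg_right h4 (by positivity)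
  · set x : ℝ := ((n : ℝ) / 2 ^ 60) ^ (1 / 6 : ℝ) with hx
    have hbigR : (2 : ℝ) ^ 60 ≤ n := by exact_mod_cast hbig
    have hq1 : (1 : ℝ) ≤ (n : ℝ) / 2 ^ 60 := by
      rw [le_div_iff₀ (by positivity)]; linarith
    have hx1 : 1 ≤ x := Real.one_le_rpow hq1 (by norm_num)
    have hx6 : x ^ 6 = (n : ℝ) / 2 ^ 60 := by
      rw [hx, ← Real.rpow_natCast, ← Real.rpow_mul (by linarith)]
      norm_num
    have hx7 : x ^ 7 = (n : ℝ) ^ (7 / 6 : ℝ) / 2 ^ 70 := by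
      rw [hx, ← Real.rpow_natCast, ← Real.rpow_mul (by linarith),
        Real.div_rpow hn0 (by positivity)]
      have h3 : ((2 : ℝ) ^ 60) ^ (1 / 6 * ((7 : ℕ) : ℝ)) = 2 ^ 70 := by
        rw [← Real.rpow_natCast, ← Real.rpow_natCast, ← Real.rpow_mul (by norm_num)]
        norm_num
      rw [h3]
      norm_num
    set m : ℕ := ⌊x⌋₊ with hm
    have hm1 : 1 ≤ m := by
      rw [hm]
      exact Nat.le_floor (by exact_mod_cast hx1)
    have hmx : (m : ℝ) ≤ x := Nat.floor_le (by linarith)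
    have hxm : x < m + 1 := Nat.lt_floor_add_one x
    have hm2 : x / 2 ≤ m := by
      have : (1 : ℝ) ≤ m := by exact_mod_cast hm1
      linarith
    have hmn : 2 ^ 60 * m ^ 6 ≤ n := by
      have h1 : (m : ℝ) ^ 6 ≤ x ^ 6 := pow_le_pow_left₀ (by positivity) hmx 6
      rw [hx6, le_div_iff₀ (by positivity)] at h1
      have h2 : ((2 ^ 60 * m ^ 6 : ℕ) : ℝ) ≤ n := by
        push_cast
        linarith
      exact_mod_cast h2
    have hpm : m ^ 7 < p := by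
      by_contra hc
      push Not at hc
      exact no_embedding htw m hm1 ((rook_mono hmn h).mono hc)
    have hpmR : (m : ℝ) ^ 7 ≤ p := by exact_mod_cast hpm.le
    calc (n : ℝ) ^ (7 / 6 : ℝ) / 2 ^ 77 = ((n : ℝ) ^ (7 / 6 : ℝ) / 2 ^ 70) / 2 ^ 7 := by
          rw [div_div]; norm_num
      _ = (x / 2) ^ 7 := by rw [← hx7, div_pow]
      _ ≤ (m : ℝ) ^ 7 := pow_le_pow_left₀ (by linarith) hm2 7
      _ ≤ p := hpmR

end Pool.Agent.Helper60.BT
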