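import Pool.Agent.Helper60.BTLow1

namespace Pool.Agent.Helper60.BT
open Finset

variable {N n p : ℕ}

/-- far partner pairs by pages. -/
theorem sum_card_D (W : WD N n p) (hN : N = n * n) (hn : 1 ≤ n) (V : Finset ℕ)
    (hV : V ⊆ range N) (M z : ℕ) (hz : 16 ≤ z)
    (hG : ∀ t ∈ V, z * (W.nbs t (2 * M)).card < n) (hcard : N ≤ 8 * V.card) :
    n ^ 3 ≤ 512 * ∑ i ∈ range p, (W.D V M i).card := by
  classical
  -- all same-letter pairs
  set P := (V ×ˢ V).filter (fun x => W.f x.1 = W.f x.2) with hP
  have hmaps : ∀ t ∈ V, W.f t ∈ range n := fun t ht =>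
    mem_range.mpr (W.f_lt t (mem_range.mp (hV ht)))
  have hPcard : P.card = ∑ c ∈ range n, (V.filter (fun t => W.f t = c)).card ^ 2 := by
    rw [card_eq_sum_card_fiberwise (f := fun x : ℕ × ℕ => W.f x.1) (t := range n)]
    · refine sum_congr rfl fun c _ => ?_
      rw [sq, ← card_product]
      congr 1
      ext ⟨a, b⟩
      simp only [hP, mem_filter, mem_product]
      constructor
      · rintro ⟨⟨⟨ha, hb⟩, hab⟩, hc⟩
        exact ⟨⟨ha, hc⟩, hb, hab ▸ hc⟩
      · rintro ⟨⟨ha, hc⟩, hb, hc'⟩
        exact ⟨⟨⟨ha, hb⟩, hc.trans hc'.symm⟩, hc⟩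
    · intro x hx
      have := (mem_filter.mp (mem_coe.mp hx)).1
      exact mem_coe.mpr (hmaps _ (mem_product.mp this).1)
  have hVcard : V.card = ∑ c ∈ range n, (V.filter (fun t => W.f t = c)).card :=
    card_eq_sum_card_fiberwise (fun t ht => mem_coe.mpr (hmaps t (mem_coe.mp ht)))
  have hCS : V.card ^ 2 ≤ n * P.card := by
    rw [hVcard, hPcard]
    have := sq_sum_le_card_mul_sum_sq (s := range n)
      (f := fun c => (V.filter (fun t => W.f t = c)).card)
    simpa using this
  -- near pairs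
  set Nr := P.filter (fun x => ¬ Far M x.2 x.1) with hNr
  have hnear : z * Nr.card ≤ V.card * n := by
    have h1 : Nr.card = ∑ t ∈ V, (Nr.filter (fun x => x.1 = t)).card := by
      apply card_eq_sum_card_fiberwise
      intro x hx
      have := (mem_filter.mp (mem_filter.mp (mem_coe.mp hx)).1).1
      exact mem_coe.mpr (mem_product.mp this).1
    have h2 : ∀ t ∈ V, (Nr.filter (fun x => x.1 = t)).card ≤ (W.nbs t (2 * M)).card := by
      intro t _
      apply card_le_card_of_injOn Prod.snd
      · intro x hx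
        obtain ⟨hx1, hx2⟩ := mem_filter.mp (mem_coe.mp hx)
        obtain ⟨hx3, hx4⟩ := mem_filter.mp hx1
        obtain ⟨hx5, hx6⟩ := mem_filter.mp hx3
        obtain ⟨_, hx7⟩ := mem_product.mp hx5
        unfold WD.nbs
        rw [mem_coe, mem_filter]
        unfold Far at hx4
        push Not at hx4
        rw [hx2] at hx4 hx6
        exact ⟨hV hx7, hx6.symm, hx4.1, by omega⟩
      · intro x hx y hy hxy
        have hx1 := (mem_filter.mp (mem_coe.mp hx)).2
        have hy1 := (mem_filter.mp (mem_coe.mp hy)).2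
        exact Prod.ext (hx1.trans hy1.symm) hxy
    rw [h1, mul_sum]
    calc ∑ t ∈ V, z * (Nr.filter (fun x => x.1 = t)).card
        ≤ ∑ t ∈ V, n := by
          refine sum_le_sum fun t ht => ?_
          exact (Nat.mul_le_mul_left z (h2 t ht)).trans (hG t ht).le
      _ = V.card * n := by simp
  -- far pairs
  set Fr := P.filter (fun x => Far M x.2 x.1) with hFr
  have hsplit : Fr.card + Nr.card = P.card := card_filter_add_card_filter_not _
  set Fl := Fr.filter (fun x => x.1 < x.2) with hFl
  set Fg := Fr.filter (fun x => ¬ x.1 < x.2) with hFg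
  have hsplit2 : Fl.card + Fg.card = Fr.card := card_filter_add_card_filter_not _
  have hswap : Fg.card ≤ Fl.card := by
    apply card_le_card_of_injOn Prod.swap
    · intro x hx
      obtain ⟨hx1, hx2⟩ := mem_filter.mp (mem_coe.mp hx)
      obtain ⟨hx3, hx4⟩ := mem_filter.mp hx1
      obtain ⟨hx5, hx6⟩ := mem_filter.mp hx3
      obtain ⟨hx7, hx8⟩ := mem_product.mp hx5
      unfold Far at hx4
      rw [mem_coe, mem_filter, mem_filter, mem_filter, mem_product]
      refine ⟨⟨⟨⟨hx8, hx7⟩, hx6.symm⟩, ?_⟩, ?_⟩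
      · unfold Far
        exact hx4.symm
      · show x.2 < x.1
        omega
    · intro x _ y _ hxy
      exact Prod.swap_injective hxy
  -- pages
  set E : ℕ → Finset (ℕ × ℕ) := fun i => Fl.filter (fun x => W.pg x.1 x.2 = i) with hE
  have hFlE : Fl.card = ∑ i ∈ range p, (E i).card := by
    apply card_eq_sum_card_fiberwise
    intro x hx
    obtain ⟨hx1, hx2⟩ := mem_filter.mp (mem_coe.mp hx)
    obtain ⟨hx3, hx4⟩ := mem_filter.mp hx1
    obtain ⟨hx5, hx6⟩ := mem_filter.mp hx3
    obtain ⟨hx7, hx8⟩ := mem_product.mp hx5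
    exact mem_coe.mpr (mem_range.mpr (W.pg_lt _ _ (mem_range.mp (hV hx7))
      (mem_range.mp (hV hx8)) hx2.ne hx6))
  have hED : ∀ i, (E i).card ≤ 2 * (W.D V M i).card := by
    intro i
    refine (noncross_card (E i) ?_ ?_).trans ?_
    · intro e he
      exact (mem_filter.mp (mem_filter.mp he).1).2
    · intro e he e' he' hcr
      obtain ⟨he1, he2⟩ := mem_filter.mp he
      obtain ⟨he1', he2'⟩ := mem_filter.mp he'
      obtain ⟨he3, _⟩ := mem_filter.mp he1
      obtain ⟨he3', _⟩ := mem_filter.mp he1'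
      obtain ⟨he4, _⟩ := mem_filter.mp he3
      obtain ⟨he4', _⟩ := mem_filter.mp he3'
      obtain ⟨_, he5⟩ := mem_filter.mp he4
      obtain ⟨he6', he5'⟩ := mem_filter.mp he4'
      exact W.nc e.1 e'.1 e.2 e'.2 hcr.1 hcr.2.1 hcr.2.2
        (mem_range.mp (hV (mem_product.mp he6').2)) he5 he5' (he2.trans he2'.symm)
    · apply Nat.mul_le_mul_left
      apply card_le_card
      have hpart : ∀ e ∈ E i, e.1 ∈ W.D V M i ∧ e.2 ∈ W.D V M i := by
        intro e he
        obtain ⟨he1, he2⟩ := mem_filter.mp he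
        obtain ⟨he3, he4⟩ := mem_filter.mp he1
        obtain ⟨he5, he6⟩ := mem_filter.mp he3
        obtain ⟨he7, he8⟩ := mem_filter.mp he5
        obtain ⟨he9, he10⟩ := mem_product.mp he7
        unfold WD.D
        rw [mem_filter, mem_filter]
        refine ⟨⟨he9, e.2, he10, ?_⟩, he10, e.1, he9, ?_⟩
        · exact ⟨he10, he8.symm, he6, he2⟩
        · refine ⟨he9, he8, ?_, ?_⟩
          · unfold Far at he6 ⊢
            exact he6.symm
          · rw [W.pg_symm]
            exact he2
      intro t ht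
      rw [mem_union, mem_image, mem_image] at ht
      rcases ht with ⟨e, he, rfl⟩ | ⟨e, he, rfl⟩
      · exact (hpart e he).1
      · exact (hpart e he).2
  have hsum : Fl.card ≤ 2 * ∑ i ∈ range p, (W.D V M i).card := by
    rw [hFlE, mul_sum]
    exact sum_le_sum fun i _ => hED i
  -- arithmetic
  set v := V.card
  have a1 : 8 * P.card ≥ v * n := by
    have : n * (8 * P.card) ≥ n * (v * n) := by
      have h1 : 8 * v ^ 2 ≥ v * (n * n) := by
        rw [← hN]; nlinarith
      nlinarith
    exact Nat.le_of_mul_le_mul_left this hn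
  have a2 : 16 * Nr.card ≤ v * n := (Nat.mul_le_mul_right _ hz).trans hnear
  have a3 : 16 * Fr.card ≥ v * n := by omega
  have a4 : 128 * Fr.card ≥ n ^ 3 := by
    have h1 : 8 * (v * n) ≥ n ^ 3 := by
      have : 8 * v * n ≥ (n * n) * n := by
        apply Nat.mul_le_mul_right
        rw [← hN]; exact hcard
      nlinarith
    omega
  omega

end Pool.Agent.Helper60.BT
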