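import Pool.Agent.Helper60.BTLow1

namespace Pool.Agent.Helper60.BT
open Finset

variable {N n p : ℕ}

/-- At most `3ℓ/S` letters have partners in one region. -/
theorem letters_le (W : WD N n p) {V : Finset ℕ} {M S ℓ i ρ : ℕ} (hℓ : 1 ≤ ℓ)
    (hcl : ∀ t ∈ V, S ≤ (W.nbs t ℓ).card) (T : Finset ℕ)
    (hT : ∀ t ∈ T, t ∈ W.D V M i ∧ W.w V M i t / ℓ = ρ) :
    S * (T.image W.f).card ≤ 3 * ℓ := by
  classical
  set Win := (range N).filter (fun s => ρ * ℓ ≤ s + ℓ ∧ s < ρ * ℓ + 2 * ℓ) with hWin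
  have hWincard : Win.card ≤ 3 * ℓ := by
    have hsub : Win ⊆ Ico (ρ * ℓ - ℓ) (ρ * ℓ + 2 * ℓ) := by
      intro s hs
      obtain ⟨_, h1, h2⟩ := mem_filter.mp hs
      rw [mem_Ico]
      omega
    refine (card_le_card hsub).trans ?_
    rw [Nat.card_Ico]
    omega
  have h1 : ∀ c ∈ T.image W.f, S ≤ (Win.filter (fun s => W.f s = c)).card := by
    intro c hc
    obtain ⟨t, ht, rfl⟩ := mem_image.mp hc
    obtain ⟨htD, htρ⟩ := hT t ht
    obtain ⟨hwV, hwf, _, _⟩ := W.w_spec htD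
    refine (hcl _ hwV).trans (card_le_card ?_)
    intro s hs
    unfold WD.nbs at hs
    obtain ⟨hsN, hsf, hs1, hs2⟩ := mem_filter.mp hs
    have e1 : ρ * ℓ ≤ W.w V M i t := by
      rw [← htρ]; exact Nat.div_mul_le_self _ _
    have e2 : W.w V M i t < ρ * ℓ + ℓ := by
      rw [← htρ]
      have := Nat.lt_mul_div_succ (W.w V M i t) (by omega : 0 < ℓ)
      calc W.w V M i t < ℓ * (W.w V M i t / ℓ + 1) := this
        _ = W.w V M i t / ℓ * ℓ + ℓ := by ring
    rw [mem_filter, mem_filter]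
    exact ⟨⟨hsN, by omega, by omega⟩, hsf.trans hwf⟩
  have h2 : ∑ c ∈ T.image W.f, (Win.filter (fun s => W.f s = c)).card ≤ Win.card := by
    have := sum_card_fiberwise_eq_card_filter Win (T.image W.f) W.f
    rw [this]
    exact card_filter_le _ _
  calc S * (T.image W.f).card = ∑ _c ∈ T.image W.f, S := by simp [mul_comm]
    _ ≤ ∑ c ∈ T.image W.f, (Win.filter (fun s => W.f s = c)).card := sum_le_sum h1
    _ ≤ Win.card := h2
    _ ≤ 3 * ℓ := hWincard

/-- fibres of good positions over a region are small. -/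
theorem card_region (W : WD N n p) (V : Finset ℕ) (M S ℓ S' i k ρ : ℕ)
    (hℓ : 1 ≤ ℓ) (hcl : ∀ t ∈ V, S ≤ (W.nbs t ℓ).card) :
    S * ((W.B V M ℓ S' i).filter (fun t => t / M = k ∧ W.w V M i t / ℓ = ρ)).card
      ≤ 3 * ℓ * S' := by
  classical
  set T := (W.B V M ℓ S' i).filter (fun t => t / M = k ∧ W.w V M i t / ℓ = ρ) with hT
  have hlet := letters_le W (M := M) (i := i) (ρ := ρ) hℓ hcl T (by
    intro t ht
    obtain ⟨h1, _, h3⟩ := mem_filter.mp ht
    exact ⟨(mem_filter.mp h1).1, h3⟩)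
  have hfib : ∀ c ∈ T.image W.f, (T.filter (fun t => W.f t = c)).card ≤ S' := by
    intro c hc
    obtain ⟨t0, ht0, rfl⟩ := mem_image.mp hc
    obtain ⟨h1, h2, h3⟩ := mem_filter.mp ht0
    obtain ⟨_, h4⟩ := mem_filter.mp h1
    refine le_trans (card_le_card ?_) h4.le
    intro t ht
    obtain ⟨h5, h6⟩ := mem_filter.mp ht
    obtain ⟨h7, h8, h9⟩ := mem_filter.mp h5
    unfold WD.fib
    rw [mem_filter]
    exact ⟨(mem_filter.mp h7).1, h8.trans h2.symm, h9.trans h3.symm, h6⟩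
  have h1 : T.card ≤ S' * (T.image W.f).card := card_le_mul_card_image T S' hfib
  calc S * T.card ≤ S * (S' * (T.image W.f).card) := Nat.mul_le_mul_left _ h1
    _ = S' * (S * (T.image W.f).card) := by ring
    _ ≤ S' * (3 * ℓ) := Nat.mul_le_mul_left _ hlet
    _ = 3 * ℓ * S' := by ring

/-- `u` is within `ℓ'` of `t`, between `t` and some member of its fibre. -/
def WD.Rel (W : WD N n p) (V : Finset ℕ) (M ℓ ℓ' i t u : ℕ) : Prop :=
  u ≤ t + ℓ' ∧ t ≤ u + ℓ' ∧ ∃ t' ∈ W.fib V M ℓ i t, (t ≤ u ∧ u ≤ t') ∨ (t' ≤ u ∧ u ≤ t)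

theorem rel_hull (W : WD N n p) {V : Finset ℕ} {M ℓ ℓ' i t u : ℕ} (ht : t ∈ W.D V M i)
    (h : W.Rel V M ℓ ℓ' i t u) :
    ∃ a b, a ∈ W.D V M i ∧ b ∈ W.D V M i ∧ a ≤ u ∧ u ≤ b ∧ a / M = u / M ∧ b / M = u / M ∧
      W.w V M i a / ℓ = W.w V M i t / ℓ ∧ W.w V M i b / ℓ = W.w V M i t / ℓ := by
  obtain ⟨_, _, t', ht', hor⟩ := h
  unfold WD.fib at ht'
  obtain ⟨h1, h2, h3, _⟩ := mem_filter.mp ht'
  rcases hor with ⟨ha, hb⟩ | ⟨ha, hb⟩
  · have e1 : t / M = u / M :=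
      le_antisymm (Nat.div_le_div_right ha) (h2 ▸ Nat.div_le_div_right hb)
    exact ⟨t, t', ht, h1, ha, hb, e1, h2.trans e1, rfl, h3⟩
  · have e1 : t / M = u / M :=
      le_antisymm (h2 ▸ Nat.div_le_div_right ha) (Nat.div_le_div_right hb)
    exact ⟨t', t, h1, ht, ha, hb, h2.trans e1, e1, h3, rfl⟩

theorem rel_region (W : WD N n p) {V : Finset ℕ} (hV : V ⊆ range N) {M ℓ ℓ' i t1 t2 u : ℕ}
    (hℓ : 1 ≤ ℓ) (hℓM : 2 * ℓ < M)
    (ht1 : t1 ∈ W.D V M i) (ht2 : t2 ∈ W.D V M i)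
    (h1 : W.Rel V M ℓ ℓ' i t1 u) (h2 : W.Rel V M ℓ ℓ' i t2 u) :
    W.w V M i t1 / ℓ = W.w V M i t2 / ℓ := by
  obtain ⟨a1, b1, ha1, hb1, hau1, hub1, ca1, cb1, ra1, rb1⟩ := rel_hull W ht1 h1
  obtain ⟨a2, b2, ha2, hb2, hau2, hub2, ca2, cb2, ra2, rb2⟩ := rel_hull W ht2 h2
  rcases le_total a1 a2 with h | h
  · have := W.conv hV hℓ hℓM ha1 ha2 hb1 h (by omega) (ca1.trans cb1.symm) (ra1.trans rb1.symm)
    rw [← ra1, ← ra2, this]
  · have := W.conv hV hℓ hℓM ha2 ha1 hb2 h (by omega) (ca2.trans cb2.symm) (ra2.trans rb2.symm)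
    rw [← ra1, ← ra2, this]

/-- one side: the positions of one letter in a window of length `ℓ'` are few. -/
theorem side_card (W : WD N n p) {V : Finset ℕ} (hV : V ⊆ range N) {ℓ' S' c lo hi : ℕ}
    (hncl : ∀ t ∈ V, (W.nbs t ℓ').card < S') (hhi : hi ≤ lo + ℓ') (T : Finset ℕ)
    (hT : ∀ t ∈ T, t ∈ V ∧ W.f t = c ∧ lo ≤ t ∧ t ≤ hi) : T.card ≤ S' := by
  rcases T.eq_empty_or_nonempty with rfl | ⟨t0, ht0⟩
  · simp
  · obtain ⟨h1, h2, h3, h4⟩ := hT t0 ht0
    refine le_trans (card_le_card ?_) (hncl t0 h1).le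
    intro t ht
    obtain ⟨g1, g2, g3, g4⟩ := hT t ht
    unfold WD.nbs
    rw [mem_filter]
    exact ⟨hV g1, g2.trans h2.symm, by omega, by omega⟩

open Classical in
/-- bad positions are rare. -/
theorem card_bad (W : WD N n p) (V : Finset ℕ) (hV : V ⊆ range N) (M S ℓ S' ℓ' i : ℕ)
    (hℓ : 1 ≤ ℓ) (hℓM : 2 * ℓ < M)
    (hcl : ∀ t ∈ V, S ≤ (W.nbs t ℓ).card) (hncl : ∀ t ∈ V, (W.nbs t ℓ').card < S') :
    S * ℓ' * (W.D V M i \ W.B V M ℓ S' i).card ≤ 6 * ℓ * S' * N := by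
  set Bad := W.D V M i \ W.B V M ℓ S' i with hBad
  have hBadD : ∀ t ∈ Bad, t ∈ W.D V M i ∧ S' ≤ (W.fib V M ℓ i t).card := by
    intro t ht
    obtain ⟨h1, h2⟩ := mem_sdiff.mp ht
    refine ⟨h1, ?_⟩
    by_contra hc
    push Not at hc
    exact h2 (mem_filter.mpr ⟨h1, hc⟩)
  -- (a) each bad position has at least `ℓ'` related points
  have hA : ∀ t ∈ Bad, ℓ' ≤ ((range N).bipartiteAbove (fun t u => W.Rel V M ℓ ℓ' i t u) t).card := by
    intro t ht
    obtain ⟨htD, hfib⟩ := hBadD t ht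
    have htV := W.D_sub htD
    have hlt := (hncl t htV).trans_le hfib
    obtain ⟨t', ht', hnot⟩ : ∃ t' ∈ W.fib V M ℓ i t, t' ∉ W.nbs t ℓ' := by
      by_contra hc
      push Not at hc
      exact absurd (card_le_card (show W.fib V M ℓ i t ⊆ W.nbs t ℓ' from fun x hx => hc x hx))
        (by omega)
    have ht'2 := ht'
    unfold WD.fib at ht'2
    obtain ⟨g1, _, _, g4⟩ := mem_filter.mp ht'2
    have ht'N : t' < N := mem_range.mp (hV (W.D_sub g1))
    have htN : t < N := mem_range.mp (hV htV)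
    have hfar : t + ℓ' < t' ∨ t' + ℓ' < t := by
      by_contra hc
      push Not at hc
      apply hnot
      unfold WD.nbs
      rw [mem_filter]
      exact ⟨mem_range.mpr ht'N, g4, by omega, by omega⟩
    rcases hfar with hfar | hfar
    · calc ℓ' = (Ioc t (t + ℓ')).card := by rw [Nat.card_Ioc]; omega
        _ ≤ _ := by
          apply card_le_card
          intro u hu
          rw [mem_Ioc] at hu
          rw [mem_bipartiteAbove]
          refine ⟨mem_range.mpr (by omega), by omega, by omega, t', ht', Or.inl ⟨by omega, by omega⟩⟩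
    · calc ℓ' = (Ico (t - ℓ') t).card := by rw [Nat.card_Ico]; omega
        _ ≤ _ := by
          apply card_le_card
          intro u hu
          rw [mem_Ico] at hu
          rw [mem_bipartiteAbove]
          refine ⟨mem_range.mpr (by omega), by omega, by omega, t', ht', Or.inr ⟨by omega, by omega⟩⟩
  -- (b) each point is related to few bad positions
  have hB : ∀ u ∈ range N,
      S * (Bad.bipartiteBelow (fun t u => W.Rel V M ℓ ℓ' i t u) u).card ≤ 6 * ℓ * S' := by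
    intro u _
    set T := Bad.bipartiteBelow (fun t u => W.Rel V M ℓ ℓ' i t u) u with hTdef
    have hTm : ∀ t ∈ T, t ∈ W.D V M i ∧ W.Rel V M ℓ ℓ' i t u := by
      intro t ht
      rw [hTdef, mem_bipartiteBelow] at ht
      exact ⟨(hBadD t ht.1).1, ht.2⟩
    rcases T.eq_empty_or_nonempty with hT0 | ⟨t0, ht0⟩
    · rw [hT0]; simp
    have hlet := letters_le W (M := M) (i := i) (ρ := W.w V M i t0 / ℓ) hℓ hcl T (by
      intro t ht
      obtain ⟨h1, h2⟩ := hTm t ht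
      obtain ⟨h3, h4⟩ := hTm t0 ht0
      exact ⟨h1, rel_region W hV hℓ hℓM h1 h3 h2 h4⟩)
    have hfib : ∀ c ∈ T.image W.f, (T.filter (fun t => W.f t = c)).card ≤ 2 * S' := by
      intro c _
      set Tc := T.filter (fun t => W.f t = c) with hTc
      have hsplit : (Tc.filter (fun t => t ≤ u)).card + (Tc.filter (fun t => ¬ t ≤ u)).card
          = Tc.card := card_filter_add_card_filter_not _
      have hl : (Tc.filter (fun t => t ≤ u)).card ≤ S' := by
        refine side_card W hV (c := c) (lo := u - ℓ') (hi := u) hncl (by omega) _ ?_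
        intro t ht
        obtain ⟨h1, h2⟩ := mem_filter.mp ht
        obtain ⟨h3, h4⟩ := mem_filter.mp h1
        obtain ⟨h5, h6, h7, _⟩ := hTm t h3
        exact ⟨W.D_sub h5, h4, by omega, h2⟩
      have hr : (Tc.filter (fun t => ¬ t ≤ u)).card ≤ S' := by
        refine side_card W hV (c := c) (lo := u) (hi := u + ℓ') hncl (by omega) _ ?_
        intro t ht
        obtain ⟨h1, h2⟩ := mem_filter.mp ht
        obtain ⟨h3, h4⟩ := mem_filter.mp h1
        obtain ⟨h5, h6, h7, _⟩ := hTm t h3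
        exact ⟨W.D_sub h5, h4, by omega, by omega⟩
      omega
    have h1 : T.card ≤ 2 * S' * (T.image W.f).card := card_le_mul_card_image T (2 * S') hfib
    calc S * T.card ≤ S * (2 * S' * (T.image W.f).card) := Nat.mul_le_mul_left _ h1
      _ = 2 * S' * (S * (T.image W.f).card) := by ring
      _ ≤ 2 * S' * (3 * ℓ) := Nat.mul_le_mul_left _ hlet
      _ = 6 * ℓ * S' := by ring
  have hdc := sum_card_bipartiteAbove_eq_sum_card_bipartiteBelow
    (s := Bad) (t := range N) (fun t u => W.Rel V M ℓ ℓ' i t u)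
  calc S * ℓ' * Bad.card = S * ∑ _t ∈ Bad, ℓ' := by simp; ring
    _ ≤ S * ∑ t ∈ Bad, ((range N).bipartiteAbove (fun t u => W.Rel V M ℓ ℓ' i t u) t).card :=
        Nat.mul_le_mul_left _ (sum_le_sum hA)
    _ = ∑ u ∈ range N, S * (Bad.bipartiteBelow (fun t u => W.Rel V M ℓ ℓ' i t u) u).card := by
        rw [hdc, mul_sum]
    _ ≤ ∑ _u ∈ range N, 6 * ℓ * S' := sum_le_sum hB
    _ = 6 * ℓ * S' * N := by simp; ring

end Pool.Agent.Helper60.BT
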