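import Pool.Agent.Helper60.BTLowQ
import Pool.Agent.Helper60.BTLowR

namespace Pool.Agent.Helper60.BT
open Finset

variable {N n p : ℕ}

/-- The statement of the twist lemma. -/
def TwistStmt (W : WD N n p) : Prop :=
  ∀ (D : Finset ℕ) (w w' : ℕ → ℕ) (S ℓ F : ℕ), 1 ≤ ℓ →
    (∀ t ∈ D, w t < N ∧ W.f (w t) = W.f t ∧ S ≤ (W.nbs (w t) ℓ).card) →
    (∀ t ∈ D, w' t < N ∧ W.f (w' t) = W.f t ∧ S ≤ (W.nbs (w' t) ℓ).card) →
    (∀ t ∈ D, ∀ t' ∈ D, t < t' → w t' ≤ w t) →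
    (∀ t ∈ D, ∀ t' ∈ D, t < t' → w' t' ≤ w' t) →
    ((∀ t ∈ D, ∀ t' ∈ D, w t + 2 * ℓ < w' t') ∨ (∀ t ∈ D, ∀ t' ∈ D, w' t + 2 * ℓ < w t')) →
    (∀ ρ, S * (D.filter (fun t => w t / ℓ = ρ)).card ≤ F) →
    (∀ ρ, S * (D.filter (fun t => w' t / ℓ = ρ)).card ≤ F) →
    S * S * D.card ≤ 10 * F * p

theorem div_add_two {M a b : ℕ} (hM : 0 < M) (h : a + 2 * M < b) : a / M + 2 ≤ b / M := by
  have h1 : (a + 2 * M) / M = a / M + 2 := by
    rw [Nat.add_mul_div_right _ _ hM]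
  rw [← h1]
  exact Nat.div_le_div_right h.le

theorem WD.B_sub (W : WD N n p) {V : Finset ℕ} {M ℓ S' i t : ℕ} (ht : t ∈ W.B V M ℓ S' i) :
    t ∈ W.D V M i := by
  unfold WD.B at ht
  exact (mem_filter.mp ht).1

/-- The antitonicity in the form needed. -/
theorem WD.anti' (W : WD N n p) {V : Finset ℕ} (hV : V ⊆ range N) {M i t1 t2 : ℕ} (hM : 0 < M)
    (h1 : t1 ∈ W.D V M i) (h2 : t2 ∈ W.D V M i) (hlt : t1 < t2) (hc : t1 / M = t2 / M)
    (hw : W.w V M i t1 / M = W.w V M i t2 / M) : W.w V M i t2 ≤ W.w V M i t1 := by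
  obtain ⟨a, b⟩ := W.anti hV hM h1 h2 hlt hc
  obtain ⟨_, _, far1, _⟩ := W.w_spec h1
  obtain ⟨_, _, far2, _⟩ := W.w_spec h2
  unfold Far at far1 far2
  rcases far1 with far1 | far1
  · exact (a (by omega)).2
  · have h3 := div_add_two hM far1
    rcases far2 with far2 | far2
    · have h4 := div_add_two hM far2
      omega
    · exact (b (by omega)).2

/-- One pair of pages and one triple of cells. -/
theorem fibre_bound (W : WD N n p) (htw : TwistStmt W) (V : Finset ℕ) (hV : V ⊆ range N)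
    (M S ℓ S' i i' k0 k1 k2 : ℕ) (hℓ : 1 ≤ ℓ) (hℓM : 2 * ℓ < M)
    (hcl : ∀ t ∈ V, S ≤ (W.nbs t ℓ).card) :
    S * S * ((range N).filter (fun t => t ∈ W.B V M ℓ S' i ∧ t ∈ W.B V M ℓ S' i' ∧ t / M = k0 ∧
      W.w V M i t / M = k1 ∧ W.w V M i' t / M = k2 ∧ Far M (W.w V M i' t) (W.w V M i t))).card
      ≤ 10 * (3 * ℓ * S') * p := by
  have hM : 0 < M := by omega
  apply htw _ (W.w V M i) (W.w V M i') S ℓ (3 * ℓ * S') hℓ
  · intro t ht
    obtain ⟨_, h1, _⟩ := mem_filter.mp ht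
    obtain ⟨g1, g2, _, _⟩ := W.w_spec (W.B_sub h1)
    exact ⟨mem_range.mp (hV g1), g2, hcl _ g1⟩
  · intro t ht
    obtain ⟨_, _, h1, _⟩ := mem_filter.mp ht
    obtain ⟨g1, g2, _, _⟩ := W.w_spec (W.B_sub h1)
    exact ⟨mem_range.mp (hV g1), g2, hcl _ g1⟩
  · intro t ht t' ht' hlt
    obtain ⟨_, h1, _, h3, h4, _⟩ := mem_filter.mp ht
    obtain ⟨_, h1', _, h3', h4', _⟩ := mem_filter.mp ht'
    exact W.anti' hV hM (W.B_sub h1) (W.B_sub h1') hlt (h3.trans h3'.symm) (h4.trans h4'.symm)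
  · intro t ht t' ht' hlt
    obtain ⟨_, _, h1, h3, _, h4, _⟩ := mem_filter.mp ht
    obtain ⟨_, _, h1', h3', _, h4', _⟩ := mem_filter.mp ht'
    exact W.anti' hV hM (W.B_sub h1) (W.B_sub h1') hlt (h3.trans h3'.symm) (h4.trans h4'.symm)
  · -- separation
    have key : ∀ t ∈ (range N).filter (fun t => t ∈ W.B V M ℓ S' i ∧ t ∈ W.B V M ℓ S' i' ∧
        t / M = k0 ∧ W.w V M i t / M = k1 ∧ W.w V M i' t / M = k2 ∧
        Far M (W.w V M i' t) (W.w V M i t)), W.w V M i t / M = k1 ∧ W.w V M i' t / M = k2 := by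
      intro t ht
      obtain ⟨_, _, _, _, h4, h5, _⟩ := mem_filter.mp ht
      exact ⟨h4, h5⟩
    have sep : ∀ a b : ℕ, ∀ k k' : ℕ, a / M = k → b / M = k' → k + 2 ≤ k' → a + 2 * ℓ < b := by
      intro a b k k' ha hb hkk
      have e1 : a < M * (a / M + 1) := Nat.lt_mul_div_succ a hM
      have e2 : M * (b / M) ≤ b := Nat.mul_div_le b M
      rw [ha] at e1
      rw [hb] at e2
      have e3 : M * (k + 2) ≤ M * k' := Nat.mul_le_mul_left M hkk
      have e4 : M * (k + 2) = M * (k + 1) + M := by ring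
      omega
    by_cases hne : ((range N).filter (fun t => t ∈ W.B V M ℓ S' i ∧ t ∈ W.B V M ℓ S' i' ∧
        t / M = k0 ∧ W.w V M i t / M = k1 ∧ W.w V M i' t / M = k2 ∧
        Far M (W.w V M i' t) (W.w V M i t))).Nonempty
    · obtain ⟨t0, ht0⟩ := hne
      obtain ⟨_, _, _, _, h4, h5, h6⟩ := mem_filter.mp ht0
      unfold Far at h6
      rcases h6 with h6 | h6
      · left
        have h7 := div_add_two hM h6
        intro t ht t' ht'
        exact sep _ _ k1 k2 (key t ht).1 (key t' ht').2 (by omega)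
      · right
        have h7 := div_add_two hM h6
        intro t ht t' ht'
        exact sep _ _ k2 k1 (key t ht).2 (key t' ht').1 (by omega)
    · left
      intro t ht
      exact absurd ⟨t, ht⟩ hne
  · intro ρ
    refine le_trans (Nat.mul_le_mul_left _ (card_le_card ?_))
      (card_region W V M S ℓ S' i k0 ρ hℓ hcl)
    intro t ht
    obtain ⟨h1, h2⟩ := mem_filter.mp ht
    obtain ⟨_, h3, _, h4, _⟩ := mem_filter.mp h1
    exact mem_filter.mpr ⟨h3, h4, h2⟩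
  · intro ρ
    refine le_trans (Nat.mul_le_mul_left _ (card_le_card ?_))
      (card_region W V M S ℓ S' i' k0 ρ hℓ hcl)
    intro t ht
    obtain ⟨h1, h2⟩ := mem_filter.mp ht
    obtain ⟨_, _, h3, h4, _⟩ := mem_filter.mp h1
    exact mem_filter.mpr ⟨h3, h4, h2⟩

end Pool.Agent.Helper60.BT
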