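import Pool.Agent.Helper60.BTLowS

namespace Pool.Agent.Helper60.BT
open Finset

variable {N n p : ℕ}

/-- The number of pages on which `t` is good is at most `n`. -/
theorem card_pages_le (W : WD N n p) (V : Finset ℕ) (hV : V ⊆ range N) (M ℓ S' t : ℕ) :
    ((range p).filter (fun i => t ∈ W.B V M ℓ S' i)).card ≤ n := by
  refine le_trans ?_ (W.mult (W.f t))
  apply card_le_card_of_injOn (fun i => W.w V M i t)
  · intro i hi
    obtain ⟨_, h⟩ := mem_filter.mp (mem_coe.mp hi)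
    obtain ⟨g1, g2, _, _⟩ := W.w_spec (W.B_sub h)
    exact mem_coe.mpr (mem_filter.mpr ⟨hV g1, g2⟩)
  · intro i hi j hj hij
    obtain ⟨_, h⟩ := mem_filter.mp (mem_coe.mp hi)
    obtain ⟨_, h'⟩ := mem_filter.mp (mem_coe.mp hj)
    obtain ⟨_, _, _, g4⟩ := W.w_spec (W.B_sub h)
    obtain ⟨_, _, _, g4'⟩ := W.w_spec (W.B_sub h')
    have hij' : W.w V M i t = W.w V M j t := hij
    rw [← g4, ← g4', hij']

/-- The number of pages with a partner near a given page's partner. -/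
theorem card_near_pages_le (W : WD N n p) (V : Finset ℕ) (hV : V ⊆ range N) (M ℓ S' i t : ℕ)
    (ht : t ∈ W.B V M ℓ S' i) :
    ((range p).filter (fun i' => t ∈ W.B V M ℓ S' i' ∧
      ¬ Far M (W.w V M i' t) (W.w V M i t))).card ≤ (W.nbs (W.w V M i t) (2 * M)).card := by
  obtain ⟨_, k2, _, _⟩ := W.w_spec (W.B_sub ht)
  apply card_le_card_of_injOn (fun i => W.w V M i t)
  · intro j hj
    obtain ⟨_, h, hnear⟩ := mem_filter.mp (mem_coe.mp hj)
    obtain ⟨g1, g2, _, _⟩ := W.w_spec (W.B_sub h)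
    unfold WD.nbs
    rw [mem_coe, mem_filter]
    unfold Far at hnear
    push Not at hnear
    have hn2 := hnear.2
    exact ⟨hV g1, g2.trans k2.symm, hnear.1, show W.w V M i t ≤ W.w V M j t + 2 * M by omega⟩
  · intro j hj j' hj' hij
    obtain ⟨_, h, _⟩ := mem_filter.mp (mem_coe.mp hj)
    obtain ⟨_, h', _⟩ := mem_filter.mp (mem_coe.mp hj')
    obtain ⟨_, _, _, g4⟩ := W.w_spec (W.B_sub h)
    obtain ⟨_, _, _, g4'⟩ := W.w_spec (W.B_sub h')
    have hij' : W.w V M j t = W.w V M j' t := hij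
    rw [← g4, ← g4', hij']

theorem sum_card_B (W : WD N n p) (hN : N = n * n) (hn : 1 ≤ n) (V : Finset ℕ)
    (hV : V ⊆ range N) (M S ℓ S' ℓ' : ℕ) (hℓ : 1 ≤ ℓ) (hS : 1 ≤ S) (hℓ' : 1 ≤ ℓ')
    (hℓM : 2 * ℓ < M)
    (hG : ∀ t ∈ V, 2 ^ 21 * (W.nbs t (2 * M)).card < n)
    (hcl : ∀ t ∈ V, S ≤ (W.nbs t ℓ).card) (hncl : ∀ t ∈ V, (W.nbs t ℓ').card < S')
    (hcard : N ≤ 8 * V.card) (H1 : 6144 * p * ℓ * S' ≤ n * S * ℓ') :
    n ^ 3 ≤ 1024 * ∑ i ∈ range p, (W.B V M ℓ S' i).card := by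
  classical
  have h1 := sum_card_D W hN hn V hV M (2 ^ 21) (by norm_num) hG hcard
  have h2 : S * ℓ' * ∑ i ∈ range p, (W.D V M i \ W.B V M ℓ S' i).card ≤ p * (6 * ℓ * S' * N) := by
    rw [mul_sum]
    calc ∑ i ∈ range p, S * ℓ' * (W.D V M i \ W.B V M ℓ S' i).card
        ≤ ∑ _i ∈ range p, 6 * ℓ * S' * N :=
          sum_le_sum fun i _ => card_bad W V hV M S ℓ S' ℓ' i hℓ hℓM hcl hncl
      _ = p * (6 * ℓ * S' * N) := by simp
  have h3 : ∑ i ∈ range p, (W.D V M i).card = ∑ i ∈ range p, (W.B V M ℓ S' i).card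
      + ∑ i ∈ range p, (W.D V M i \ W.B V M ℓ S' i).card := by
    rw [← sum_add_distrib]
    refine sum_congr rfl fun i _ => ?_
    have hsub : W.B V M ℓ S' i ⊆ W.D V M i := fun t ht => W.B_sub ht
    have := card_sdiff_add_card_eq_card hsub
    omega
  set bad := ∑ i ∈ range p, (W.D V M i \ W.B V M ℓ S' i).card
  have h4 : 1024 * bad ≤ n ^ 3 := by
    have h5 : (S * ℓ') * (1024 * bad) ≤ (S * ℓ') * n ^ 3 := by
      calc (S * ℓ') * (1024 * bad) = 1024 * (S * ℓ' * bad) := by ring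
        _ ≤ 1024 * (p * (6 * ℓ * S' * N)) := Nat.mul_le_mul_left _ h2
        _ = (6144 * p * ℓ * S') * (n * n) := by rw [hN]; ring
        _ ≤ (n * S * ℓ') * (n * n) := Nat.mul_le_mul_right _ H1
        _ = (S * ℓ') * n ^ 3 := by ring
    exact Nat.le_of_mul_le_mul_left h5 (Nat.mul_pos hS hℓ')
  omega

/-- all cells for one pair of pages. -/
theorem pair_bound (W : WD N n p) (htw : TwistStmt W) (V : Finset ℕ) (hV : V ⊆ range N)
    (M K S ℓ S' i i' : ℕ) (hNK : N ≤ K * M) (hℓ : 1 ≤ ℓ) (hℓM : 2 * ℓ < M)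
    (hcl : ∀ t ∈ V, S ≤ (W.nbs t ℓ).card) :
    S * S * ((range N).filter (fun t => t ∈ W.B V M ℓ S' i ∧ t ∈ W.B V M ℓ S' i' ∧
      Far M (W.w V M i' t) (W.w V M i t))).card ≤ K ^ 3 * (10 * (3 * ℓ * S') * p) := by
  classical
  have hM : 0 < M := by omega
  set F := (range N).filter (fun t => t ∈ W.B V M ℓ S' i ∧ t ∈ W.B V M ℓ S' i' ∧
      Far M (W.w V M i' t) (W.w V M i t)) with hF
  have hcell : ∀ a, a < N → a / M ∈ range K := by
    intro a ha
    rw [mem_range]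
    exact Nat.div_lt_of_lt_mul (by rw [mul_comm]; omega)
  have hmaps : Set.MapsTo (fun t => (t / M, W.w V M i t / M, W.w V M i' t / M)) (F : Set ℕ)
      ((range K ×ˢ range K ×ˢ range K : Finset (ℕ × ℕ × ℕ)) : Set (ℕ × ℕ × ℕ)) := by
    intro t ht
    obtain ⟨h1, h2, h3, _⟩ := mem_filter.mp (mem_coe.mp ht)
    obtain ⟨g1, _, _, _⟩ := W.w_spec (W.B_sub h2)
    obtain ⟨g1', _, _, _⟩ := W.w_spec (W.B_sub h3)
    rw [mem_coe, mem_product, mem_product]
    exact ⟨hcell _ (mem_range.mp h1), hcell _ (mem_range.mp (hV g1)),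
      hcell _ (mem_range.mp (hV g1'))⟩
  rw [card_eq_sum_card_fiberwise hmaps, mul_sum]
  calc ∑ b ∈ range K ×ˢ range K ×ˢ range K, S * S *
        (F.filter (fun t => (t / M, W.w V M i t / M, W.w V M i' t / M) = b)).card
      ≤ ∑ _b ∈ range K ×ˢ range K ×ˢ range K, 10 * (3 * ℓ * S') * p := by
        refine sum_le_sum fun b _ => ?_
        refine le_trans (Nat.mul_le_mul_left _ (card_le_card ?_))
          (fibre_bound W htw V hV M S ℓ S' i i' b.1 b.2.1 b.2.2 hℓ hℓM hcl)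
        intro t ht
        obtain ⟨h1, h2⟩ := mem_filter.mp ht
        obtain ⟨h3, h4, h5, h6⟩ := mem_filter.mp h1
        rw [mem_filter]
        have e1 : t / M = b.1 := congrArg Prod.fst h2
        have e2 : W.w V M i t / M = b.2.1 := congrArg (fun x => x.2.1) h2
        have e3 : W.w V M i' t / M = b.2.2 := congrArg (fun x => x.2.2) h2
        exact ⟨h3, h4, h5, e1, e2, e3, h6⟩
    _ = K ^ 3 * (10 * (3 * ℓ * S') * p) := by
        rw [sum_const, card_product, card_product, card_range, smul_eq_mul]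
        ring

/-- THE STAGE LEMMA. -/
theorem stage (W : WD N n p) (htw : TwistStmt W) (hN : N = n * n) (hn : 1 ≤ n) (V : Finset ℕ)
    (hV : V ⊆ range N) (M K S ℓ S' ℓ' : ℕ) (hNK : N ≤ K * M) (hℓ : 1 ≤ ℓ) (hS : 1 ≤ S)
    (hℓ' : 1 ≤ ℓ') (hℓM : 2 * ℓ < M)
    (hG : ∀ t ∈ V, 2 ^ 21 * (W.nbs t (2 * M)).card < n)
    (hcl : ∀ t ∈ V, S ≤ (W.nbs t ℓ).card) (hncl : ∀ t ∈ V, (W.nbs t ℓ').card < S')
    (hcard : N ≤ 8 * V.card) (H1 : 6144 * p * ℓ * S' ≤ n * S * ℓ')
    (H2 : 30 * 2 ^ 21 * K ^ 3 * ℓ * S' * p ^ 3 < n ^ 4 * S ^ 2) : False := by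
  classical
  have hM : 0 < M := by omega
  have hB := sum_card_B W hN hn V hV M S ℓ S' ℓ' hℓ hS hℓ' hℓM hG hcl hncl hcard H1
  -- number of pages at `t`
  set Nt : ℕ → ℕ := fun t => ((range p).filter (fun i => t ∈ W.B V M ℓ S' i)).card with hNt
  have hBV : ∀ i, W.B V M ℓ S' i ⊆ range N := fun i t ht => hV (W.D_sub (W.B_sub ht))
  have hdc : ∑ i ∈ range p, (W.B V M ℓ S' i).card = ∑ t ∈ range N, Nt t := by
    have h := sum_card_bipartiteAbove_eq_sum_card_bipartiteBelow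
      (s := range N) (t := range p) (fun t i => t ∈ W.B V M ℓ S' i)
    have e1 : ∀ t ∈ range N, ((range p).bipartiteAbove (fun t i => t ∈ W.B V M ℓ S' i) t).card
        = Nt t := fun t _ => rfl
    have e2 : ∀ i ∈ range p, ((range N).bipartiteBelow (fun t i => t ∈ W.B V M ℓ S' i) i).card
        = (W.B V M ℓ S' i).card := by
      intro i _
      congr 1
      ext t
      rw [mem_bipartiteBelow]
      exact ⟨fun h => h.2, fun h => ⟨hBV i h, h⟩⟩
    rw [sum_congr rfl e1, sum_congr rfl e2] at h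
    exact h.symm
  -- Cauchy and Schwarz
  have hCS : (∑ t ∈ range N, Nt t) ^ 2 ≤ N * ∑ t ∈ range N, Nt t ^ 2 := by
    have := sq_sum_le_card_mul_sum_sq (s := range N) (f := Nt)
    simpa using this
  have hsq : n ^ 4 ≤ 2 ^ 20 * ∑ t ∈ range N, Nt t ^ 2 := by
    have h1 : n ^ 3 ≤ 1024 * ∑ t ∈ range N, Nt t := by rw [← hdc]; exact hB
    have h2 : (n ^ 3) ^ 2 ≤ (1024 * ∑ t ∈ range N, Nt t) ^ 2 := Nat.pow_le_pow_left h1 2
    have h3 : n ^ 2 * n ^ 4 ≤ n ^ 2 * (2 ^ 20 * ∑ t ∈ range N, Nt t ^ 2) := by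
      calc n ^ 2 * n ^ 4 = (n ^ 3) ^ 2 := by ring
        _ ≤ (1024 * ∑ t ∈ range N, Nt t) ^ 2 := h2
        _ = 2 ^ 20 * (∑ t ∈ range N, Nt t) ^ 2 := by ring
        _ ≤ 2 ^ 20 * (N * ∑ t ∈ range N, Nt t ^ 2) := Nat.mul_le_mul_left _ hCS
        _ = n ^ 2 * (2 ^ 20 * ∑ t ∈ range N, Nt t ^ 2) := by rw [hN]; ring
    exact Nat.le_of_mul_le_mul_left h3 (by positivity)
  -- near pairs of pages
  have hNtle : ∀ t, Nt t ≤ n := fun t => card_pages_le W V hV M ℓ S' t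
  set near : ℕ → ℕ → ℕ := fun t i => ((range p).filter (fun i' => t ∈ W.B V M ℓ S' i' ∧
      ¬ Far M (W.w V M i' t) (W.w V M i t))).card with hnear
  set far : ℕ → ℕ → ℕ := fun t i => ((range p).filter (fun i' => t ∈ W.B V M ℓ S' i' ∧
      Far M (W.w V M i' t) (W.w V M i t))).card with hfar
  have hnf : ∀ t i, Nt t = far t i + near t i := by
    intro t i
    have := card_filter_add_card_filter_not (s := (range p).filter (fun i' => t ∈ W.B V M ℓ S' i'))
      (fun i' => Far M (W.w V M i' t) (W.w V M i t))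
    rw [filter_filter, filter_filter] at this
    exact this.symm
  have hsqe : ∀ t, Nt t ^ 2 = ∑ i ∈ (range p).filter (fun i => t ∈ W.B V M ℓ S' i), far t i
      + ∑ i ∈ (range p).filter (fun i => t ∈ W.B V M ℓ S' i), near t i := by
    intro t
    rw [← sum_add_distrib, ← sum_congr rfl (fun i _ => hnf t i), sum_const, smul_eq_mul, sq]
  have hnearsum : 2 ^ 21 * ∑ t ∈ range N,
      ∑ i ∈ (range p).filter (fun i => t ∈ W.B V M ℓ S' i), near t i ≤ n ^ 4 := by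
    rw [mul_sum]
    calc ∑ t ∈ range N, 2 ^ 21 * ∑ i ∈ (range p).filter (fun i => t ∈ W.B V M ℓ S' i), near t i
        ≤ ∑ _t ∈ range N, n * n := by
          refine sum_le_sum fun t _ => ?_
          rw [mul_sum]
          calc ∑ i ∈ (range p).filter (fun i => t ∈ W.B V M ℓ S' i), 2 ^ 21 * near t i
              ≤ ∑ _i ∈ (range p).filter (fun i => t ∈ W.B V M ℓ S' i), n := by
                refine sum_le_sum fun i hi => ?_
                obtain ⟨_, hi⟩ := mem_filter.mp hi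
                have h1 := card_near_pages_le W V hV M ℓ S' i t hi
                have h2 := hG _ (W.w_spec (W.B_sub hi)).1
                exact (Nat.mul_le_mul_left _ h1).trans h2.le
            _ = Nt t * n := by rw [sum_const, smul_eq_mul]
            _ ≤ n * n := Nat.mul_le_mul_right _ (hNtle t)
      _ = n ^ 4 := by
        rw [sum_const, card_range, smul_eq_mul, hN]; ring
  have hfarsum : n ^ 4 ≤ 2 ^ 21 * ∑ t ∈ range N,
      ∑ i ∈ (range p).filter (fun i => t ∈ W.B V M ℓ S' i), far t i := by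
    have h1 : ∑ t ∈ range N, Nt t ^ 2 = ∑ t ∈ range N,
        ∑ i ∈ (range p).filter (fun i => t ∈ W.B V M ℓ S' i), far t i + ∑ t ∈ range N,
        ∑ i ∈ (range p).filter (fun i => t ∈ W.B V M ℓ S' i), near t i := by
      rw [← sum_add_distrib]
      exact sum_congr rfl fun t _ => hsqe t
    rw [h1] at hsq
    omega
  -- rearrange
  have hswap : ∑ t ∈ range N, ∑ i ∈ (range p).filter (fun i => t ∈ W.B V M ℓ S' i), far t i
      = ∑ i ∈ range p, ∑ i' ∈ range p, ((range N).filter (fun t => t ∈ W.B V M ℓ S' i ∧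
        t ∈ W.B V M ℓ S' i' ∧ Far M (W.w V M i' t) (W.w V M i t))).card := by
    simp only [hfar, card_filter, sum_filter]
    rw [sum_comm]
    refine sum_congr rfl fun i _ => ?_
    rw [sum_comm]
    refine sum_congr rfl fun t _ => ?_
    by_cases h : t ∈ W.B V M ℓ S' i
    · simp [h]
    · simp [h]
  rw [hswap] at hfarsum
  have hfin : S * S * ∑ i ∈ range p, ∑ i' ∈ range p, ((range N).filter
      (fun t => t ∈ W.B V M ℓ S' i ∧ t ∈ W.B V M ℓ S' i' ∧
        Far M (W.w V M i' t) (W.w V M i t))).card ≤ p * (p * (K ^ 3 * (10 * (3 * ℓ * S') * p))) := by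
    rw [mul_sum]
    calc ∑ i ∈ range p, S * S * ∑ i' ∈ range p, ((range N).filter
            (fun t => t ∈ W.B V M ℓ S' i ∧ t ∈ W.B V M ℓ S' i' ∧
              Far M (W.w V M i' t) (W.w V M i t))).card
        ≤ ∑ _i ∈ range p, p * (K ^ 3 * (10 * (3 * ℓ * S') * p)) := by
          refine sum_le_sum fun i _ => ?_
          rw [mul_sum]
          calc ∑ i' ∈ range p, S * S * ((range N).filter
                (fun t => t ∈ W.B V M ℓ S' i ∧ t ∈ W.B V M ℓ S' i' ∧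
                  Far M (W.w V M i' t) (W.w V M i t))).card
              ≤ ∑ _i' ∈ range p, K ^ 3 * (10 * (3 * ℓ * S') * p) :=
                sum_le_sum fun i' _ => pair_bound W htw V hV M K S ℓ S' i i' hNK hℓ hℓM hcl
            _ = p * (K ^ 3 * (10 * (3 * ℓ * S') * p)) := by simp
      _ = p * (p * (K ^ 3 * (10 * (3 * ℓ * S') * p))) := by simp
  have hcontra : n ^ 4 * S ^ 2 ≤ 30 * 2 ^ 21 * K ^ 3 * ℓ * S' * p ^ 3 := by
    calc n ^ 4 * S ^ 2 ≤ (2 ^ 21 * ∑ i ∈ range p, ∑ i' ∈ range p, ((range N).filter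
          (fun t => t ∈ W.B V M ℓ S' i ∧ t ∈ W.B V M ℓ S' i' ∧
            Far M (W.w V M i' t) (W.w V M i t))).card) * S ^ 2 := Nat.mul_le_mul_right _ hfarsum
      _ = 2 ^ 21 * (S * S * ∑ i ∈ range p, ∑ i' ∈ range p, ((range N).filter
          (fun t => t ∈ W.B V M ℓ S' i ∧ t ∈ W.B V M ℓ S' i' ∧
            Far M (W.w V M i' t) (W.w V M i t))).card) := by ring
      _ ≤ 2 ^ 21 * (p * (p * (K ^ 3 * (10 * (3 * ℓ * S') * p)))) := Nat.mul_le_mul_left _ hfin
      _ = 30 * 2 ^ 21 * K ^ 3 * ℓ * S' * p ^ 3 := by ring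
  exact absurd H2 (not_lt.mpr hcontra)

end Pool.Agent.Helper60.BT
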