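import Pool.Agent.Helper60.BTBasic

namespace Pool.Agent.Helper60.BT

namespace Up

/-- Vertices: `(row, column)`, row `(v0, v1, v2)`, column `(a, x, y)`. -/
abbrev Vx (q : ℕ) : Type := (ZMod q × ZMod q × ZMod q) × (ZMod q × ZMod q × ZMod q)

def fK {q : ℕ} (r : ZMod q × ZMod q × ZMod q) (a : ZMod q) : ZMod q :=
  r.1 + r.2.1 * a + r.2.2 * (a * a)

def fD {q : ℕ} (r : ZMod q × ZMod q × ZMod q) (a : ZMod q) : ZMod q :=
  r.2.1 + 2 * r.2.2 * a

def A {q : ℕ} (t : Vx q) : ℕ := t.2.1.val
def K {q : ℕ} (t : Vx q) : ℕ := (fK t.1 t.2.1).val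
def D {q : ℕ} (t : Vx q) : ℕ := (fD t.1 t.2.1).val
def E {q : ℕ} (t : Vx q) : ℕ := t.1.2.2.val
def Z {q : ℕ} (t : Vx q) : ℕ := (t.2.2.1 + fK t.1 t.2.1 * t.2.2.2).val
def Y {q : ℕ} (t : Vx q) : ℕ := t.2.2.2.val

def P2 {q : ℕ} (t : Vx q) : ℕ := A t * q + K t
def P3 {q : ℕ} (t : Vx q) : ℕ := P2 t * q + D t
def P4 {q : ℕ} (t : Vx q) : ℕ := P3 t * q + E t
def P5 {q : ℕ} (t : Vx q) : ℕ := P4 t * q + Z t
def P6 {q : ℕ} (t : Vx q) : ℕ := P5 t * q + Y t

section
variable {q : ℕ} [Fact q.Prime]

theorem A_lt (t : Vx q) : A t < q := ZMod.val_lt _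
theorem K_lt (t : Vx q) : K t < q := ZMod.val_lt _
theorem D_lt (t : Vx q) : D t < q := ZMod.val_lt _
theorem E_lt (t : Vx q) : E t < q := ZMod.val_lt _
theorem Z_lt (t : Vx q) : Z t < q := ZMod.val_lt _
theorem Y_lt (t : Vx q) : Y t < q := ZMod.val_lt _

end

theorem lex_le {x r x' r' q : ℕ} (hr' : r' < q) (h : x * q + r ≤ x' * q + r') :
    x ≤ x' ∧ (x = x' → r ≤ r') := by
  constructor
  · by_contra hc
    push Not at hc
    have : (x' + 1) * q ≤ x * q := Nat.mul_le_mul_right q hc
    nlinarith
  · intro hx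
    subst hx
    omega

section
variable {q : ℕ} [Fact q.Prime]

/-- Same row and column class: the whole vertex is determined. -/
theorem eq_of_digits {t u : Vx q} (hA : A t = A u) (hK : K t = K u) (hD : D t = D u)
    (hE : E t = E u) (hZ : Z t = Z u) (hY : Y t = Y u) : t = u := by
  obtain ⟨⟨v0, v1, v2⟩, ⟨a, x, y⟩⟩ := t
  obtain ⟨⟨v0', v1', v2'⟩, ⟨a', x', y'⟩⟩ := u
  have hA' : a = a' := ZMod.val_injective q hA
  have hK' : fK (v0, v1, v2) a = fK (v0', v1', v2') a' := ZMod.val_injective q hK
  have hD' : fD (v0, v1, v2) a = fD (v0', v1', v2') a' := ZMod.val_injective q hD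
  have hE' : v2 = v2' := ZMod.val_injective q hE
  have hZ' : x + fK (v0, v1, v2) a * y = x' + fK (v0', v1', v2') a' * y' :=
    ZMod.val_injective q hZ
  have hY' : y = y' := ZMod.val_injective q hY
  subst hA' hE' hY'
  rw [hK'] at hZ'
  have hx : x = x' := by linear_combination hZ'
  subst hx
  simp only [fK, fD] at hK' hD'
  have h1 : v1 = v1' := by linear_combination hD'
  subst h1
  have h0 : v0 = v0' := by linear_combination hK'
  subst h0
  rfl

theorem P6_injective : Function.Injective (P6 : Vx q → ℕ) := by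
  intro t u h
  have h5 := lex_le (Y_lt u) (le_of_eq h : P5 t * q + Y t ≤ P5 u * q + Y u)
  have h5' := lex_le (Y_lt t) (le_of_eq h.symm : P5 u * q + Y u ≤ P5 t * q + Y t)
  have e5 : P5 t = P5 u := le_antisymm h5.1 h5'.1
  have eY : Y t = Y u := le_antisymm (h5.2 e5) (h5'.2 e5.symm)
  have h4 := lex_le (Z_lt u) (le_of_eq e5 : P4 t * q + Z t ≤ P4 u * q + Z u)
  have h4' := lex_le (Z_lt t) (le_of_eq e5.symm : P4 u * q + Z u ≤ P4 t * q + Z t)
  have e4 : P4 t = P4 u := le_antisymm h4.1 h4'.1
  have eZ : Z t = Z u := le_antisymm (h4.2 e4) (h4'.2 e4.symm)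
  have h3 := lex_le (E_lt u) (le_of_eq e4 : P3 t * q + E t ≤ P3 u * q + E u)
  have h3' := lex_le (E_lt t) (le_of_eq e4.symm : P3 u * q + E u ≤ P3 t * q + E t)
  have e3 : P3 t = P3 u := le_antisymm h3.1 h3'.1
  have eE : E t = E u := le_antisymm (h3.2 e3) (h3'.2 e3.symm)
  have h2 := lex_le (D_lt u) (le_of_eq e3 : P2 t * q + D t ≤ P2 u * q + D u)
  have h2' := lex_le (D_lt t) (le_of_eq e3.symm : P2 u * q + D u ≤ P2 t * q + D t)
  have e2 : P2 t = P2 u := le_antisymm h2.1 h2'.1
  have eD : D t = D u := le_antisymm (h2.2 e2) (h2'.2 e2.symm)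
  have h1 := lex_le (K_lt u) (le_of_eq e2 : A t * q + K t ≤ A u * q + K u)
  have h1' := lex_le (K_lt t) (le_of_eq e2.symm : A u * q + K u ≤ A t * q + K t)
  have e1 : A t = A u := le_antisymm h1.1 h1'.1
  have eK : K t = K u := le_antisymm (h1.2 e1) (h1'.2 e1.symm)
  exact eq_of_digits e1 eK eD eE eZ eY

/-- The order consequences of `P6 t ≤ P6 u`. -/
theorem order_facts {t u : Vx q} (h : P6 t ≤ P6 u) :
    A t ≤ A u ∧ (A t = A u → K t ≤ K u) ∧ (A t = A u → K t = K u → D t ≤ D u) ∧
      (A t = A u → K t = K u → D t = D u → E t ≤ E u) ∧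
      (A t = A u → K t = K u → D t = D u → E t = E u → Z t ≤ Z u) ∧
      (A t = A u → K t = K u → D t = D u → E t = E u → Z t = Z u → Y t ≤ Y u) := by
  have h5 := lex_le (Y_lt u) (h : P5 t * q + Y t ≤ P5 u * q + Y u)
  have h4 := lex_le (Z_lt u) (h5.1 : P4 t * q + Z t ≤ P4 u * q + Z u)
  have h3 := lex_le (E_lt u) (h4.1 : P3 t * q + E t ≤ P3 u * q + E u)
  have h2 := lex_le (D_lt u) (h3.1 : P2 t * q + D t ≤ P2 u * q + D u)
  have h1 := lex_le (K_lt u) (h2.1 : A t * q + K t ≤ A u * q + K u)
  refine ⟨h1.1, h1.2, ?_, ?_, ?_, ?_⟩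
  · intro hA hK
    exact h2.2 (by unfold P2; rw [hA, hK])
  · intro hA hK hD
    exact h3.2 (by unfold P3 P2; rw [hA, hK, hD])
  · intro hA hK hD hE
    exact h4.2 (by unfold P4 P3 P2; rw [hA, hK, hD, hE])
  · intro hA hK hD hE hZ
    exact h5.2 (by unfold P5 P4 P3 P2; rw [hA, hK, hD, hE, hZ])

open Classical in
/-- The page of the edge from `t` to `u`, `t` before `u` on the spine. -/
noncomputable def pg (t u : Vx q) : ℕ × ℕ × ℕ × ℕ × ℕ :=
  if t.1 = u.1 then
    if A t = A u then (0, Z t, Y t, 0, 0)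
    else (1, A t + A u, K t + K u, (if D t + D u < q then 0 else 1), Z t * q + Y t)
  else
    if K t = K u then (2, (D t * q + E t) + (D u * q + E u), Z t, Y t, 0)
    else (3, ((K t * q + D t) * q + E t) + ((K u * q + D u) * q + E u), Z t + Z u, 0, 0)

/-- same row, same `a`: same block. -/
theorem same_block {t u : Vx q} (hr : t.1 = u.1) (hA : A t = A u) :
    K t = K u ∧ D t = D u ∧ E t = E u := by
  have ha : t.2.1 = u.2.1 := ZMod.val_injective q hA
  refine ⟨?_, ?_, ?_⟩
  · unfold K; rw [hr, ha]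
  · unfold D; rw [hr, ha]
  · unfold E; rw [hr]

theorem mul_split {x y x' y' q : ℕ} (hy : y < q) (hy' : y' < q) (h : x * q + y = x' * q + y') :
    x = x' ∧ y = y' := by
  have h1 := lex_le hy' (le_of_eq h)
  have h2 := lex_le hy (le_of_eq h.symm)
  have : x = x' := le_antisymm h1.1 h2.1
  exact ⟨this, le_antisymm (h1.2 this) (h2.2 this.symm)⟩

/-- The arithmetic heart: two rows whose quadratics agree at `a ≠ b`. -/
theorem two_rows {r r' : ZMod q × ZMod q × ZMod q} {a b : ZMod q} (hab : a ≠ b)
    (ha : fK r a = fK r' a) (hb : fK r b = fK r' b) (hrr : r ≠ r') :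
    fD r a ≠ fD r' a ∧ fD r b ≠ fD r' b ∧ fD r a + fD r b = fD r' a + fD r' b := by
  obtain ⟨v0, v1, v2⟩ := r
  obtain ⟨w0, w1, w2⟩ := r'
  simp only [fK, fD] at *
  have hab' : a - b ≠ 0 := sub_ne_zero.mpr hab
  -- difference of the linear parts
  have hlin : (v1 - w1) + (v2 - w2) * (a + b) = 0 := by
    have : (a - b) * ((v1 - w1) + (v2 - w2) * (a + b)) = 0 := by
      linear_combination ha - hb
    rcases mul_eq_zero.mp this with h | h
    · exact absurd h hab'
    · exact h
  have key : v2 ≠ w2 := by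
    intro h
    subst h
    have h1 : v1 = w1 := by linear_combination hlin
    subst h1
    have h0 : v0 = w0 := by linear_combination ha
    exact hrr (by rw [h0])
  have key' : v2 - w2 ≠ 0 := sub_ne_zero.mpr key
  refine ⟨?_, ?_, ?_⟩
  · intro h
    have : (v2 - w2) * (a - b) = 0 := by linear_combination h - hlin
    rcases mul_eq_zero.mp this with h' | h'
    · exact key' h'
    · exact hab' h'
  · intro h
    have : (v2 - w2) * (a - b) = 0 := by linear_combination hlin - h
    rcases mul_eq_zero.mp this with h' | h'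
    · exact key' h'
    · exact hab' h'
  · linear_combination 2 * hlin

theorem monoDE {v w : Vx q} (hvw : P6 v ≤ P6 w) (hA : A v = A w) (hK : K v = K w) :
    D v * q + E v ≤ D w * q + E w := by
  obtain ⟨_, pK, pD, pE, _⟩ := order_facts hvw
  rcases (pD hA hK).lt_or_eq with hlt | heq
  · have h1 : (D v + 1) * q ≤ D w * q := Nat.mul_le_mul_right q hlt
    have h2 := E_lt v
    rw [Nat.add_mul] at h1
    omega
  · have := pE hA hK heq
    rw [heq]
    omega

theorem monoI {v w : Vx q} (hvw : P6 v ≤ P6 w) (hA : A v = A w) :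
    (K v * q + D v) * q + E v ≤ (K w * q + D w) * q + E w := by
  obtain ⟨_, pK, pD, pE, _⟩ := order_facts hvw
  have f1 : K v * q + D v ≤ K w * q + D w := by
    rcases (pK hA).lt_or_eq with hlt | heq
    · have h1 : (K v + 1) * q ≤ K w * q := Nat.mul_le_mul_right q hlt
      have h2 := D_lt v
      rw [Nat.add_mul] at h1
      omega
    · have := pD hA heq
      rw [heq]
      omega
  rcases f1.lt_or_eq with hlt | heq
  · have h1 : (K v * q + D v + 1) * q ≤ (K w * q + D w) * q := Nat.mul_le_mul_right q hlt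
    have h2 := E_lt v
    rw [Nat.add_mul (K v * q + D v) 1] at h1
    omega
  · obtain ⟨gK, gD⟩ := mul_split (D_lt v) (D_lt w) heq
    have := pE hA gK gD
    rw [heq]
    omega

theorem core {t u t' u' : Vx q}
    (hadj : t.1 = u.1 ∨ t.2 = u.2) (hadj' : t'.1 = u'.1 ∨ t'.2 = u'.2)
    (h1 : P6 t < P6 t') (h2 : P6 t' < P6 u) (h3 : P6 u < P6 u')
    (hpg : pg t u = pg t' u') : False := by
  have htt : t ≠ t' := fun h => by rw [h] at h1; exact lt_irrefl _ h1
  obtain ⟨oA, oK, oD, oE, oZ, oY⟩ := order_facts h1.le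
  obtain ⟨oA2, oK2, oD2, oE2, oZ2, oY2⟩ := order_facts h2.le
  obtain ⟨oA3, oK3, oD3, oE3, oZ3, oY3⟩ := order_facts h3.le
  have otu := (order_facts (h1.trans h2).le)
  have otu' := (order_facts (h2.trans h3).le)
  unfold pg at hpg
  by_cases hr : t.1 = u.1
  · by_cases hr' : t'.1 = u'.1
    · rw [if_pos hr, if_pos hr'] at hpg
      by_cases hA : A t = A u
      · by_cases hA' : A t' = A u'
        · rw [if_pos hA, if_pos hA'] at hpg
          simp only [Prod.mk.injEq] at hpg
          obtain ⟨_, hZ, hY, _⟩ := hpg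
          obtain ⟨bK, bD, bE⟩ := same_block hr hA
          have eA : A t = A t' := by omega
          have eK : K t = K t' := by
            have := oK eA
            have := oK2 (by omega)
            omega
          have eD : D t = D t' := by
            have := oD eA eK
            have := oD2 (by omega) (by omega)
            omega
          have eE : E t = E t' := by
            have := oE eA eK eD
            have := oE2 (by omega) (by omega) (by omega)
            omega
          exact htt (eq_of_digits eA eK eD eE hZ hY)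
        · rw [if_pos hA, if_neg hA'] at hpg
          simp at hpg
      · by_cases hA' : A t' = A u'
        · rw [if_neg hA, if_pos hA'] at hpg
          simp at hpg
        · rw [if_neg hA, if_neg hA'] at hpg
          simp only [Prod.mk.injEq] at hpg
          obtain ⟨_, hAs, hKs, hDs, hZY⟩ := hpg
          obtain ⟨hZ, hY⟩ := mul_split (Y_lt t) (Y_lt t') hZY
          have eA : A t = A t' := by omega
          have eA2 : A u = A u' := by omega
          have eK : K t = K t' := by
            have := oK eA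
            have := oK3 eA2
            omega
          have eK2 : K u = K u' := by omega
          have ha : t.2.1 = t'.2.1 := ZMod.val_injective q eA
          have hb : u.2.1 = u'.2.1 := ZMod.val_injective q eA2
          by_cases hrr : t.1 = t'.1
          · obtain ⟨_, bD, bE⟩ := same_block hrr eA
            exact htt (eq_of_digits eA eK bD bE hZ hY)
          · have hKa : fK t.1 t.2.1 = fK t'.1 t.2.1 := by
              have := ZMod.val_injective q eK
              rw [this, ha]
            have hKb : fK t.1 u.2.1 = fK t'.1 u.2.1 := by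
              have := ZMod.val_injective q eK2
              rw [hr, this, hb, hr']
            have hab : t.2.1 ≠ u.2.1 := by
              intro h
              apply hA
              unfold A
              rw [h]
            obtain ⟨d1, d2, d3⟩ := two_rows hab hKa hKb hrr
            have e1 : D t = (fD t.1 t.2.1).val := rfl
            have e2 : D t' = (fD t'.1 t.2.1).val := by rw [ha]; rfl
            have e3 : D u = (fD t.1 u.2.1).val := by rw [hr]; rfl
            have e4 : D u' = (fD t'.1 u.2.1).val := by rw [hb, hr']; rfl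
            have n1 : D t ≠ D t' := by
              rw [e1, e2]
              exact fun h => d1 (ZMod.val_injective q h)
            have n2 : D u ≠ D u' := by
              rw [e3, e4]
              exact fun h => d2 (ZMod.val_injective q h)
            have l1 : D t < D t' := lt_of_le_of_ne (oD eA eK) n1
            have l2 : D u < D u' := lt_of_le_of_ne (oD3 eA2 eK2) n2
            have hmod : (D t + D u) % q = (D t' + D u') % q := by
              rw [e1, e2, e3, e4, ← ZMod.val_add, ← ZMod.val_add, d3]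
            have b1 := D_lt t
            have b2 := D_lt t'
            have b3 := D_lt u
            have b4 := D_lt u'
            by_cases c1 : D t + D u < q
            · by_cases c2 : D t' + D u' < q
              · rw [Nat.mod_eq_of_lt c1, Nat.mod_eq_of_lt c2] at hmod
                omega
              · rw [if_pos c1, if_neg c2] at hDs
                omega
            · by_cases c2 : D t' + D u' < q
              · rw [if_neg c1, if_pos c2] at hDs
                omega
              · rw [Nat.mod_eq_sub_mod (by omega), Nat.mod_eq_of_lt (by omega),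
                  Nat.mod_eq_sub_mod (by omega), Nat.mod_eq_of_lt (by omega)] at hmod
                omega
    · rw [if_pos hr, if_neg hr'] at hpg
      split_ifs at hpg <;> simp at hpg
  · by_cases hr' : t'.1 = u'.1
    · rw [if_neg hr, if_pos hr'] at hpg
      split_ifs at hpg <;> simp at hpg
    · rw [if_neg hr, if_neg hr'] at hpg
      have hc : t.2 = u.2 := hadj.resolve_left hr
      have hc' : t'.2 = u'.2 := hadj'.resolve_left hr'
      have cA : A t = A u := by unfold A; rw [hc]
      have cA' : A t' = A u' := by unfold A; rw [hc']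
      have eA : A t = A t' := by omega
      by_cases hK : K t = K u
      · by_cases hK' : K t' = K u'
        · rw [if_pos hK, if_pos hK'] at hpg
          simp only [Prod.mk.injEq] at hpg
          obtain ⟨_, hI, hZ, hY, _⟩ := hpg
          have eK : K t = K t' := by
            have := oK eA
            have := oK2 (by omega)
            omega
          have b1 := E_lt t
          have b2 := E_lt t'
          have b3 := E_lt u
          have b4 := E_lt u'
          -- D and E
          have g1 : D t * q + E t ≤ D t' * q + E t' := monoDE h1.le eA eK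
          have g2 : D u * q + E u ≤ D u' * q + E u' := monoDE h3.le (by omega) (by omega)
          obtain ⟨eD, eE⟩ := mul_split b1 b2
            (show D t * q + E t = D t' * q + E t' by omega)
          exact htt (eq_of_digits eA eK eD eE hZ hY)
        · rw [if_pos hK, if_neg hK'] at hpg
          simp at hpg
      · by_cases hK' : K t' = K u'
        · rw [if_neg hK, if_pos hK'] at hpg
          simp at hpg
        · rw [if_neg hK, if_neg hK'] at hpg
          simp only [Prod.mk.injEq] at hpg
          obtain ⟨_, hI, hZs, _⟩ := hpg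
          have b1 := E_lt t
          have b2 := E_lt t'
          have b3 := E_lt u
          have b4 := E_lt u'
          have d1 := D_lt t
          have d2 := D_lt t'
          have d3 := D_lt u
          have d4 := D_lt u'
          have g1 := monoI h1.le eA
          have g2 := monoI h3.le (by omega)
          obtain ⟨f1, eE⟩ := mul_split b1 b2
            (show (K t * q + D t) * q + E t = (K t' * q + D t') * q + E t' by omega)
          obtain ⟨eK, eD⟩ := mul_split d1 d2 f1
          obtain ⟨f2, eE2⟩ := mul_split b3 b4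
            (show (K u * q + D u) * q + E u = (K u' * q + D u') * q + E u' by omega)
          obtain ⟨eK2, eD2⟩ := mul_split d3 d4 f2
          have z1 := oZ eA eK eD eE
          have z2 := oZ3 (by omega) eK2 eD2 eE2
          have eZ : Z t = Z t' := by omega
          have eZ2 : Z u = Z u' := by omega
          have kZ : t.2.2.1 + fK t.1 t.2.1 * t.2.2.2 = t'.2.2.1 + fK t'.1 t'.2.1 * t'.2.2.2 :=
            ZMod.val_injective q eZ
          have kZ2 : u.2.2.1 + fK u.1 u.2.1 * u.2.2.2 = u'.2.2.1 + fK u'.1 u'.2.1 * u'.2.2.2 :=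
            ZMod.val_injective q eZ2
          have kK : fK t.1 t.2.1 = fK t'.1 t'.2.1 := ZMod.val_injective q eK
          have kK2 : fK u.1 u.2.1 = fK u'.1 u'.2.1 := ZMod.val_injective q eK2
          rw [← kK] at kZ
          rw [← kK2, ← hc, ← hc'] at kZ2
          rw [← hc] at kK2
          have hKne : fK t.1 t.2.1 ≠ fK u.1 t.2.1 := by
            intro h
            apply hK
            unfold K
            rw [h, hc]
          have hprod : (fK t.1 t.2.1 - fK u.1 t.2.1) * (t.2.2.2 - t'.2.2.2) = 0 := by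
            linear_combination kZ - kZ2
          rcases mul_eq_zero.mp hprod with h | h
          · exact hKne (sub_eq_zero.mp h)
          · have hy : t.2.2.2 = t'.2.2.2 := sub_eq_zero.mp h
            have eY : Y t = Y t' := by unfold Y; rw [hy]
            exact htt (eq_of_digits eA eK eD eE eZ eY)

/-- The set of pages. -/
def pages (q : ℕ) : Finset (ℕ × ℕ × ℕ × ℕ × ℕ) :=
  ((({0} : Finset ℕ) ×ˢ Finset.range q ×ˢ Finset.range q ×ˢ {0} ×ˢ {0}) ∪
    (({1} : Finset ℕ) ×ˢ Finset.range (2 * q) ×ˢ Finset.range (2 * q) ×ˢ Finset.range 2 ×ˢ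
      Finset.range (q * q))) ∪
  ((({2} : Finset ℕ) ×ˢ Finset.range (2 * (q * q)) ×ˢ Finset.range q ×ˢ Finset.range q ×ˢ {0}) ∪
    (({3} : Finset ℕ) ×ˢ Finset.range (2 * (q * q * q)) ×ˢ Finset.range (2 * q) ×ˢ {0} ×ˢ {0}))

theorem card_pages (hq : 1 ≤ q) : (pages q).card ≤ 15 * q ^ 4 := by
  unfold pages
  refine (Finset.card_union_le _ _).trans ?_
  refine (add_le_add (Finset.card_union_le _ _) (Finset.card_union_le _ _)).trans ?_
  simp only [Finset.card_product, Finset.card_singleton, Finset.card_range]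
  have h2 : q * q ≤ q ^ 4 := by
    calc q * q = q ^ 2 := by ring
      _ ≤ q ^ 4 := Nat.pow_le_pow_right hq (by norm_num)
  nlinarith

theorem dlt {x y q : ℕ} (hx : x < q) (hy : y < q) : x * q + y < q * q := by
  have : (x + 1) * q ≤ q * q := Nat.mul_le_mul_right q hx
  nlinarith

theorem dlt3 {x y z q : ℕ} (hx : x < q) (hy : y < q) (hz : z < q) :
    (x * q + y) * q + z < q * q * q := by
  have h1 := dlt hx hy
  have : (x * q + y + 1) * q ≤ q * q * q := Nat.mul_le_mul_right q h1
  nlinarith

theorem pg_mem (t u : Vx q) : pg t u ∈ pages q := by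
  have a1 := A_lt t
  have a2 := A_lt u
  have k1 := K_lt t
  have k2 := K_lt u
  have z1 := Z_lt t
  have z2 := Z_lt u
  have y1 := Y_lt t
  have e1 := dlt (D_lt t) (E_lt t)
  have e2 := dlt (D_lt u) (E_lt u)
  have f1 := dlt3 (K_lt t) (D_lt t) (E_lt t)
  have f2 := dlt3 (K_lt u) (D_lt u) (E_lt u)
  have g1 := dlt (Z_lt t) (Y_lt t)
  unfold pg pages
  simp only [Finset.mem_union, Finset.mem_product, Finset.mem_singleton, Finset.mem_range]
  split_ifs <;> simp <;> omega

theorem hasBookEmbedding_Vx (q : ℕ) [Fact q.Prime] (G : SimpleGraph (Vx q))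
    (hG : ∀ t u, G.Adj t u → t.1 = u.1 ∨ t.2 = u.2) : HasBookEmbedding G (15 * q ^ 4) := by
  have hq : 1 ≤ q := (Fact.out : q.Prime).one_lt.le
  refine hasBookEmbedding_of_directed P6 P6_injective pg (pages q) (fun a b _ _ => pg_mem a b)
    (card_pages hq) ?_
  intro a b c d hab hcd h1 h2 h3 hp
  exact core (hG a b hab) (hG c d hcd) h1 h2 h3 hp

end

end Up

/-- For a prime `q` and `n ≤ q³`, `bt (K_n □ K_n) ≤ 15 q⁴`. -/
theorem rook_upper_prime {n q : ℕ} (hq : q.Prime) (hn : n ≤ q ^ 3) :
    HasBookEmbedding (rook n) (15 * q ^ 4) := by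
  have : Fact q.Prime := ⟨hq⟩
  have hcard : Fintype.card (Fin n) ≤ Fintype.card (ZMod q × ZMod q × ZMod q) := by
    simp only [Fintype.card_fin, Fintype.card_prod, ZMod.card]
    calc n ≤ q ^ 3 := hn
      _ = q * (q * q) := by ring
  obtain ⟨φ⟩ := Function.Embedding.nonempty_of_card_le hcard
  let G : SimpleGraph (Up.Vx q) :=
    { Adj := fun t u => t ≠ u ∧ (t.1 = u.1 ∨ t.2 = u.2)
      symm := ⟨fun t u h => ⟨h.1.symm, h.2.imp Eq.symm Eq.symm⟩⟩
      loopless := ⟨fun t h => h.1 rfl⟩ }
  have hG : HasBookEmbedding G (15 * q ^ 4) :=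
    Up.hasBookEmbedding_Vx q G (fun t u h => h.2)
  refine hG.comap (fun x => (φ x.1, φ x.2)) ?_ ?_
  · rintro ⟨a, b⟩ ⟨c, d⟩ h
    simp only [Prod.mk.injEq] at h
    rw [φ.injective h.1, φ.injective h.2]
  · rintro ⟨a, b⟩ ⟨c, d⟩ h
    rw [rook_adj] at h
    refine ⟨?_, ?_⟩
    · intro h3
      simp only [Prod.mk.injEq] at h3
      exact h.1 (by rw [φ.injective h3.1, φ.injective h3.2])
    · rcases h.2 with h2 | h2
      · left; simp only at h2 ⊢; rw [h2]
      · right; simp only at h2 ⊢; rw [h2]

/-- The upper bound `bt (K_n □ K_n) ≤ 3840 n^{4/3}`. -/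
theorem rook_upper (n : ℕ) (hn : 1 ≤ n) :
    ∃ p : ℕ, (p : ℝ) ≤ 3840 * (n : ℝ) ^ (4 / 3 : ℝ) ∧ HasBookEmbedding (rook n) p := by
  set m : ℕ := ⌈(n : ℝ) ^ (1 / 3 : ℝ)⌉₊ with hm
  have hnR : (1 : ℝ) ≤ n := by exact_mod_cast hn
  have hx1 : (1 : ℝ) ≤ (n : ℝ) ^ (1 / 3 : ℝ) := Real.one_le_rpow hnR (by norm_num)
  have hm_ge : (n : ℝ) ^ (1 / 3 : ℝ) ≤ m := Nat.le_ceil _
  have hm_lt : (m : ℝ) < (n : ℝ) ^ (1 / 3 : ℝ) + 1 := Nat.ceil_lt_add_one (by linarith)
  have hm0 : m ≠ 0 := by
    intro h
    rw [h] at hm_ge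
    simp at hm_ge
    linarith
  obtain ⟨q, hq, hmq, hq2⟩ := Nat.exists_prime_lt_and_le_two_mul m hm0
  have hn3 : n ≤ q ^ 3 := by
    have h1 : (n : ℝ) = ((n : ℝ) ^ (1 / 3 : ℝ)) ^ 3 := by
      rw [← Real.rpow_natCast, ← Real.rpow_mul (by linarith)]
      norm_num
    have h2 : (n : ℝ) ≤ (m : ℝ) ^ 3 := by
      rw [h1]
      exact pow_le_pow_left₀ (by linarith) hm_ge 3
    have h3 : n ≤ m ^ 3 := by exact_mod_cast h2
    exact h3.trans (Nat.pow_le_pow_left hmq.le 3)
  refine ⟨15 * q ^ 4, ?_, rook_upper_prime hq hn3⟩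
  have hqR : (q : ℝ) ≤ 4 * (n : ℝ) ^ (1 / 3 : ℝ) := by
    have : (q : ℝ) ≤ 2 * m := by exact_mod_cast hq2
    linarith
  have h4 : (n : ℝ) ^ (4 / 3 : ℝ) = ((n : ℝ) ^ (1 / 3 : ℝ)) ^ 4 := by
    rw [← Real.rpow_natCast, ← Real.rpow_mul (by linarith)]
    norm_num
  rw [h4]
  push_cast
  calc 15 * (q : ℝ) ^ 4 ≤ 15 * (4 * (n : ℝ) ^ (1 / 3 : ℝ)) ^ 4 := by
        have := pow_le_pow_left₀ (by positivity) hqR 4
        linarith
    _ = 3840 * ((n : ℝ) ^ (1 / 3 : ℝ)) ^ 4 := by ring

end Pool.Agent.Helper60.BT
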