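import Mathlib

/-!
# Real-rootedness of the descent polynomials of even and of odd permutations

Write `m = ⌊n/2⌋`, `q = ⌈n/2⌉`. Counting words of length `n` over an alphabet of size `K` by the
permutation that sorts them (stably) gives
`X * A_n^s(X) = (1 - X)^(n+1) * ∑_K (K^n + s K^q)/2 X^K`.
Next, `2^m (k^m + s) = ∑_j C(m,j) (1 + s (-1)^j) (k+1)^(m-j) (k-1)^j`, so that `2^(m+1) X A_n^s(X)` is a
nonnegative combination of the polynomials `W_j`, the numerators of
`∑_k k^q (k+1)^(m-j) (k-1)^j X^k`.  In the upper half plane all ratios `W_(j+1)/W_j` lie in the upper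
half plane, and the chain from `W_0` can be continued up to `X * W_0`; following the arguments along a circular
arc starting at the positive real axis, one sees that all `W_j/W_0` with `j ≥ 1` lie in the upper half plane.
Hence no nonnegative combination vanishes there.
-/

set_option autoImplicit false

namespace Pool.Agent.Helper60.DescReal

section Words
open Finset



/-- sign of a pair of letters: `-1` for an inversion. -/
def sg (a b : ℕ) : ℤ := if b < a then -1 else 1

/-- inversion sign of a word -/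
def wsign {n K : ℕ} (f : Fin n → Fin K) : ℤ :=
  ∏ i : Fin n, ∏ j : Fin n, if i < j then sg (f i) (f j) else 1

theorem sort_sign {n K : ℕ} (f : Fin n → Fin K) :
    ((Equiv.Perm.sign (Tuple.sort f) : ℤˣ) : ℤ) = wsign f := by
  rw [← Equiv.Perm.sign_inv, Equiv.Perm.sign_eq_prod_prod_Ioi]
  push_cast
  unfold wsign
  refine Finset.prod_congr rfl fun i _ => ?_
  rw [Finset.prod_ite]
  simp only [Finset.prod_const_one, mul_one]
  refine Finset.prod_congr (by ext; simp) fun j hj => ?_
  have hij : i < j := by simpa using hj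
  obtain ⟨hm, ht⟩ := (Tuple.eq_sort_iff (f := f) (σ := Tuple.sort f)).1 rfl
  set σ := Tuple.sort f
  have key : (σ⁻¹ i < σ⁻¹ j) ↔ ¬ (f j < f i) := by
    constructor
    · intro h
      have := hm h.le
      simpa using this
    · intro h
      push Not at h
      by_contra hc
      push Not at hc
      have hne : σ⁻¹ j ≠ σ⁻¹ i := by
        intro h'
        exact hij.ne' (σ⁻¹.injective h')
      have hlt := lt_of_le_of_ne hc hne
      have ei : σ (σ⁻¹ i) = i := by simp
      have ej : σ (σ⁻¹ j) = j := by simp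
      have h1 := hm hlt.le
      simp only [Function.comp] at h1
      rw [ei, ej] at h1
      have h2 := ht _ _ hlt (by rw [ei, ej]; exact le_antisymm h1 h)
      rw [ei, ej] at h2
      exact absurd hij (not_lt.2 h2.le)
  unfold sg
  by_cases h : f j < f i
  · have : ¬ (σ⁻¹ i < σ⁻¹ j) := by rw [key]; simpa using h
    rw [if_neg this]
    have h' : (f j : ℕ) < (f i : ℕ) := h
    rw [if_pos h']; simp
  · have : (σ⁻¹ i < σ⁻¹ j) := key.2 h
    rw [if_pos this]
    have h' : ¬ ((f j : ℕ) < (f i : ℕ)) := h
    rw [if_neg h']; simp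

theorem wsign_cons {n K : ℕ} (a : Fin K) (g : Fin n → Fin K) :
    wsign (Fin.cons a g : Fin (n+1) → Fin K) = (∏ j, sg a (g j)) * wsign g := by
  unfold wsign
  rw [Fin.prod_univ_succ]
  congr 1
  · rw [Fin.prod_univ_succ]
    simp
  · refine Finset.prod_congr rfl fun i _ => ?_
    rw [Fin.prod_univ_succ]
    simp

theorem sum_cons {n K : ℕ} (F : (Fin (n+1) → Fin K) → ℤ) :
    ∑ f : Fin (n+1) → Fin K, F f = ∑ a : Fin K, ∑ g : Fin n → Fin K, F (Fin.cons a g) := by
  rw [← (Fin.consEquiv (fun _ : Fin (n+1) => Fin K)).sum_comp, Fintype.sum_prod_type]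
  rfl

theorem sum_pair {K : ℕ} (P : Fin K → ℤ) (hP : ∀ a, P a * P a = 1) :
    ∑ a : Fin K, ∑ b : Fin K, sg a b * P a * P b = K := by
  have h1 : ∑ a : Fin K, ∑ b : Fin K, sg a b * P a * P b
      = ∑ a : Fin K, ∑ b : Fin K, sg b a * P a * P b := by
    rw [Finset.sum_comm]
    refine Finset.sum_congr rfl fun a _ => Finset.sum_congr rfl fun b _ => by ring
  have h2 : (∑ a : Fin K, ∑ b : Fin K, sg a b * P a * P b)
      + (∑ a : Fin K, ∑ b : Fin K, sg b a * P a * P b) = 2 * K := by
    rw [← Finset.sum_add_distrib]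
    have : ∀ a : Fin K, (∑ b : Fin K, sg a b * P a * P b + ∑ b : Fin K, sg b a * P a * P b) = 2 := by
      intro a
      rw [← Finset.sum_add_distrib, Finset.sum_eq_single a]
      · simp only [sg, lt_irrefl, if_false]
        have := hP a
        linarith
      · intro b _ hb
        have hb' : (b : ℕ) ≠ (a : ℕ) := fun h => hb (Fin.ext h)
        unfold sg
        rcases lt_or_gt_of_ne hb' with h | h
        · rw [if_pos h, if_neg (by omega)]; ring
        · rw [if_neg (by omega), if_pos h]; ring
      · simp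
    simp only [this]
    simp [mul_comm]
  linarith

theorem sum_wsign_add_two (n K : ℕ) :
    ∑ f : Fin (n+2) → Fin K, wsign f = K * ∑ f : Fin n → Fin K, wsign f := by
  rw [sum_cons]
  simp_rw [sum_cons, wsign_cons, Fin.prod_univ_succ, Fin.cons_zero, Fin.cons_succ]
  have : ∀ a b : Fin K, ∑ g : Fin n → Fin K,
      sg a b * (∏ i : Fin n, sg a (g i)) * ((∏ j : Fin n, sg b (g j)) * wsign g)
      = ∑ g : Fin n → Fin K, (sg a b * (∏ i : Fin n, sg a (g i)) * (∏ j : Fin n, sg b (g j))) * wsign g := by
    intro a b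
    refine Finset.sum_congr rfl fun g _ => by ring
  simp_rw [this]
  have e : ∀ a : Fin K, ∑ b : Fin K, ∑ g : Fin n → Fin K,
     (sg a b * (∏ i : Fin n, sg a (g i)) * (∏ j : Fin n, sg b (g j))) * wsign g
     = ∑ g : Fin n → Fin K, ∑ b : Fin K, (sg a b * (∏ i : Fin n, sg a (g i)) * (∏ j : Fin n, sg b (g j))) * wsign g := by
    intro a; rw [Finset.sum_comm]
  simp_rw [e]
  rw [Finset.sum_comm, Finset.mul_sum]
  refine Finset.sum_congr rfl fun g _ => ?_
  simp_rw [← Finset.sum_mul]
  rw [sum_pair (fun a => ∏ i : Fin n, sg a (g i))]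
  intro a
  rw [← Finset.prod_mul_distrib]
  apply Finset.prod_eq_one
  intro i _
  unfold sg
  split_ifs <;> norm_num

theorem sum_wsign (n K : ℕ) :
    ∑ f : Fin n → Fin K, wsign f = (K : ℤ) ^ ((n + 1) / 2) := by
  induction n using Nat.twoStepInduction with
  | zero => simp [wsign]
  | one => simp [wsign]
  | more n ih _ =>
    rw [sum_wsign_add_two, ih]
    have : (n + 2 + 1) / 2 = (n+1)/2 + 1 := by omega
    rw [this, pow_succ]; ring



/-- weakly increasing sequences below `K`, strict at the marked positions -/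
def GG (δ : ℕ → Prop) (n K : ℕ) : Set (Fin n → ℕ) :=
  {g | (∀ i, g i < K) ∧ Monotone g ∧ ∀ i j : Fin n, j.val = i.val + 1 → δ i.val → g i < g j}

open Classical in
noncomputable def GF (δ : ℕ → Prop) (n K : ℕ) : Finset (Fin n → ℕ) :=
  (Fintype.piFinset (fun _ => range K)).filter (fun g => g ∈ GG δ n K)

theorem mem_GF (δ : ℕ → Prop) (n K : ℕ) (g : Fin n → ℕ) : g ∈ GF δ n K ↔ g ∈ GG δ n K := by
  classical
  unfold GF
  simp only [mem_filter, Fintype.mem_piFinset, mem_range, and_iff_right_iff_imp]
  intro h; exact h.1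

open Classical in
/-- number of unmarked positions among the first `n` -/
noncomputable def nd (δ : ℕ → Prop) (n : ℕ) : ℕ := ((range n).filter (fun i => ¬ δ i)).card

theorem nd_le (δ : ℕ → Prop) (n : ℕ) : nd δ n ≤ n := by
  classical
  unfold nd
  exact (card_filter_le _ _).trans (by simp)

open Classical in
theorem nd_succ (δ : ℕ → Prop) (n : ℕ) : nd δ (n+1) = nd δ n + (if δ n then 0 else 1) := by
  unfold nd
  rw [range_add_one, filter_insert]
  split_ifs with h
  · simp
  · rw [card_insert_of_notMem (by simp)]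

theorem sum_choose (a m : ℕ) (h : a ≤ m) (K : ℕ) :
    ∑ b ∈ range K, (b + a).choose m = (K + a).choose (m + 1) := by
  induction K with
  | zero => simp [Nat.choose_eq_zero_of_lt (Nat.lt_succ_of_le h)]
  | succ K ih =>
    rw [sum_range_succ, ih]
    have : K + 1 + a = (K + a) + 1 := by ring
    rw [this, Nat.choose_succ_succ]; ring

open Classical in
theorem card_fiber (δ : ℕ → Prop) (n K b : ℕ) (hb : b < K) :
    ((GF δ (n+2) K).filter (fun g => g (Fin.last _) = b)).card
      = (GF δ (n+1) (b + if δ n then 0 else 1)).card := by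
  refine card_nbij' (fun g => Fin.init g) (fun g => Fin.snoc g b) ?_ ?_ ?_ ?_
  · intro g hg
    simp only [coe_filter, mem_GF, Set.mem_ofPred_eq] at hg
    obtain ⟨⟨h1, h2, h3⟩, h4⟩ := hg
    simp only [mem_coe, mem_GF]
    refine ⟨?_, ?_, ?_⟩
    · intro i
      have hle : g (Fin.castSucc i) ≤ g (Fin.castSucc (Fin.last n)) := h2 (by
        rw [Fin.castSucc_le_castSucc_iff]; exact Fin.le_last i)
      have hle2 : g (Fin.castSucc (Fin.last n)) ≤ g (Fin.last (n+1)) := h2 (Fin.le_last _)
      show g (Fin.castSucc i) < _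
      split_ifs with hd
      · have := h3 (Fin.castSucc (Fin.last n)) (Fin.last (n+1)) (by simp) (by simpa using hd)
        omega
      · omega
    · intro i j hij
      exact h2 (by rwa [Fin.castSucc_le_castSucc_iff])
    · intro i j hij hd
      exact h3 (Fin.castSucc i) (Fin.castSucc j) (by simpa using hij) (by simpa using hd)
  · intro g hg
    simp only [mem_coe, mem_GF] at hg
    obtain ⟨h1, h2, h3⟩ := hg
    simp only [coe_filter, mem_GF, Set.mem_ofPred_eq]
    have hlt : ∀ i, g i ≤ b := by
      intro i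
      have := h1 i
      split_ifs at this <;> omega
    refine ⟨⟨?_, ?_, ?_⟩, by simp⟩
    · intro i
      refine Fin.lastCases ?_ (fun i => ?_) i
      · simpa using hb
      · simpa using (hlt i).trans_lt hb
    · intro i j hij
      induction j using Fin.lastCases with
      | last =>
        induction i using Fin.lastCases with
        | last => simp
        | cast i => simpa using hlt i
      | cast j =>
        induction i using Fin.lastCases with
        | last => exact absurd hij (not_le.2 (Fin.castSucc_lt_last j))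
        | cast i => simpa using h2 (by rwa [Fin.castSucc_le_castSucc_iff] at hij)
    · intro i j hij hd
      induction j using Fin.lastCases with
      | last =>
        induction i using Fin.lastCases with
        | last => simp at hij
        | cast i =>
          have hi : i.val = n := by simp at hij; omega
          have := h1 i
          have hdn : δ n := by simpa [hi] using hd
          rw [if_pos hdn] at this
          simpa using this
      | cast j =>
        induction i using Fin.lastCases with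
        | last => 
          exfalso
          have := j.2
          simp at hij; omega
        | cast i => simpa using h3 i j (by simpa using hij) (by simpa using hd)
  · intro g hg
    simp only [coe_filter, mem_GF, Set.mem_ofPred_eq] at hg
    rw [← hg.2]
    exact Fin.snoc_init_self g
  · intro g hg
    simp

theorem card_GF (δ : ℕ → Prop) (n K : ℕ) :
    (GF δ (n+1) K).card = (K + nd δ n).choose (n+1) := by
  classical
  induction n generalizing K with
  | zero =>
    have : GF δ 1 K = Fintype.piFinset (fun _ => range K) := by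
      ext g
      rw [mem_GF]
      simp only [Fintype.mem_piFinset, mem_range]
      constructor
      · intro h; exact h.1
      · intro h
        refine ⟨h, Subsingleton.monotone _, ?_⟩
        intro i j hij
        exfalso; omega
    rw [this]
    simp [nd]
  | succ n ih =>
    rw [card_eq_sum_card_fiberwise (f := fun g => g (Fin.last _)) (t := range K)]
    · rw [sum_congr rfl (fun b hb => by
        rw [card_fiber δ n K b (mem_range.1 hb), ih])]
      rw [nd_succ, ← sum_choose (nd δ n + if δ n then 0 else 1) (n+1)]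
      · refine sum_congr rfl fun b _ => ?_
        congr 1; ring
      · have := nd_le δ n
        split_ifs <;> omega
    · intro g hg
      simp only [mem_coe, mem_GF] at hg
      simpa using hg.1 _


/-- descent predicate of a permutation -/
def dsc {n : ℕ} (π : Equiv.Perm (Fin n)) (i : ℕ) : Prop :=
  ∃ (h : i + 1 < n), π ⟨i + 1, h⟩ < π ⟨i, by omega⟩

/-- descent number, as in the frozen statement -/
def des {n : ℕ} (π : Equiv.Perm (Fin n)) : ℕ :=
  ((Finset.univ : Finset (Fin n × Fin n)).filter
              (fun p => p.2.val = p.1.val + 1 ∧ π p.2 < π p.1)).card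

theorem des_add_nd {n : ℕ} (π : Equiv.Perm (Fin (n+1))) : des π + nd (dsc π) n = n := by
  classical
  have h1 : des π = ((range n).filter (fun i => dsc π i)).card := by
    unfold des
    refine card_bij (fun p _ => p.1.val) ?_ ?_ ?_
    · rintro ⟨i, j⟩ h
      simp only [mem_filter, mem_univ, true_and] at h
      simp only [mem_filter, mem_range]
      have := j.2
      refine ⟨by omega, ?_⟩
      refine ⟨by omega, ?_⟩
      have e : j = ⟨i.val + 1, by omega⟩ := Fin.ext h.1
      have := h.2
      rw [e] at this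
      exact this
    · rintro ⟨i, j⟩ h ⟨i', j'⟩ h' e
      simp only [mem_filter, mem_univ, true_and] at h h'
      simp only at e
      have e1 : i = i' := Fin.ext e
      have e2 : j = j' := Fin.ext (by rw [h.1, h'.1, e])
      rw [e1, e2]
    · intro b hb
      simp only [mem_filter, mem_range] at hb
      obtain ⟨hb1, h, hb2⟩ := hb
      refine ⟨(⟨b, by omega⟩, ⟨b+1, h⟩), ?_, rfl⟩
      simp only [mem_filter, mem_univ, true_and]
      exact hb2
  rw [h1]
  unfold nd
  have := card_filter_add_card_filter_not (s := range n) (fun i => dsc π i)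
  simpa using this

theorem card_sort_fiber {n K : ℕ} (π : Equiv.Perm (Fin n)) :
    ((univ : Finset (Fin n → Fin K)).filter (fun f => Tuple.sort f = π)).card
      = (GF (dsc π) n K).card := by
  classical
  refine card_bij (fun f _ => fun i => (f (π i)).val) ?_ ?_ ?_
  · intro f hf
    simp only [mem_filter, mem_univ, true_and] at hf
    rw [mem_GF]
    obtain ⟨hm, ht⟩ := (Tuple.eq_sort_iff (f := f) (σ := π)).1 hf.symm
    refine ⟨fun i => (f (π i)).2, fun i j hij => hm hij, ?_⟩
    rintro i j hij ⟨h, hd⟩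
    have ej : (⟨i.val + 1, h⟩ : Fin n) = j := Fin.ext hij.symm
    rw [ej] at hd
    have hd' : π j < π i := hd
    have hlt : i < j := by rw [Fin.lt_def]; omega
    have h1 : f (π i) ≤ f (π j) := hm hlt.le
    rcases h1.eq_or_lt with h2 | h2
    · exact absurd (ht i j hlt h2) (not_lt.2 hd'.le)
    · exact h2
  · intro f _ g _ h
    funext x
    have := congrFun h (π⁻¹ x)
    have e : π (π⁻¹ x) = x := by simp
    rw [e] at this
    exact Fin.ext this
  · intro g hg
    rw [mem_GF] at hg
    obtain ⟨h1, h2, h3⟩ := hg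
    refine ⟨fun x => ⟨g (π⁻¹ x), h1 _⟩, ?_, ?_⟩
    · simp only [mem_filter, mem_univ, true_and]
      symm
      rw [Tuple.eq_sort_iff]
      have ee : ∀ i, π⁻¹ (π i) = i := fun i => by simp
      refine ⟨?_, ?_⟩
      · intro i j hij
        simp only [Function.comp, ee]
        exact h2 hij
      · -- along a constant stretch the permutation increases
        have key : ∀ k : ℕ, ∀ i j : Fin n, j.val = i.val + 1 + k → g i = g j → π i < π j := by
          intro k
          induction k with
          | zero =>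
            intro i j hij he
            by_contra hc
            have hne : π i ≠ π j := fun h => by
              have := π.injective h
              rw [this] at hij; omega
            have hlt : π j < π i := lt_of_le_of_ne (not_lt.1 hc) hne.symm
            have hj := j.2
            have : g i < g j := h3 i j hij ⟨by omega, by
              have ej : (⟨i.val + 1, by omega⟩ : Fin n) = j := Fin.ext (by simp; omega)
              rw [ej]; exact hlt⟩
            omega
          | succ k ih =>
            intro i j hij he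
            have hj := j.2
            let j' : Fin n := ⟨i.val + 1 + k, by omega⟩
            have hle1 : g i ≤ g j' := h2 (by rw [Fin.le_def]; simp [j']; omega)
            have hle2 : g j' ≤ g j := h2 (by rw [Fin.le_def]; simp [j']; omega)
            have e1 : g i = g j' := by omega
            have e2 : g j' = g j := by omega
            have l1 := ih i j' rfl e1
            refine l1.trans ?_
            by_contra hc
            have hne : π j' ≠ π j := fun h => by
              have := π.injective h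
              have : j'.val = j.val := by rw [this]
              simp [j'] at this; omega
            have hlt : π j < π j' := lt_of_le_of_ne (not_lt.1 hc) hne.symm
            have : g j' < g j := h3 j' j (by simp [j']; omega) ⟨by simp [j']; omega, by
              have ej : (⟨j'.val + 1, by simp [j']; omega⟩ : Fin n) = j := Fin.ext (by simp [j']; omega)
              rw [ej]; exact hlt⟩
            omega
        intro i j hij he
        have he := congrArg Fin.val he
        simp only [ee] at he
        exact key (j.val - i.val - 1) i j (by have : i.val < j.val := hij; omega) he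
    · funext i
      have e : π⁻¹ (π i) = i := by simp
      show g (π⁻¹ (π i)) = g i
      rw [e]


/-- number of words whose sorting permutation has sign `s` -/
theorem card_words (n K : ℕ) (s : ℤˣ) :
    (∑ π ∈ (univ : Finset (Equiv.Perm (Fin (n+1)))).filter (fun π => Equiv.Perm.sign π = s),
      ((K + (n - des π)).choose (n+1) : ℝ)) = ((K : ℝ)^(n+1) + ((s : ℤ) : ℝ) * (K : ℝ)^((n+2)/2)) / 2 := by
  classical
  have h1 : ∀ π : Equiv.Perm (Fin (n+1)), (K + (n - des π)).choose (n+1)
      = ((univ : Finset (Fin (n+1) → Fin K)).filter (fun f => Tuple.sort f = π)).card := by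
    intro π
    rw [card_sort_fiber, card_GF]
    have := des_add_nd π
    congr 2; omega
  have h2 : (∑ π ∈ (univ : Finset (Equiv.Perm (Fin (n+1)))).filter (fun π => Equiv.Perm.sign π = s),
      ((K + (n - des π)).choose (n+1)))
      = ((univ : Finset (Fin (n+1) → Fin K)).filter (fun f => Equiv.Perm.sign (Tuple.sort f) = s)).card := by
    simp_rw [h1]
    rw [card_eq_sum_card_fiberwise (f := fun f => Tuple.sort f)
      (t := (univ : Finset (Equiv.Perm (Fin (n+1)))).filter (fun π => Equiv.Perm.sign π = s))]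
    · refine sum_congr rfl fun π hπ => ?_
      congr 1
      ext f
      simp only [mem_filter, mem_univ, true_and]
      constructor
      · intro h
        refine ⟨?_, h⟩
        rw [h]; simpa using hπ
      · intro h; exact h.2
    · intro f hf
      simpa using hf
  have h3 : (∑ f : Fin (n+1) → Fin K, (wsign f : ℤ)) = (K : ℤ)^((n+2)/2) := sum_wsign (n+1) K
  have h4 : ∀ f : Fin (n+1) → Fin K, (if Equiv.Perm.sign (Tuple.sort f) = s then (1:ℤ) else 0) * 2
      = 1 + (s : ℤ) * wsign f := by
    intro f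
    rw [← sort_sign]
    rcases Int.units_eq_one_or (Equiv.Perm.sign (Tuple.sort f)) with h | h <;>
    rcases Int.units_eq_one_or s with h' | h' <;> rw [h, h'] <;> simp
  have h5 : ((((univ : Finset (Fin (n+1) → Fin K)).filter
      (fun f => Equiv.Perm.sign (Tuple.sort f) = s)).card : ℕ) : ℤ) * 2
      = (K:ℤ)^(n+1) + (s : ℤ) * (K : ℤ)^((n+2)/2) := by
    rw [card_filter]
    push_cast
    rw [sum_mul]
    simp_rw [h4]
    rw [sum_add_distrib, ← mul_sum, h3]
    simp
  have h6 : ((∑ π ∈ (univ : Finset (Equiv.Perm (Fin (n+1)))).filter (fun π => Equiv.Perm.sign π = s),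
      ((K + (n - des π)).choose (n+1)) : ℕ) : ℤ) * 2
      = (K:ℤ)^(n+1) + (s : ℤ) * (K : ℤ)^((n+2)/2) := by
    rw [h2]; exact h5
  have h7 : (((∑ π ∈ (univ : Finset (Equiv.Perm (Fin (n+1)))).filter (fun π => Equiv.Perm.sign π = s),
      ((K + (n - des π)).choose (n+1)) : ℕ) : ℤ) : ℝ) * 2
      = (K:ℝ)^(n+1) + ((s : ℤ) : ℝ) * (K : ℝ)^((n+2)/2) := by
    exact_mod_cast h6
  rw [← h7]
  push_cast
  ring

open PowerSeries in
theorem series_choose (n d : ℕ) (hd : d ≤ n) :
    (1 - (X : ℝ⟦X⟧))^(n+2) * PowerSeries.mk (fun K => ((K + (n - d)).choose (n+1) : ℝ)) = X^(d+1) := by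
  have h1 : PowerSeries.mk (fun K => ((K + (n - d)).choose (n+1) : ℝ))
      = X^(d+1) * PowerSeries.mk (fun K => ((n + 1 + K).choose (n+1) : ℝ)) := by
    ext K
    rw [PowerSeries.coeff_mk]
    rw [PowerSeries.coeff_X_pow_mul']
    split_ifs with h
    · rw [PowerSeries.coeff_mk]
      congr 2; omega
    · rw [Nat.choose_eq_zero_of_lt (by omega)]; simp
  have h2 : (1 - (X : ℝ⟦X⟧))^(n+2) * PowerSeries.mk (fun K => ((n + 1 + K).choose (n+1) : ℝ)) = 1 := by
    have := (PowerSeries.invOneSubPow ℝ (n+1+1)).inv_val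
    rw [PowerSeries.invOneSubPow_inv_eq_one_sub_pow, PowerSeries.invOneSubPow_val_succ_eq_mk_add_choose] at this
    exact this
  rw [h1, mul_left_comm, h2, mul_one]

/-- the descent polynomial of the permutations of sign `s` -/
noncomputable def dpoly (n : ℕ) (s : ℤˣ) : Polynomial ℝ :=
  ∑ π ∈ (Finset.univ : Finset (Equiv.Perm (Fin n))).filter
              (fun π => Equiv.Perm.sign π = s), (Polynomial.X : Polynomial ℝ) ^ (des π)

theorem des_le {n : ℕ} (π : Equiv.Perm (Fin (n+1))) : des π ≤ n := by
  have := des_add_nd π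
  omega

theorem coe_sum {ι : Type*} (t : Finset ι) (f : ι → Polynomial ℝ) :
    ((∑ i ∈ t, f i : Polynomial ℝ) : PowerSeries ℝ) = ∑ i ∈ t, (f i : PowerSeries ℝ) :=
  map_sum (Polynomial.coeToPowerSeries.ringHom (R := ℝ)) f t

open PowerSeries in
theorem dpoly_series (n : ℕ) (s : ℤˣ) :
    ((Polynomial.X * dpoly (n+1) s : Polynomial ℝ) : ℝ⟦X⟧)
     = (1 - (X : ℝ⟦X⟧))^(n+2) * PowerSeries.mk
        (fun K => ((K : ℝ)^(n+1) + ((s : ℤ) : ℝ) * (K : ℝ)^((n+2)/2)) / 2) := by
  have h1 : PowerSeries.mk
        (fun K => ((K : ℝ)^(n+1) + ((s : ℤ) : ℝ) * (K : ℝ)^((n+2)/2)) / 2)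
      = ∑ π ∈ (univ : Finset (Equiv.Perm (Fin (n+1)))).filter (fun π => Equiv.Perm.sign π = s),
        PowerSeries.mk (fun K => ((K + (n - des π)).choose (n+1) : ℝ)) := by
    ext K
    rw [PowerSeries.coeff_mk, map_sum]
    simp_rw [PowerSeries.coeff_mk]
    rw [card_words]
  rw [h1, mul_sum]
  rw [sum_congr rfl (fun π _ => series_choose n (des π) (des_le π))]
  unfold dpoly
  rw [mul_sum, coe_sum]
  refine sum_congr rfl fun π _ => ?_
  push_cast
  rw [pow_succ']


end Words

section Operators
open Polynomial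


/-- the operator corresponding to multiplying the coefficient function by `k + θ` -/
noncomputable def T (θ : ℝ) (d : ℕ) (w : ℝ[X]) : ℝ[X] :=
  X * (1 - X) * derivative w + (C θ + C (d + 1 - θ) * X) * w

noncomputable def W : List ℝ → ℝ[X]
  | [] => 1
  | θ :: l => T θ l.length (W l)

noncomputable def hh (l : List ℝ) (k : ℕ) : ℝ := (l.map (fun θ => (k : ℝ) + θ)).prod

theorem W_series (l : List ℝ) :
    ((W l : ℝ[X]) : PowerSeries ℝ) = (1 - (PowerSeries.X : PowerSeries ℝ))^(l.length + 1)
      * PowerSeries.mk (hh l) := by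
  induction l with
  | nil =>
    simp only [W, List.length_nil, zero_add, pow_one, Polynomial.coe_one]
    have : PowerSeries.mk (hh []) = PowerSeries.mk 1 := by
      ext k; simp [hh]
    rw [this, mul_comm, PowerSeries.mk_one_mul_one_sub_eq_one]
  | cons θ l ih =>
    have h2 : PowerSeries.mk (hh (θ :: l)) =
      PowerSeries.X * (PowerSeries.derivative ℝ (PowerSeries.mk (hh l))) + PowerSeries.C θ * PowerSeries.mk (hh l) := by
      ext k
      rw [PowerSeries.coeff_mk, map_add, PowerSeries.coeff_C_mul, PowerSeries.coeff_mk]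
      cases k with
      | zero => simp [hh]
      | succ k =>
        rw [PowerSeries.coeff_succ_X_mul, PowerSeries.coeff_derivative, PowerSeries.coeff_mk]
        simp only [hh, List.map_cons, List.prod_cons]
        push_cast
        ring
    have h3 : ((derivative (W l) : ℝ[X]) : PowerSeries ℝ) = PowerSeries.derivative ℝ ((W l : ℝ[X]) : PowerSeries ℝ) := by
      rw [PowerSeries.derivative_coe]
    have h4 : PowerSeries.derivative ℝ ((1 - (PowerSeries.X : PowerSeries ℝ))^(l.length + 1)
        * PowerSeries.mk (hh l)) = (1 - (PowerSeries.X : PowerSeries ℝ))^(l.length + 1) * PowerSeries.derivative ℝ (PowerSeries.mk (hh l))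
         - (l.length + 1 : ℕ) * (1 - (PowerSeries.X : PowerSeries ℝ))^(l.length) * (PowerSeries.mk (hh l)) := by
      rw [Derivation.leibniz, Derivation.leibniz_pow]
      rw [map_sub, PowerSeries.derivative_X, PowerSeries.derivative_one]
      simp only [smul_eq_mul, nsmul_eq_mul, Nat.add_sub_cancel]
      ring
    show ((T θ l.length (W l) : ℝ[X]) : PowerSeries ℝ) = _
    unfold T
    push_cast
    rw [h3, ih, h4, h2]
    simp only [List.length_cons]
    push_cast
    have e1 : (PowerSeries.C ((l.length : ℝ) + 1 - θ) : PowerSeries ℝ) = (l.length : PowerSeries ℝ) + 1 - PowerSeries.C θ := by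
      simp
    rw [e1]
    ring

theorem W_ext {l l' : List ℝ} (hl : l.length = l'.length) (h : ∀ k, hh l k = hh l' k) : W l = W l' := by
  apply Polynomial.coe_injective (R := ℝ)
  rw [W_series, W_series, hl]
  congr 2
  funext k; exact h k

theorem W_perm {l l' : List ℝ} (h : l.Perm l') : W l = W l' := by
  refine W_ext h.length_eq fun k => ?_
  unfold hh
  exact (h.map _).prod_eq


end Operators

section Chain
open Complex


/-- A continuous function on `[0,1]` with integer values which vanishes at `0` vanishes at `1`. -/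
theorem int_valued (D : ℝ → ℝ) (hD : ContinuousOn D (Set.Icc 0 1)) (h0 : D 0 = 0)
    (hint : ∀ t ∈ Set.Icc (0:ℝ) 1, ∃ n : ℤ, D t = n) : D 1 = 0 := by
  obtain ⟨n, hn⟩ := hint 1 (by simp)
  by_contra hne
  have hn0 : n ≠ 0 := by
    rintro rfl
    apply hne; rw [hn]; simp
  rcases lt_or_gt_of_ne hn0 with h | h
  · have h1 : (n : ℝ) ≤ -1 := by exact_mod_cast Int.le_sub_one_of_lt h
    have := intermediate_value_Icc' (zero_le_one) hD
    have hm : (-1/2 : ℝ) ∈ Set.Icc (D 1) (D 0) := by
      constructor
      · rw [hn]; linarith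
      · rw [h0]; norm_num
    obtain ⟨t, ht, hDt⟩ := this hm
    obtain ⟨k, hk⟩ := hint t ht
    rw [hk] at hDt
    have h2 : (2 * k : ℝ) = -1 := by linarith
    have h3 : (2 * k : ℤ) = -1 := by exact_mod_cast h2
    omega
  · have h1 : (1 : ℝ) ≤ n := by exact_mod_cast h
    have := intermediate_value_Icc (zero_le_one) hD
    have hm : (1/2 : ℝ) ∈ Set.Icc (D 0) (D 1) := by
      constructor
      · rw [h0]; norm_num
      · rw [hn]; linarith
    obtain ⟨t, ht, hDt⟩ := this hm
    obtain ⟨k, hk⟩ := hint t ht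
    rw [hk] at hDt
    have h2 : (2 * k : ℝ) = 1 := by linarith
    have h3 : (2 * k : ℤ) = 1 := by exact_mod_cast h2
    omega

theorem chain_arg (J : ℕ) (f : ℕ → ℂ → ℂ) (hc : ∀ i, Continuous (f i))
    (hne : ∀ i ≤ J, ∀ z : ℂ, 0 < z.im → f i z ≠ 0)
    (hpos : ∀ i ≤ J, ∀ x : ℝ, 0 < x → 0 < (f i x).re ∧ (f i x).im = 0)
    (hstep : ∀ i < J, ∀ z : ℂ, 0 < z.im → 0 < (f (i+1) z / f i z).im)
    (hend : ∀ z : ℂ, f J z = z * f 0 z) (z : ℂ) (hz : 0 < z.im) (i : ℕ) (hi : 1 ≤ i) (hiJ : i ≤ J) :
    0 < (f i z / f 0 z).im := by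
  set r : ℝ := ‖z‖ with hr
  have hz0 : z ≠ 0 := by rintro rfl; simp at hz
  have hrpos : 0 < r := norm_pos_iff.2 hz0
  set α : ℝ := arg z with hα
  have hα0 : 0 < α := by
    rw [hα]
    rcases (Complex.arg_nonneg_iff.2 hz.le).eq_or_lt with h | h
    · exfalso
      have := Complex.arg_eq_zero_iff.1 h.symm
      linarith [this.2]
    · exact h
  have hαπ : α < Real.pi := by
    rw [hα]; exact Complex.arg_lt_pi_iff.2 (Or.inr hz.ne')
  let γ : ℝ → ℂ := fun t => r * Complex.exp ((t * α : ℝ) * I)
  have hγc : Continuous γ := by fun_prop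
  have hγ0 : γ 0 = r := by simp [γ]
  have hγ1 : γ 1 = z := by
    simp only [γ, one_mul]
    rw [hr, hα]; exact Complex.norm_mul_exp_arg_mul_I z
  have hγim : ∀ t : ℝ, 0 < t → t ≤ 1 → 0 < (γ t).im := by
    intro t h0 h1
    simp only [γ]
    rw [Complex.im_ofReal_mul, Complex.exp_ofReal_mul_I_im]
    apply mul_pos hrpos
    apply Real.sin_pos_of_pos_of_lt_pi (by positivity)
    nlinarith
  -- values along the path
  have hγcase : ∀ t ∈ Set.Icc (0:ℝ) 1, (γ t = r) ∨ 0 < (γ t).im := by
    intro t ht
    rcases ht.1.eq_or_lt with h | h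
    · left; rw [← h, hγ0]
    · right; exact hγim t h ht.2
  have hfne : ∀ j ≤ J, ∀ t ∈ Set.Icc (0:ℝ) 1, f j (γ t) ≠ 0 := by
    intro j hj t ht
    rcases hγcase t ht with h | h
    · rw [h]
      intro h0
      have := (hpos j hj r hrpos).1
      rw [h0] at this; simp at this
    · exact hne j hj _ h
  let ρ : ℕ → ℝ → ℂ := fun j t => f (j+1) (γ t) / f j (γ t)
  have hρR : ∀ j < J, 0 < (ρ j 0).re ∧ (ρ j 0).im = 0 := by
    intro j hj
    simp only [ρ, hγ0]
    obtain ⟨a1, a2⟩ := hpos j hj.le r hrpos
    obtain ⟨b1, b2⟩ := hpos (j+1) hj r hrpos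
    have ea : f j r = ((f j r).re : ℂ) := by
      apply Complex.ext <;> simp [a2]
    have eb : f (j+1) r = ((f (j+1) r).re : ℂ) := by
      apply Complex.ext <;> simp [b2]
    rw [ea, eb, ← Complex.ofReal_div, Complex.ofReal_re, Complex.ofReal_im]
    exact ⟨div_pos b1 a1, rfl⟩
  have hρslit : ∀ j < J, ∀ t ∈ Set.Icc (0:ℝ) 1, ρ j t ∈ slitPlane := by
    intro j hj t ht
    rcases ht.1.eq_or_lt with h | h
    · rw [← h]
      left; exact (hρR j hj).1
    · right
      exact (hstep j hj _ (hγim t h ht.2)).ne'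
  have hρc : ∀ j < J, ContinuousOn (ρ j) (Set.Icc 0 1) := by
    intro j hj
    exact ContinuousOn.div ((hc (j+1)).comp hγc).continuousOn ((hc j).comp hγc).continuousOn
      (hfne j hj.le)
  let a : ℕ → ℝ → ℝ := fun j t => arg (ρ j t)
  have hac : ∀ j < J, ContinuousOn (a j) (Set.Icc 0 1) := by
    intro j hj t ht
    exact (Complex.continuousAt_arg (hρslit j hj t ht)).comp_continuousWithinAt (hρc j hj t ht)
  let S : ℕ → ℝ → ℝ := fun j t => ∑ l ∈ Finset.range j, a l t
  have hSc : ∀ j ≤ J, ContinuousOn (S j) (Set.Icc 0 1) := by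
    intro j hj
    apply continuousOn_finsetSum
    intro l hl
    exact hac l (by have := Finset.mem_range.1 hl; omega)
  -- product formula
  have hprod : ∀ j ≤ J, ∀ t ∈ Set.Icc (0:ℝ) 1,
      f j (γ t) / f 0 (γ t) = ‖f j (γ t) / f 0 (γ t)‖ * Complex.exp ((S j t : ℝ) * I) := by
    intro j
    induction j with
    | zero =>
      intro _ t ht
      rw [div_self (hfne 0 (by omega) t ht)]
      simp [S]
    | succ j ih =>
      intro hj t ht
      have e1 : f (j+1) (γ t) / f 0 (γ t) = ρ j t * (f j (γ t) / f 0 (γ t)) := by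
        simp only [ρ]
        have := hfne j (by omega) t ht
        field_simp
      rw [e1, norm_mul]
      have e2 : S (j+1) t = a j t + S j t := by
        simp only [S, Finset.sum_range_succ]; ring
      rw [e2]
      have e3 := ih (by omega) t ht
      have e4 : ρ j t = ‖ρ j t‖ * Complex.exp (arg (ρ j t) * I) := (Complex.norm_mul_exp_arg_mul_I _).symm
      conv_lhs => rw [e3, e4]
      push_cast
      rw [add_mul, Complex.exp_add]
      ring
  have hS0 : S J 0 = 0 := by
    simp only [S, a]
    apply Finset.sum_eq_zero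
    intro l hl
    have := hρR l (Finset.mem_range.1 hl)
    rw [Complex.arg_eq_zero_iff]
    exact ⟨this.1.le, this.2⟩
  have hD : S J 1 = α := by
    have key := int_valued (fun t => (S J t - t * α) / (2 * Real.pi)) ?_ ?_ ?_
    · have h2 : (S J 1 - 1 * α) / (2 * Real.pi) = 0 := key
      rw [div_eq_zero_iff] at h2
      rcases h2 with h2 | h2
      · linarith
      · exfalso; have := Real.pi_pos; linarith
    · apply ContinuousOn.div_const
      exact (hSc J le_rfl).sub (by fun_prop)
    · simp [hS0]
    · intro t ht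
      have e1 := hprod J le_rfl t ht
      have e0 := hfne 0 (by omega) t ht
      rw [hend, mul_div_cancel_right₀ _ e0] at e1
      have e2 : ‖γ t‖ = r := by
        simp only [γ]
        rw [norm_mul, Complex.norm_exp_ofReal_mul_I]
        simp [abs_of_pos hrpos]
      rw [e2] at e1
      have e3 : Complex.exp ((t * α : ℝ) * I) = Complex.exp ((S J t : ℝ) * I) := by
        have hr0 : (r : ℂ) ≠ 0 := by exact_mod_cast hrpos.ne'
        exact mul_left_cancel₀ hr0 e1
      rw [eq_comm, Complex.exp_eq_exp_iff_exists_int] at e3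
      obtain ⟨n, hn⟩ := e3
      refine ⟨n, ?_⟩
      have h5 : (S J t : ℂ) = (t * α : ℝ) + n * (2 * Real.pi) := by
        have hI : (I : ℂ) ≠ 0 := Complex.I_ne_zero
        apply mul_right_cancel₀ hI
        rw [hn]; ring
      have h6 : S J t = t * α + n * (2 * Real.pi) := by exact_mod_cast h5
      show (S J t - t * α) / (2 * Real.pi) = n
      rw [h6]
      have := Real.pi_pos
      field_simp
      ring
  -- conclusion at t = 1
  have h1mem : (1:ℝ) ∈ Set.Icc (0:ℝ) 1 := by simp
  have hapos : ∀ l < J, 0 < a l 1 := by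
    intro l hl
    have h := hstep l hl z hz
    simp only [a, ρ, hγ1]
    rcases (Complex.arg_nonneg_iff.2 h.le).eq_or_lt with h' | h'
    · exfalso
      have := Complex.arg_eq_zero_iff.1 h'.symm
      linarith [this.2]
    · exact h'
  have hSpos : 0 < S i 1 := by
    simp only [S]
    apply Finset.sum_pos
    · intro l hl
      exact hapos l (by have := Finset.mem_range.1 hl; omega)
    · exact ⟨0, Finset.mem_range.2 (by omega)⟩
  have hSle : S i 1 ≤ S J 1 := by
    simp only [S]
    apply Finset.sum_le_sum_of_subset_of_nonneg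
    · intro l hl
      rw [Finset.mem_range] at *
      omega
    · intro l hl _
      exact (hapos l (Finset.mem_range.1 hl)).le
  have h7 := hprod i hiJ 1 h1mem
  rw [hγ1] at h7
  rw [h7, Complex.im_ofReal_mul, Complex.exp_ofReal_mul_I_im]
  apply mul_pos
  · rw [norm_pos_iff]
    apply div_ne_zero
    · exact hne i hiJ z hz
    · exact hne 0 (by omega) z hz
  · apply Real.sin_pos_of_pos_of_lt_pi hSpos
    linarith


end Chain

section Good
open Polynomial



/-- degree at most `d`, all complex roots in `(-∞,0]`, positive on `(0,∞)` -/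
structure IsGood (d : ℕ) (w : ℝ[X]) : Prop where
  deg : w.natDegree ≤ d
  root : ∀ z : ℂ, aeval z w = 0 → z.im = 0 ∧ z.re ≤ 0
  pos : ∀ x : ℝ, 0 < x → 0 < w.eval x

theorem IsGood.ne_zero {d : ℕ} {w : ℝ[X]} (h : IsGood d w) : w ≠ 0 := by
  rintro rfl
  have := h.pos 1 one_pos
  simp at this

theorem aeval_eq (w : ℝ[X]) (z : ℂ) : aeval z w = (w.map (algebraMap ℝ ℂ)).eval z := by
  rw [Polynomial.eval_map_algebraMap]

theorem logder {w : ℝ[X]} (z : ℂ) (hz : aeval z w ≠ 0) :
    z * aeval z (derivative w) / aeval z w = (((w.map (algebraMap ℝ ℂ)).roots).map (fun r => z / (z - r))).sum := by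
  have h1 := (IsAlgClosed.splits (w.map (algebraMap ℝ ℂ))).eval_derivative_div_eval_of_ne_zero
    (x := z) (by rwa [aeval_eq] at hz)
  rw [aeval_eq, aeval_eq]
  rw [← Polynomial.derivative_map, mul_div_assoc, h1, ← Multiset.sum_map_mul_left]
  congr 1
  apply Multiset.map_congr rfl
  intro r _
  ring

theorem root_prop {d : ℕ} {w : ℝ[X]} (h : IsGood d w) (r : ℂ) (hr : r ∈ (w.map (algebraMap ℝ ℂ)).roots) :
    r.im = 0 ∧ r.re ≤ 0 := by
  apply h.root
  rw [aeval_eq]
  exact (Polynomial.mem_roots'.1 hr).2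

theorem im_div_nonneg (z r : ℂ) (hz : 0 < z.im) (hr : r.im = 0 ∧ r.re ≤ 0) : 0 ≤ (z / (z - r)).im := by
  rw [Complex.div_im]
  rw [← sub_div]
  apply div_nonneg _ (Complex.normSq_nonneg _)
  simp only [Complex.sub_re, Complex.sub_im, hr.1]
  nlinarith [hr.2]

theorem re_div_mem (x : ℝ) (r : ℂ) (hr : r.im = 0 ∧ r.re ≤ 0) :
    ((x : ℂ) / (x - r)).re = x / (x - r.re) := by
  have : r = (r.re : ℂ) := by apply Complex.ext <;> simp [hr.1]
  rw [this, ← Complex.ofReal_sub, ← Complex.ofReal_div, Complex.ofReal_re, Complex.ofReal_re]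

theorem IsGood.aeval_ne {d : ℕ} {w : ℝ[X]} (h : IsGood d w) (z : ℂ) (hz : 0 < z.im) : aeval z w ≠ 0 := by
  intro h0
  have := (h.root z h0).1
  linarith

/-- the shifted logarithmic derivative -/
noncomputable def lam (d : ℕ) (w : ℝ[X]) (z : ℂ) : ℂ :=
  z * aeval z (derivative w) / aeval z w + (d + 1) * z / (1 - z)

theorem one_sub_ne (z : ℂ) (hz : 0 < z.im) : (1 - z) ≠ 0 := by
  intro h
  have := congrArg Complex.im h
  simp at this; linarith

theorem lam_im {d : ℕ} {w : ℝ[X]} (h : IsGood d w) (z : ℂ) (hz : 0 < z.im) : 0 < (lam d w z).im := by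
  unfold lam
  rw [logder z (h.aeval_ne z hz), Complex.add_im]
  have h1 : 0 ≤ ((((w.map (algebraMap ℝ ℂ)).roots).map (fun r => z / (z - r))).sum).im := by
    have e : ((((w.map (algebraMap ℝ ℂ)).roots).map (fun r => z / (z - r))).sum).im
       = ((((w.map (algebraMap ℝ ℂ)).roots).map (fun r => (z / (z - r)).im)).sum) := by
      rw [← Complex.coe_imAddGroupHom, map_multiset_sum, Multiset.map_map]
      rfl
    rw [e]
    apply Multiset.sum_nonneg
    intro y hy
    rw [Multiset.mem_map] at hy
    obtain ⟨r, hr, rfl⟩ := hy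
    exact im_div_nonneg z r hz (root_prop h r hr)
  have h2 : 0 < (((d : ℂ) + 1) * z / (1 - z)).im := by
    rw [Complex.div_im, ← sub_div]
    apply div_pos _ (Complex.normSq_pos.2 (one_sub_ne z hz))
    simp only [Complex.sub_re, Complex.sub_im, Complex.mul_im, Complex.mul_re, Complex.add_re,
      Complex.add_im, Complex.natCast_re, Complex.natCast_im, Complex.one_re, Complex.one_im]
    have : 0 < (d + 1 : ℝ) * z.im := by positivity
    nlinarith
  linarith

theorem T_eval {d : ℕ} {w : ℝ[X]} (θ : ℝ) (z : ℂ) (hw : aeval z w ≠ 0) (hz : 1 - z ≠ 0) :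
    aeval z (T θ d w) = (1 - z) * aeval z w * (lam d w z + θ) := by
  unfold T lam
  simp only [map_add, map_mul, aeval_X, map_sub, map_one, aeval_C]
  have e1 : (algebraMap ℝ ℂ) θ = θ := rfl
  have e2 : (algebraMap ℝ ℂ) (d : ℝ) = d := by simp
  rw [e1, e2]
  field_simp
  ring

/-- the real logarithmic derivative on the positive axis -/
theorem real_logder {d : ℕ} {w : ℝ[X]} (h : IsGood d w) (x : ℝ) (hx : 0 < x) :
    0 ≤ x * (derivative w).eval x / w.eval x ∧ x * (derivative w).eval x / w.eval x ≤ d ∧
      (w.eval 0 = 0 → 1 ≤ x * (derivative w).eval x / w.eval x) := by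
  have hw := h.pos x hx
  have hz : aeval (x : ℂ) w ≠ 0 := by
    intro h0
    have := (h.root _ h0).2
    simp at this; linarith
  have h1 := logder (x : ℂ) hz
  have e0 : (x : ℂ) * aeval (x : ℂ) (derivative w) / aeval (x : ℂ) w
      = ((x * (derivative w).eval x / w.eval x : ℝ) : ℂ) := by
    have a1 : ∀ p : ℝ[X], aeval (x : ℂ) p = ((p.eval x : ℝ) : ℂ) := by
      intro p
      have := Polynomial.aeval_algebraMap_apply ℂ x p
      simpa using this
    rw [a1, a1]; push_cast; ring
  rw [e0] at h1
  have h2 := congrArg Complex.re h1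
  rw [Complex.ofReal_re] at h2
  have e : ((((w.map (algebraMap ℝ ℂ)).roots).map (fun r => (x : ℂ) / (x - r))).sum).re
       = ((((w.map (algebraMap ℝ ℂ)).roots).map (fun r => x / (x - r.re))).sum) := by
    rw [← Complex.coe_reAddGroupHom, map_multiset_sum, Multiset.map_map]
    congr 1
    apply Multiset.map_congr rfl
    intro r hr
    exact re_div_mem x r (root_prop h r hr)
  rw [e] at h2
  rw [h2]
  have hb : ∀ r ∈ (w.map (algebraMap ℝ ℂ)).roots, 0 ≤ x / (x - r.re) ∧ x / (x - r.re) ≤ 1 := by
    intro r hr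
    have := (root_prop h r hr).2
    have hp : 0 < x - r.re := by linarith
    exact ⟨by positivity, by rw [div_le_one hp]; linarith⟩
  refine ⟨?_, ?_, ?_⟩
  · apply Multiset.sum_nonneg
    intro y hy
    rw [Multiset.mem_map] at hy
    obtain ⟨r, hr, rfl⟩ := hy
    exact (hb r hr).1
  · have h3 : (((w.map (algebraMap ℝ ℂ)).roots).map (fun r => x / (x - r.re))).sum
        ≤ (((w.map (algebraMap ℝ ℂ)).roots).map (fun _ => (1:ℝ))).sum := by
      apply Multiset.sum_map_le_sum_map
      intro r hr
      exact (hb r hr).2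
    rw [Multiset.map_const', Multiset.sum_replicate, nsmul_eq_mul, mul_one] at h3
    refine h3.trans ?_
    have h4 : Multiset.card (w.map (algebraMap ℝ ℂ)).roots ≤ d := by
      refine (Polynomial.card_roots' _).trans ?_
      exact (Polynomial.natDegree_map_le).trans h.deg
    exact_mod_cast h4
  · intro h0
    have hmem : (0 : ℂ) ∈ (w.map (algebraMap ℝ ℂ)).roots := by
      rw [Polynomial.mem_roots']
      refine ⟨?_, ?_⟩
      · rw [Ne, Polynomial.map_eq_zero]
        exact h.ne_zero
      · rw [Polynomial.IsRoot.def, ← aeval_eq]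
        have := Polynomial.aeval_algebraMap_apply ℂ (0:ℝ) w
        simp only [map_zero] at this
        rw [this]
        simp [h0]
    rw [← Multiset.cons_erase hmem, Multiset.map_cons, Multiset.sum_cons]
    have h5 : x / (x - (0:ℂ).re) = 1 := by simp [hx.ne']
    rw [h5]
    have h6 : 0 ≤ ((((w.map (algebraMap ℝ ℂ)).roots).erase 0).map (fun r => x / (x - r.re))).sum := by
      apply Multiset.sum_nonneg
      intro y hy
      rw [Multiset.mem_map] at hy
      obtain ⟨r, hr, rfl⟩ := hy
      exact (hb r (Multiset.mem_of_mem_erase hr)).1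
    linarith

theorem T_pos {d : ℕ} {w : ℝ[X]} {θ : ℝ} (h : IsGood d w) (h1 : -1 ≤ θ) (h2 : θ ≤ 1)
    (h0 : θ < 0 → w.eval 0 = 0) (x : ℝ) (hx : 0 < x) : 0 < (T θ d w).eval x := by
  have hw := h.pos x hx
  obtain ⟨s0, sd, s1⟩ := real_logder h x hx
  set S := x * (derivative w).eval x / w.eval x with hS
  have hS' : x * (derivative w).eval x = S * w.eval x := by
    rw [hS]; field_simp
  have e : (T θ d w).eval x = w.eval x * ((1 - x) * (S + θ) + (d + 1) * x) := by
    unfold T
    simp only [eval_add, eval_mul, eval_X, eval_sub, eval_one, eval_C]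
    have : x * (1 - x) * (derivative w).eval x = (1 - x) * (S * w.eval x) := by
      rw [← hS']; ring
    rw [this]; ring
  rw [e]
  apply mul_pos hw
  have hSθ : 0 ≤ S + θ := by
    rcases lt_or_ge θ 0 with ht | ht
    · have := s1 (h0 ht); linarith
    · linarith
  have hd : (0:ℝ) ≤ d := Nat.cast_nonneg d
  rcases le_total x 1 with hx1 | hx1
  · have : 0 ≤ (1 - x) * (S + θ) := mul_nonneg (by linarith) hSθ
    have : 0 < (d + 1 : ℝ) * x := by positivity
    linarith
  · have h3 : (1 - x) * (S + θ) ≥ (1 - x) * (d + θ) := by nlinarith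
    have h4 : (1 - x) * (d + θ) + (d + 1) * x ≥ d + 1 := by nlinarith
    linarith

theorem aeval_conj (w : ℝ[X]) (z : ℂ) : aeval (starRingEnd ℂ z) w = starRingEnd ℂ (aeval z w) := by
  exact Polynomial.aeval_conj w z

theorem T_good {d : ℕ} {w : ℝ[X]} {θ : ℝ} (h : IsGood d w) (h1 : -1 ≤ θ) (h2 : θ ≤ 1)
    (h0 : θ < 0 → w.eval 0 = 0) : IsGood (d+1) (T θ d w) := by
  have hup : ∀ z : ℂ, 0 < z.im → aeval z (T θ d w) ≠ 0 := by
    intro z hz
    rw [T_eval θ z (h.aeval_ne z hz) (one_sub_ne z hz)]
    apply mul_ne_zero (mul_ne_zero (one_sub_ne z hz) (h.aeval_ne z hz))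
    intro hc
    have := congrArg Complex.im hc
    simp at this
    linarith [lam_im h z hz]
  refine ⟨?_, ?_, fun x hx => T_pos h h1 h2 h0 x hx⟩
  · have hw := h.deg
    unfold T
    apply (natDegree_add_le _ _).trans
    apply max_le
    · by_cases hd : derivative w = 0
      · simp [hd]
      · have h3 : (X * (1 - X) : ℝ[X]).natDegree ≤ 2 := by
          have : (X * (1 - X) : ℝ[X]) = X - X^2 := by ring
          rw [this]
          compute_degree
        have h4 : (derivative w).natDegree + 1 ≤ w.natDegree := by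
          have hw0 : w.natDegree ≠ 0 := by
            intro hc
            apply hd
            rw [Polynomial.eq_C_of_natDegree_eq_zero hc]
            simp
          have := Polynomial.natDegree_derivative_lt hw0
          omega
        refine (natDegree_mul_le).trans ?_
        omega
    · have h3 : (C θ + C ((d:ℝ) + 1 - θ) * X : ℝ[X]).natDegree ≤ 1 := by
        compute_degree
      refine (natDegree_mul_le).trans ?_
      omega
  · intro z hz
    rcases lt_trichotomy z.im 0 with hi | hi | hi
    · exfalso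
      have h3 : aeval (starRingEnd ℂ z) (T θ d w) = 0 := by
        rw [aeval_conj, hz]; simp
      exact hup _ (by simpa using hi) h3
    · refine ⟨hi, ?_⟩
      by_contra hc
      push Not at hc
      have h3 := T_pos h h1 h2 h0 z.re hc
      have h4 : z = (z.re : ℂ) := by apply Complex.ext <;> simp [hi]
      rw [h4] at hz
      have := Polynomial.aeval_algebraMap_apply ℂ z.re (T θ d w)
      simp only [Complex.coe_algebraMap] at this
      rw [this] at hz
      simp at hz
      linarith
    · exact absurd hz (hup z hi)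

theorem T_ratio {d : ℕ} {w : ℝ[X]} {θ₁ θ₂ : ℝ} (h : IsGood d w) (hlt : θ₂ < θ₁) (z : ℂ) (hz : 0 < z.im) :
    0 < (aeval z (T θ₂ d w) / aeval z (T θ₁ d w)).im := by
  rw [T_eval θ₁ z (h.aeval_ne z hz) (one_sub_ne z hz), T_eval θ₂ z (h.aeval_ne z hz) (one_sub_ne z hz)]
  have hL := lam_im h z hz
  set L := lam d w z
  have hne : (1 - z) * aeval z w ≠ 0 := mul_ne_zero (one_sub_ne z hz) (h.aeval_ne z hz)
  rw [mul_div_mul_left _ _ hne, Complex.div_im, ← sub_div]
  apply div_pos
  · simp
    nlinarith
  · rw [Complex.normSq_pos]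
    intro hc
    have := congrArg Complex.im hc
    simp at this
    linarith


end Good

section Main
open Polynomial

def Lst (a b c : ℕ) : List ℝ :=
  List.replicate a (-1) ++ (List.replicate b 1 ++ List.replicate c 0)

theorem Lst_length (a b c : ℕ) : (Lst a b c).length = a + b + c := by
  simp [Lst, add_assoc]

theorem hh_Lst (a b c k : ℕ) : hh (Lst a b c) k = ((k:ℝ) - 1)^a * ((k:ℝ) + 1)^b * (k:ℝ)^c := by
  simp [hh, Lst, mul_assoc, sub_eq_add_neg]

theorem Lst_succ_a (a b c : ℕ) : Lst (a+1) b c = (-1) :: Lst a b c := by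
  simp [Lst, List.replicate_succ]

theorem Lst_succ_b (a b c : ℕ) : W (Lst a (b+1) c) = W (1 :: Lst a b c) := by
  apply W_ext
  · simp [Lst_length]; ring
  · intro k
    rw [hh_Lst]
    have : hh (1 :: Lst a b c) k = ((k:ℝ) + 1) * hh (Lst a b c) k := by simp [hh]
    rw [this, hh_Lst]; ring

theorem Lst_succ_c (a b c : ℕ) : W (Lst a b (c+1)) = W (0 :: Lst a b c) := by
  apply W_ext
  · simp [Lst_length]; ring
  · intro k
    rw [hh_Lst]
    have : hh (0 :: Lst a b c) k = (k:ℝ) * hh (Lst a b c) k := by simp [hh]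
    rw [this, hh_Lst]; ring

theorem T_eval0 (θ : ℝ) (d : ℕ) (w : ℝ[X]) : (T θ d w).eval 0 = θ * w.eval 0 := by
  simp [T]

theorem W_eval0 (l : List ℝ) : (W l).eval 0 = l.prod := by
  induction l with
  | nil => simp [W]
  | cons θ l ih => rw [W, T_eval0, ih, List.prod_cons]

theorem good_nil : IsGood 0 (W []) := by
  refine ⟨by simp [W], ?_, ?_⟩
  · intro z hz
    simp [W] at hz
  · intro x _
    simp [W]

theorem good0 (c : ℕ) : IsGood c (W (Lst 0 0 c)) := by
  induction c with
  | zero => exact good_nil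
  | succ c ih =>
    rw [Lst_succ_c]
    have := T_good (θ := 0) ih (by norm_num) (by norm_num) (by intro h; exact absurd h (lt_irrefl _))
    show IsGood (c+1) (T 0 (Lst 0 0 c).length (W (Lst 0 0 c)))
    rw [Lst_length]
    simpa using this

theorem good1 (b c : ℕ) : IsGood (b + c) (W (Lst 0 b c)) := by
  induction b with
  | zero => simpa using good0 c
  | succ b ih =>
    rw [Lst_succ_b]
    have := T_good (θ := 1) ih (by norm_num) (by norm_num) (by intro h; norm_num at h)
    show IsGood (b+1+c) (T 1 (Lst 0 b c).length (W (Lst 0 b c)))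
    rw [Lst_length, show b + 1 + c = b + c + 1 by ring]
    simpa using this

theorem good2 (a b c : ℕ) (hc : 1 ≤ c) : IsGood (a + b + c) (W (Lst a b c)) := by
  induction a with
  | zero => simpa using good1 b c
  | succ a ih =>
    rw [Lst_succ_a]
    have h0 : (W (Lst a b c)).eval 0 = 0 := by
      rw [W_eval0]
      obtain ⟨c', rfl⟩ : ∃ c', c = c' + 1 := ⟨c - 1, by omega⟩
      simp [Lst]
    have := T_good (θ := -1) ih (by norm_num) (by norm_num) (fun _ => h0)
    show IsGood (a+1+b+c) (T (-1) (Lst a b c).length (W (Lst a b c)))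
    rw [Lst_length, show a + 1 + b + c = a + b + c + 1 by ring]
    simpa using this

/-- the interlacing chain -/
noncomputable def chain (m q i : ℕ) : ℝ[X] :=
  if i ≤ m then W (Lst i (m - i) q) else W (Lst (m+1) 0 m)

theorem chain_good (m q i : ℕ) (hm : 1 ≤ m) (hq : 1 ≤ q) : ∃ d, IsGood d (chain m q i) := by
  unfold chain
  split_ifs with h
  · exact ⟨_, good2 _ _ _ hq⟩
  · exact ⟨_, good2 _ _ _ hm⟩

theorem chain_step (m q i : ℕ) (hm : 1 ≤ m) (hq : q = m ∨ q = m + 1) (hi : i < q) (z : ℂ) (hz : 0 < z.im) :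
    0 < (aeval z (chain m q (i+1)) / aeval z (chain m q i)).im := by
  have hq1 : 1 ≤ q := by omega
  unfold chain
  by_cases h : i + 1 ≤ m
  · rw [if_pos h, if_pos (by omega)]
    obtain ⟨b, hb⟩ : ∃ b, m - i = b + 1 := ⟨m - i - 1, by omega⟩
    have hb' : m - (i+1) = b := by omega
    rw [hb, hb', Lst_succ_a, Lst_succ_b]
    show 0 < (aeval z (T (-1) (Lst i b q).length (W (Lst i b q))) / aeval z (T 1 (Lst i b q).length (W (Lst i b q)))).im
    rw [Lst_length]
    exact T_ratio (good2 i b q hq1) (by norm_num) z hz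
  · have hi' : i = m := by omega
    have hqm : q = m + 1 := by omega
    subst hi'
    rw [if_neg h, if_pos le_rfl, hqm, Nat.sub_self, Lst_succ_a, Lst_succ_c]
    show 0 < (aeval z (T (-1) (Lst i 0 i).length (W (Lst i 0 i))) / aeval z (T 0 (Lst i 0 i).length (W (Lst i 0 i)))).im
    rw [Lst_length]
    exact T_ratio (good2 i 0 i hm) (by norm_num) z hz

theorem W_shift (m q : ℕ) (hm : 1 ≤ m) : W (Lst q 0 m) = X * W (Lst 0 m q) := by
  apply Polynomial.coe_injective (R := ℝ)
  push_cast
  rw [W_series, W_series, Lst_length, Lst_length, mul_left_comm]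
  have : q + 0 + m + 1 = 0 + m + q + 1 := by ring
  rw [this]
  congr 1
  ext k
  cases k with
  | zero =>
    rw [PowerSeries.coeff_mk, hh_Lst, PowerSeries.coeff_zero_X_mul]
    obtain ⟨m', rfl⟩ : ∃ m', m = m' + 1 := ⟨m - 1, by omega⟩
    simp
  | succ k =>
    rw [PowerSeries.coeff_succ_X_mul, PowerSeries.coeff_mk, PowerSeries.coeff_mk, hh_Lst, hh_Lst]
    push_cast
    ring

theorem chain_end (m q : ℕ) (hm : 1 ≤ m) (hq : q = m ∨ q = m + 1) :
    chain m q q = X * chain m q 0 := by
  have h0 : chain m q 0 = W (Lst 0 m q) := by simp [chain]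
  rw [h0, ← W_shift m q hm]
  unfold chain
  rcases hq with rfl | rfl
  · simp
  · rw [if_neg (by omega)]

theorem chain_main (m q : ℕ) (hm : 1 ≤ m) (hq : q = m ∨ q = m + 1) (z : ℂ) (hz : 0 < z.im)
    (i : ℕ) (hi : 1 ≤ i) (him : i ≤ m) :
    0 < (aeval z (chain m q i) / aeval z (chain m q 0)).im := by
  have hq1 : 1 ≤ q := by omega
  refine chain_arg q (fun i z => aeval z (chain m q i)) ?_ ?_ ?_ ?_ ?_ z hz i hi (by omega)
  · intro i
    exact Polynomial.continuous_aeval _
  · intro i _ z hz
    obtain ⟨d, hd⟩ := chain_good m q i hm hq1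
    exact hd.aeval_ne z hz
  · intro i _ x hx
    obtain ⟨d, hd⟩ := chain_good m q i hm hq1
    have e := Polynomial.aeval_algebraMap_apply ℂ x (chain m q i)
    simp only [Complex.coe_algebraMap] at e
    show 0 < (aeval (x:ℂ) (chain m q i)).re ∧ (aeval (x:ℂ) (chain m q i)).im = 0
    rw [e]
    have := hd.pos x hx
    simpa using this
  · intro i hi z hz
    exact chain_step m q i hm hq hi z hz
  · intro z
    show aeval z (chain m q q) = z * aeval z (chain m q 0)
    rw [chain_end m q hm hq]
    simp

/-- the binomial identity behind the positivity -/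
theorem binom_id (m : ℕ) (s x : ℝ) :
    ∑ j ∈ Finset.range (m+1), (m.choose j : ℝ) * (1 + s * (-1)^j) * ((x-1)^j * (x+1)^(m-j))
      = 2^m * (x^m + s) := by
  have h1 := add_pow (x-1) (x+1) m
  have h2 := add_pow (-(x-1)) (x+1) m
  have e1 : (x - 1 + (x + 1))^m = 2^m * x^m := by rw [← mul_pow]; congr 1; ring
  have e2 : (-(x - 1) + (x + 1))^m = 2^m := by congr 1; ring
  rw [e1] at h1
  rw [e2] at h2
  have : ∑ j ∈ Finset.range (m+1), (m.choose j : ℝ) * (1 + s * (-1)^j) * ((x-1)^j * (x+1)^(m-j))
     = ∑ j ∈ Finset.range (m+1), (x-1)^j * (x+1)^(m-j) * (m.choose j : ℝ)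
      + s * ∑ j ∈ Finset.range (m+1), (-(x-1))^j * (x+1)^(m-j) * (m.choose j : ℝ) := by
    rw [Finset.mul_sum, ← Finset.sum_add_distrib]
    refine Finset.sum_congr rfl fun j _ => ?_
    rw [neg_pow (x-1) j]
    ring
  rw [this, ← h1, ← h2]
  ring

theorem dpoly_expand (n : ℕ) (s : ℤˣ) :
    C ((2:ℝ)^((n+1)/2 + 1)) * (X * dpoly (n+1) s) =
      ∑ j ∈ Finset.range ((n+1)/2+1), C ((((n+1)/2).choose j : ℝ) * (1 + ((s : ℤ) : ℝ) * (-1)^j))
        * W (Lst j ((n+1)/2 - j) ((n+2)/2)) := by
  set m := (n+1)/2 with hm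
  set q := (n+2)/2 with hq
  have hmq : m + q = n + 1 := by omega
  apply Polynomial.coe_injective (R := ℝ)
  rw [coe_sum, Polynomial.coe_mul, dpoly_series]
  have h1 : ∀ j ∈ Finset.range (m+1),
     ((C ((m.choose j : ℝ) * (1 + ((s : ℤ) : ℝ) * (-1)^j)) * W (Lst j (m - j) q) : ℝ[X]) : PowerSeries ℝ)
     = (1 - (PowerSeries.X : PowerSeries ℝ))^(n+2) * (PowerSeries.C ((m.choose j : ℝ) * (1 + ((s : ℤ) : ℝ) * (-1)^j))
        * PowerSeries.mk (hh (Lst j (m-j) q))) := by
    intro j hj
    have hj' : j ≤ m := by have := Finset.mem_range.1 hj; omega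
    rw [Polynomial.coe_mul, W_series, Lst_length, Polynomial.coe_C]
    have : j + (m - j) + q + 1 = n + 2 := by omega
    rw [this]; ring
  rw [Finset.sum_congr rfl h1, ← Finset.mul_sum, Polynomial.coe_C, mul_left_comm]
  congr 1
  ext K
  rw [PowerSeries.coeff_C_mul, PowerSeries.coeff_mk, map_sum]
  simp_rw [PowerSeries.coeff_C_mul, PowerSeries.coeff_mk, hh_Lst]
  have h2 := binom_id m ((s : ℤ) : ℝ) (K : ℝ)
  have h3 : ∑ x ∈ Finset.range (m + 1), (m.choose x : ℝ) * (1 + ((s : ℤ) : ℝ) * (-1) ^ x) *
      (((K:ℝ) - 1) ^ x * ((K:ℝ) + 1) ^ (m - x) * (K:ℝ) ^ q)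
      = (2^m * ((K:ℝ)^m + ((s : ℤ) : ℝ))) * (K:ℝ)^q := by
    rw [← h2, Finset.sum_mul]
    refine Finset.sum_congr rfl fun j _ => by ring
  rw [h3, ← hmq, pow_add, pow_succ]
  ring

theorem main_upper (n : ℕ) (hn : 1 ≤ n) (s : ℤˣ) (z : ℂ) (hz : 0 < z.im) :
    aeval z (dpoly (n+1) s) ≠ 0 := by
  intro h0
  have he := congrArg (aeval z) (dpoly_expand n s)
  rw [map_mul, map_mul, h0, mul_zero, mul_zero, map_sum] at he
  set m := (n+1)/2 with hm
  set q := (n+2)/2 with hq
  have hm1 : 1 ≤ m := by omega
  have hqm : q = m ∨ q = m + 1 := by omega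
  have hq1 : 1 ≤ q := by omega
  have hc : ∀ j ∈ Finset.range (m+1), aeval z (C ((m.choose j : ℝ) * (1 + ((s : ℤ) : ℝ) * (-1)^j)) * W (Lst j (m - j) q))
     = (((m.choose j : ℝ) * (1 + ((s : ℤ) : ℝ) * (-1)^j) : ℝ) : ℂ) * aeval z (chain m q j) := by
    intro j hj
    have hj' : j ≤ m := by have := Finset.mem_range.1 hj; omega
    rw [map_mul, aeval_C]
    unfold chain
    rw [if_pos hj']
    rfl
  rw [Finset.sum_congr rfl hc] at he
  obtain ⟨d, hd⟩ := chain_good m q 0 hm1 hq1
  have hne := hd.aeval_ne z hz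
  have he2 : (0 : ℂ) = ∑ j ∈ Finset.range (m+1), (((m.choose j : ℝ) * (1 + ((s : ℤ) : ℝ) * (-1)^j) : ℝ) : ℂ)
      * (aeval z (chain m q j) / aeval z (chain m q 0)) := by
    have : ∑ j ∈ Finset.range (m+1), (((m.choose j : ℝ) * (1 + ((s : ℤ) : ℝ) * (-1)^j) : ℝ) : ℂ)
      * (aeval z (chain m q j) / aeval z (chain m q 0))
      = (∑ j ∈ Finset.range (m+1), (((m.choose j : ℝ) * (1 + ((s : ℤ) : ℝ) * (-1)^j) : ℝ) : ℂ)
      * (aeval z (chain m q j))) / aeval z (chain m q 0) := by
      rw [Finset.sum_div]
      refine Finset.sum_congr rfl fun j _ => by ring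
    rw [this, ← he]; simp
  have hcoef : ∀ j, 0 ≤ (m.choose j : ℝ) * (1 + ((s : ℤ) : ℝ) * (-1)^j) := by
    intro j
    apply mul_nonneg (by positivity)
    rcases Int.units_eq_one_or s with h | h <;> rcases neg_one_pow_eq_or ℝ j with h' | h' <;>
      rw [h, h'] <;> norm_num
  have him := congrArg Complex.im he2
  rw [Complex.zero_im, Complex.im_sum, Finset.sum_range_succ'] at him
  have h00 : ((((m.choose 0 : ℝ) * (1 + ((s : ℤ) : ℝ) * (-1)^0) : ℝ) : ℂ)
      * (aeval z (chain m q 0) / aeval z (chain m q 0))).im = 0 := by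
    rw [div_self hne, mul_one, Complex.ofReal_im]
  rw [h00, add_zero] at him
  have hterm : ∀ j ∈ Finset.range m, 0 ≤ ((((m.choose (j+1) : ℝ) * (1 + ((s : ℤ) : ℝ) * (-1)^(j+1)) : ℝ) : ℂ)
      * (aeval z (chain m q (j+1)) / aeval z (chain m q 0))).im := by
    intro j hj
    have hj' := Finset.mem_range.1 hj
    rw [Complex.im_ofReal_mul]
    exact mul_nonneg (hcoef _) (chain_main m q hm1 hqm z hz (j+1) (by omega) (by omega)).le
  have hall := (Finset.sum_eq_zero_iff_of_nonneg hterm).1 him.symm
  have hzero : ∀ j ∈ Finset.range m, (m.choose (j+1) : ℝ) * (1 + ((s : ℤ) : ℝ) * (-1)^(j+1)) = 0 := by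
    intro j hj
    have hj' := Finset.mem_range.1 hj
    have := hall j hj
    rw [Complex.im_ofReal_mul] at this
    rcases mul_eq_zero.1 this with h | h
    · exact h
    · exfalso
      have := chain_main m q hm1 hqm z hz (j+1) (by omega) (by omega)
      linarith
  have hs : s = 1 := by
    have := hzero 0 (Finset.mem_range.2 (by omega))
    rcases Int.units_eq_one_or s with h | h
    · exact h
    · exfalso
      rw [h] at this
      simp at this
      omega
  rw [Finset.sum_range_succ'] at he2
  have : ∑ k ∈ Finset.range m, (((m.choose (k+1) : ℝ) * (1 + ((s : ℤ) : ℝ) * (-1)^(k+1)) : ℝ) : ℂ)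
      * (aeval z (chain m q (k+1)) / aeval z (chain m q 0)) = 0 := by
    apply Finset.sum_eq_zero
    intro j hj
    rw [hzero j hj]; simp
  rw [this, div_self hne, hs] at he2
  norm_num at he2

theorem main (n : ℕ) (hn : 2 ≤ n) (s : ℤˣ) (z : ℂ) (h : aeval z (dpoly n s) = 0) : z.im = 0 := by
  obtain ⟨k, rfl⟩ : ∃ k, n = k + 1 := ⟨n - 1, by omega⟩
  rcases lt_trichotomy z.im 0 with hi | hi | hi
  · exfalso
    apply main_upper k (by omega) s (starRingEnd ℂ z) (by simpa using hi)
    rw [aeval_conj, h]; simp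
  · exact hi
  · exact absurd h (main_upper k (by omega) s z hi)

end Main

end Pool.Agent.Helper60.DescReal
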