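import Pool.Agent.Helper21.LR.Stmts

/-!
MP_6358c9_nt: elementary lemmas on lengths of polynomials, coefficient bounds on the polydisc
and counting in finitely generated subgroups of the complex numbers.
-/

open MvPolynomial Pool.Agent.Helper21.LR

namespace Pool.Agent.Helper60.LRBase

section len

variable {ι : Type*}

theorem len_eq_of_subset {G : MvPolynomial ι ℂ} {s : Finset (ι →₀ ℕ)} (h : G.support ⊆ s) :
    len G = ∑ α ∈ s, ‖G.coeff α‖ := by
  unfold len
  apply Finset.sum_subset h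
  intro α _ hα
  simp [notMem_support_iff.mp hα]

theorem len_nonneg (G : MvPolynomial ι ℂ) : 0 ≤ len G :=
  Finset.sum_nonneg fun _ _ => norm_nonneg _

@[simp] theorem len_zero : len (0 : MvPolynomial ι ℂ) = 0 := by simp [len]

theorem len_add_le (G H : MvPolynomial ι ℂ) : len (G + H) ≤ len G + len H := by
  classical
  rw [len_eq_of_subset (G := G + H) (s := G.support ∪ H.support) support_add,
    len_eq_of_subset (G := G) (s := G.support ∪ H.support) Finset.subset_union_left,
    len_eq_of_subset (G := H) (s := G.support ∪ H.support) Finset.subset_union_right,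
    ← Finset.sum_add_distrib]
  apply Finset.sum_le_sum
  intro α _
  rw [coeff_add]
  exact norm_add_le _ _

theorem len_neg (G : MvPolynomial ι ℂ) : len (-G) = len G := by
  simp [len]

theorem len_sub_le (G H : MvPolynomial ι ℂ) : len (G - H) ≤ len G + len H := by
  rw [sub_eq_add_neg, ← len_neg H]
  exact len_add_le _ _

theorem len_sum_le {κ : Type*} (s : Finset κ) (f : κ → MvPolynomial ι ℂ) :
    len (∑ k ∈ s, f k) ≤ ∑ k ∈ s, len (f k) := by
  classical
  induction s using Finset.induction_on with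
  | empty => simp
  | insert a s ha ih =>
    rw [Finset.sum_insert ha, Finset.sum_insert ha]
    exact (len_add_le _ _).trans (by linarith)

theorem len_monomial (α : ι →₀ ℕ) (c : ℂ) : len (monomial α c) = ‖c‖ := by
  classical
  by_cases hc : c = 0
  · simp [hc]
  · simp [len, support_monomial, hc]

theorem len_C_mul (c : ℂ) (G : MvPolynomial ι ℂ) : len (C c * G) = ‖c‖ * len G := by
  by_cases hc : c = 0
  · simp [hc]
  · have hs : (C c * G).support = G.support := by
      ext α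
      simp [hc]
    unfold len
    rw [hs, Finset.mul_sum]
    apply Finset.sum_congr rfl
    intro α _
    rw [coeff_C_mul, norm_mul]

theorem len_mul_le (G H : MvPolynomial ι ℂ) : len (G * H) ≤ len G * len H := by
  classical
  have h1 : G * H = ∑ α ∈ G.support, ∑ β ∈ H.support,
      monomial (α + β) (G.coeff α * H.coeff β) := by
    conv_lhs => rw [G.as_sum, H.as_sum]
    rw [Finset.sum_mul_sum]
    simp [monomial_mul]
  rw [h1]
  refine (len_sum_le _ _).trans ?_
  have h2 : len G * len H = ∑ α ∈ G.support, ∑ β ∈ H.support, ‖G.coeff α‖ * ‖H.coeff β‖ := by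
    unfold len
    rw [Finset.sum_mul_sum]
  rw [h2]
  apply Finset.sum_le_sum
  intro α _
  refine (len_sum_le _ _).trans ?_
  apply Finset.sum_le_sum
  intro β _
  rw [len_monomial, norm_mul]

theorem len_one_le : len (1 : MvPolynomial ι ℂ) ≤ 1 := by
  have : (1 : MvPolynomial ι ℂ) = monomial 0 1 := rfl
  rw [this, len_monomial]
  simp

theorem len_pow_le (G : MvPolynomial ι ℂ) (n : ℕ) : len (G ^ n) ≤ len G ^ n := by
  induction n with
  | zero => simpa using len_one_le
  | succ n ih =>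
    rw [pow_succ, pow_succ]
    exact (len_mul_le _ _).trans (mul_le_mul_of_nonneg_right ih (len_nonneg _))

theorem norm_eval_le_len [Fintype ι] (G : MvPolynomial ι ℂ) (N : ℕ) (hN : G.totalDegree ≤ N)
    (z : ι → ℂ) (R : ℝ) (hR : 1 ≤ R) (hz : ∀ i, ‖z i‖ ≤ R) : ‖eval z G‖ ≤ len G * R ^ N := by
  rw [eval_eq']
  unfold len
  rw [Finset.sum_mul]
  refine (norm_sum_le _ _).trans ?_
  apply Finset.sum_le_sum
  intro α hα
  rw [norm_mul]
  apply mul_le_mul_of_nonneg_left _ (norm_nonneg _)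
  rw [norm_prod]
  calc ∏ i, ‖z i ^ α i‖ ≤ ∏ i, R ^ α i := by
        apply Finset.prod_le_prod
        · intro i _; exact norm_nonneg _
        · intro i _
          rw [norm_pow]
          exact pow_le_pow_left₀ (norm_nonneg _) (hz i) _
    _ = R ^ (∑ i, α i) := by rw [Finset.prod_pow_eq_pow_sum]
    _ ≤ R ^ N := by
        apply pow_le_pow_right₀ hR
        have := le_totalDegree hα
        rw [Finsupp.sum_fintype _ _ (fun _ => rfl)] at this
        exact this.trans hN

end len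

section coeff

variable {ι : Type*} [Fintype ι]

/-- Cauchy estimate on the polydisc, through roots of unity. -/
theorem norm_coeff_le (p : MvPolynomial ι ℂ) (B : ℝ)
    (h : ∀ z : ι → ℂ, (∀ i, ‖z i‖ ≤ 1) → ‖eval z p‖ ≤ B) (α : ι →₀ ℕ) : ‖p.coeff α‖ ≤ B := by
  classical
  set n : ℕ := p.totalDegree + α.degree + 1 with hn
  have hn0 : n ≠ 0 := by omega
  set ζ : ℂ := Complex.exp (2 * Real.pi * Complex.I / n) with hζ
  have hprim : IsPrimitiveRoot ζ n := Complex.isPrimitiveRoot_exp n hn0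
  have hζn : ‖ζ‖ = 1 := hprim.norm'_eq_one hn0
  have hζ0 : ζ ≠ 0 := by
    intro h0
    rw [h0] at hζn
    simp at hζn
  have hαlt : ∀ i, α i < n := by
    intro i
    have := Finsupp.le_degree i α
    omega
  have hβlt : ∀ β ∈ p.support, ∀ i, β i < n := by
    intro β hβ i
    have h1 := le_totalDegree hβ
    have h2 : β i ≤ β.sum fun _ e => e := by
      rw [Finsupp.sum_fintype _ _ (fun _ => rfl)]
      exact Finset.single_le_sum (f := fun i => β i) (fun _ _ => Nat.zero_le _) (Finset.mem_univ i)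
    omega
  -- orthogonality
  have horth : ∀ a b : ℕ, a < n → b < n →
      ∑ k : Fin n, (ζ ^ (k : ℕ)) ^ a * ((ζ ^ (k : ℕ))⁻¹) ^ b = if a = b then (n : ℂ) else 0 := by
    intro a b ha hb
    have h1 : ∀ k : Fin n, (ζ ^ (k : ℕ)) ^ a * ((ζ ^ (k : ℕ))⁻¹) ^ b =
        (ζ ^ a * (ζ ^ b)⁻¹) ^ (k : ℕ) := by
      intro k
      rw [inv_pow, ← pow_mul, ← pow_mul, mul_pow, inv_pow, ← pow_mul, ← pow_mul,
        mul_comm (k : ℕ) a, mul_comm (k : ℕ) b]
    simp_rw [h1]
    rw [Fin.sum_univ_eq_sum_range (fun k => (ζ ^ a * (ζ ^ b)⁻¹) ^ k) n]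
    split_ifs with hab
    · subst hab
      rw [mul_inv_cancel₀ (pow_ne_zero _ hζ0)]
      simp
    · have hne : ζ ^ a * (ζ ^ b)⁻¹ ≠ 1 := by
        intro h2
        apply hab
        apply hprim.pow_inj ha hb
        field_simp at h2
        exact h2
      rw [geom_sum_eq hne]
      have : (ζ ^ a * (ζ ^ b)⁻¹) ^ n = 1 := by
        rw [mul_pow, inv_pow, ← pow_mul, ← pow_mul, mul_comm a, mul_comm b, pow_mul, pow_mul,
          hprim.pow_eq_one]
        simp
      rw [this]
      simp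
  -- the average
  have key : ∑ k : ι → Fin n, eval (fun i => ζ ^ (k i : ℕ)) p *
      ∏ i, ((ζ ^ (k i : ℕ))⁻¹) ^ α i = p.coeff α * (n : ℂ) ^ Fintype.card ι := by
    have h1 : ∀ k : ι → Fin n, eval (fun i => ζ ^ (k i : ℕ)) p *
        ∏ i, ((ζ ^ (k i : ℕ))⁻¹) ^ α i =
        ∑ β ∈ p.support, p.coeff β * ∏ i, ((ζ ^ (k i : ℕ)) ^ β i * ((ζ ^ (k i : ℕ))⁻¹) ^ α i) := by
      intro k
      rw [eval_eq', Finset.sum_mul]
      apply Finset.sum_congr rfl
      intro β _
      rw [Finset.prod_mul_distrib, mul_assoc]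
    simp_rw [h1]
    rw [Finset.sum_comm]
    have h2 : ∀ β ∈ p.support, ∑ k : ι → Fin n,
        p.coeff β * ∏ i, ((ζ ^ (k i : ℕ)) ^ β i * ((ζ ^ (k i : ℕ))⁻¹) ^ α i) =
        if β = α then p.coeff β * (n : ℂ) ^ Fintype.card ι else 0 := by
      intro β hβ
      rw [← Finset.mul_sum]
      have h3 : ∑ k : ι → Fin n, ∏ i, ((ζ ^ (k i : ℕ)) ^ β i * ((ζ ^ (k i : ℕ))⁻¹) ^ α i) =
          ∏ i, ∑ a : Fin n, ((ζ ^ (a : ℕ)) ^ β i * ((ζ ^ (a : ℕ))⁻¹) ^ α i) := by
        rw [Finset.prod_univ_sum, Fintype.piFinset_univ]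
      rw [h3]
      have h4 : ∀ i, ∑ a : Fin n, ((ζ ^ (a : ℕ)) ^ β i * ((ζ ^ (a : ℕ))⁻¹) ^ α i) =
          if β i = α i then (n : ℂ) else 0 := fun i => horth _ _ (hβlt β hβ i) (hαlt i)
      simp_rw [h4]
      split_ifs with hba
      · subst hba
        simp
      · have : ∃ i, β i ≠ α i := by
          by_contra hcon
          push Not at hcon
          exact hba (Finsupp.ext hcon)
        obtain ⟨i, hi⟩ := this
        rw [Finset.prod_eq_zero (Finset.mem_univ i) (by simp [hi])]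
        simp
    rw [Finset.sum_congr rfl h2]
    rw [Finset.sum_ite_eq' p.support α]
    split_ifs with hα
    · rfl
    · rw [notMem_support_iff.mp hα]
      simp
  have hnorm : ‖∑ k : ι → Fin n, eval (fun i => ζ ^ (k i : ℕ)) p *
      ∏ i, ((ζ ^ (k i : ℕ))⁻¹) ^ α i‖ ≤ ∑ k : ι → Fin n, B := by
    refine (norm_sum_le _ _).trans ?_
    apply Finset.sum_le_sum
    intro k _
    rw [norm_mul, norm_prod]
    have : ∏ i, ‖((ζ ^ (k i : ℕ))⁻¹) ^ α i‖ = 1 := by
      apply Finset.prod_eq_one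
      intro i _
      simp [hζn]
    rw [this, mul_one]
    apply h
    intro i
    simp [hζn]
  rw [key, norm_mul, norm_pow] at hnorm
  simp only [Complex.norm_natCast, Finset.sum_const, Finset.card_univ, Fintype.card_pi,
    Fintype.card_fin, Finset.prod_const, nsmul_eq_mul, Nat.cast_pow] at hnorm
  have hpos : (0 : ℝ) < (n : ℝ) ^ Fintype.card ι := by positivity
  rw [mul_comm] at hnorm
  exact le_of_mul_le_mul_left hnorm hpos

/-- a nonzero integer polynomial is somewhere at least one on the closed polydisc -/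
theorem one_le_of_int (g : MvPolynomial ι ℤ) (hg : g ≠ 0) (B : ℝ)
    (h : ∀ z : ι → ℂ, (∀ i, ‖z i‖ ≤ 1) → ‖aeval z g‖ ≤ B) : 1 ≤ B := by
  obtain ⟨α, hα⟩ := MvPolynomial.exists_coeff_ne_zero hg
  have h1 := norm_coeff_le (MvPolynomial.map (Int.castRingHom ℂ) g) B (by
    intro z hz
    have := h z hz
    rwa [aeval_def, eval₂_eq_eval_map] at this) α
  rw [coeff_map] at h1
  refine le_trans ?_ h1
  simp only [eq_intCast, Complex.norm_intCast]
  exact_mod_cast Int.one_le_abs hα

end coeff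

section groups

theorem exists_congr (M : Submodule ℤ ℂ) [Module.Finite ℤ M] (q : ℕ) (hq : 0 < q) :
    ∃ f : M → (Fin (Module.finrank ℤ M) → ZMod q), ∀ x y : M, f x = f y →
      ∃ z : M, (x : ℂ) - y = (q : ℂ) * z := by
  have : Module.Free ℤ M := inferInstance
  let b := Module.finBasis ℤ M
  refine ⟨fun x i => ((b.repr x i : ℤ) : ZMod q), ?_⟩
  intro x y hxy
  have h1 : ∀ i, ∃ c : ℤ, b.repr x i - b.repr y i = q * c := by
    intro i
    have h2 := congrFun hxy i
    simp only at h2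
    have h3 : ((b.repr y i : ℤ) : ZMod q) = ((b.repr x i : ℤ) : ZMod q) := h2.symm
    rw [ZMod.intCast_eq_intCast_iff_dvd_sub] at h3
    exact h3
  choose c hc using h1
  refine ⟨∑ i, c i • b i, ?_⟩
  have h4 : x - y = (q : ℤ) • ∑ i, c i • b i := by
    apply b.repr.injective
    ext i
    rw [map_sub, Finsupp.sub_apply, hc, map_smul, Finsupp.smul_apply, map_sum]
    simp [Finsupp.finsetSum_apply, Finsupp.single_apply]
  have h5 : ((x - y : M) : ℂ) = (((q : ℤ) • ∑ i, c i • b i : M) : ℂ) := by rw [h4]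
  rw [Submodule.coe_sub, Submodule.coe_smul] at h5
  rw [h5]
  simp

theorem ncard_le_of_congr (M : Submodule ℤ ℂ) [Module.Finite ℤ M] (q : ℕ) (hq : 0 < q)
    (B B' : Set ℂ) (hB : ∀ x ∈ B, x ∈ M) (hB' : B'.Finite)
    (h : ∀ x ∈ B, ∀ y ∈ B, ∀ z ∈ M, x - y = (q : ℂ) * z → z ∈ B') :
    B.Finite ∧ B.ncard ≤ q ^ (Module.finrank ℤ M) * B'.ncard := by
  classical
  have : NeZero q := ⟨hq.ne'⟩
  obtain ⟨f, hf⟩ := exists_congr M q hq
  have hqC : (q : ℂ) ≠ 0 := by exact_mod_cast hq.ne'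
  let F : B → (Fin (Module.finrank ℤ M) → ZMod q) := fun x => f ⟨x, hB x x.2⟩
  -- representatives
  have hrep : ∀ x : B, ∃ x0 : B, F x0 = F x ∧ ∀ y : B, F y = F x →
      Classical.epsilon (fun w : ℂ => ∃ hw : w ∈ B, F ⟨w, hw⟩ = F x) = x0 := by
    intro x
    have hex : ∃ w : ℂ, ∃ hw : w ∈ B, F ⟨w, hw⟩ = F x := ⟨x, x.2, rfl⟩
    obtain ⟨hw, hw2⟩ := Classical.epsilon_spec hex
    exact ⟨⟨_, hw⟩, hw2, fun y _ => rfl⟩
  let e : (Fin (Module.finrank ℤ M) → ZMod q) → ℂ := fun v =>
    Classical.epsilon (fun w : ℂ => ∃ hw : w ∈ B, F ⟨w, hw⟩ = v)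
  have he : ∀ x : B, ∃ hw : e (F x) ∈ B, F ⟨e (F x), hw⟩ = F x := fun x =>
    Classical.epsilon_spec (p := fun w : ℂ => ∃ hw : w ∈ B, F ⟨w, hw⟩ = F x) ⟨x, x.2, rfl⟩
  have hmem : ∀ x : B, ((x : ℂ) - e (F x)) / q ∈ B' := by
    intro x
    obtain ⟨hw, hw2⟩ := he x
    obtain ⟨z, hz⟩ := hf ⟨x, hB x x.2⟩ ⟨e (F x), hB _ hw⟩ hw2.symm
    have hz' : (x : ℂ) - e (F x) = (q : ℂ) * (z : ℂ) := hz
    have : ((x : ℂ) - e (F x)) / q = z := by
      rw [hz']
      field_simp
    rw [this]
    exact h x x.2 _ hw z z.2 hz'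
  let g : B → (Fin (Module.finrank ℤ M) → ZMod q) × B' := fun x =>
    (F x, ⟨((x : ℂ) - e (F x)) / q, hmem x⟩)
  have hg : Function.Injective g := by
    intro x y hxy
    have h1 : F x = F y := congrArg Prod.fst hxy
    have h2 : ((x : ℂ) - e (F x)) / q = ((y : ℂ) - e (F y)) / q := by
      have := congrArg Prod.snd hxy
      exact congrArg Subtype.val this
    rw [h1] at h2
    apply Subtype.ext
    field_simp at h2
    linear_combination h2
  have : Finite B' := hB'.to_subtype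
  have : Finite B := Finite.of_injective g hg
  refine ⟨Set.toFinite B, ?_⟩
  have hcard := Nat.card_le_card_of_injective g hg
  rw [Nat.card_prod, Nat.card_fun, Nat.card_zmod, Nat.card_fin] at hcard
  simpa [Nat.card_coe_set_eq] using hcard

theorem finrank_int_le (M : Submodule ℤ ℂ) [Module.Finite ℤ M] (V : Submodule ℚ ℂ)
    [Module.Finite ℚ V] (h : ∀ z ∈ M, z ∈ V) : Module.finrank ℤ M ≤ Module.finrank ℚ V := by
  let b := Module.finBasis ℤ M
  have h1 : LinearIndependent ℤ (fun i => (b i : ℂ)) :=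
    b.linearIndependent.map' M.subtype M.ker_subtype
  have h2 : LinearIndependent ℚ (fun i => (b i : ℂ)) :=
    (LinearIndependent.iff_fractionRing ℤ ℚ).mp h1
  have h3 : LinearIndependent ℚ (fun i => (⟨(b i : ℂ), h _ (b i).2⟩ : V)) := by
    apply LinearIndependent.of_comp V.subtype
    exact h2
  have := h3.fintype_card_le_finrank
  simpa using this

end groups

end Pool.Agent.Helper60.LRBase
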