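import Pool.Agent.Helper23.TTDefs

/-!
# Existence of the Rieffel - van Daele operators (TT-A)
-/

open scoped InnerProductSpace Topology BoundedContinuousFunction
open ContinuousLinearMap Filter MeasureTheory

namespace Pool.Agent.Helper23

variable {H : Type*} [NormedAddCommGroup H] [InnerProductSpace ℂ H] [CompleteSpace H]

namespace TTA

set_option linter.unusedSectionVars false

lemma sa_decomp {A : VonNeumannAlgebra H} {a : H →L[ℂ] H} (ha : a ∈ A) :
    ∃ a1 ∈ A, ∃ a2 ∈ A, star a1 = a1 ∧ star a2 = a2 ∧ a = a1 + Complex.I • a2 ∧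
      star a = a1 - Complex.I • a2 := by
  refine ⟨(1 / 2 : ℂ) • (a + star a), smul_mem' _ (add_mem ha (star_mem ha)),
    (-Complex.I / 2 : ℂ) • (a - star a), smul_mem' _ (sub_mem ha (star_mem ha)), ?_, ?_, ?_, ?_⟩
  · rw [star_smul, star_add, star_star, add_comm (star a)]
    congr 1
    simp
  · rw [star_smul, star_sub, star_star, ← neg_sub a (star a), smul_neg, ← neg_smul]
    congr 1
    simp
    ring
  · rw [smul_smul, show Complex.I * (-Complex.I / 2) = 1 / 2 by
      linear_combination (-1 / 2 : ℂ) * Complex.I_mul_I, ← smul_add]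
    rw [show a + star a + (a - star a) = (2 : ℂ) • a by rw [two_smul]; abel, smul_smul]
    norm_num
  · rw [smul_smul, show Complex.I * (-Complex.I / 2) = 1 / 2 by
      linear_combination (-1 / 2 : ℂ) * Complex.I_mul_I, ← smul_sub]
    rw [show a + star a - (a - star a) = (2 : ℂ) • star a by rw [two_smul]; abel, smul_smul]
    norm_num

/-- real part of the inner product -/
noncomputable def rho (v w : H) : ℝ := (⟪v, w⟫_ℂ).re

lemma rho_comm (v w : H) : rho v w = rho w v := by
  unfold rho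
  rw [← inner_conj_symm, Complex.conj_re]

lemma rho_add_right (v w z : H) : rho v (w + z) = rho v w + rho v z := by
  unfold rho; rw [inner_add_right, Complex.add_re]

lemma rho_sub_right (v w z : H) : rho v (w - z) = rho v w - rho v z := by
  unfold rho; rw [inner_sub_right, Complex.sub_re]

lemma rho_add_left (v w z : H) : rho (v + w) z = rho v z + rho w z := by
  unfold rho; rw [inner_add_left, Complex.add_re]

lemma rho_sub_left (v w z : H) : rho (v - w) z = rho v z - rho w z := by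
  unfold rho; rw [inner_sub_left, Complex.sub_re]

lemma rho_neg_left (v w : H) : rho (-v) w = - rho v w := by
  unfold rho; rw [inner_neg_left, Complex.neg_re]

lemma rho_neg_right (v w : H) : rho v (-w) = - rho v w := by
  unfold rho; rw [inner_neg_right, Complex.neg_re]

lemma rho_I_right (v w : H) : rho v (Complex.I • w) = - (⟪v, w⟫_ℂ).im := by
  unfold rho; rw [inner_smul_right]; simp

lemma rho_I_left (v w : H) : rho (Complex.I • v) w = (⟪v, w⟫_ℂ).im := by
  unfold rho; rw [inner_smul_left]; simp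

lemma rho_I_I (v w : H) : rho (Complex.I • v) w = - rho v (Complex.I • w) := by
  rw [rho_I_left, rho_I_right]; ring

lemma rho_self (v : H) : rho v v = ‖v‖ ^ 2 := by
  unfold rho
  rw [inner_self_eq_norm_sq_to_K]
  norm_cast

lemma inner_ext_rho {v w v' w' : H} (h1 : rho v w = rho v' w')
    (h2 : (⟪v, w⟫_ℂ).im = (⟪v', w'⟫_ℂ).im) : ⟪v, w⟫_ℂ = ⟪v', w'⟫_ℂ := Complex.ext h1 h2

variable (A : VonNeumannAlgebra H) (ξ : H)

/-- the real inner product -/
noncomputable abbrev rips : InnerProductSpace ℝ H := InnerProductSpace.complexToReal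

attribute [local instance] rips

/-- the real subspace of vectors `a ξ`, `a` selfadjoint -/
def K0 : Submodule ℝ H where
  carrier := {x | ∃ a ∈ A, star a = a ∧ a ξ = x}
  add_mem' := by
    rintro _ _ ⟨a, ha, ha', rfl⟩ ⟨b, hb, hb', rfl⟩
    exact ⟨a + b, add_mem ha hb, by rw [star_add, ha', hb'], rfl⟩
  zero_mem' := ⟨0, zero_mem A, star_zero _, rfl⟩
  smul_mem' := by
    rintro c _ ⟨a, ha, ha', rfl⟩
    refine ⟨(c : ℂ) • a, smul_mem' _ ha, ?_, ?_⟩
    · rw [star_smul, ha']; simp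
    · change (c : ℂ) • a ξ = c • a ξ
      rw [Complex.coe_smul]

/-- its closure -/
noncomputable def K : Submodule ℝ H := (K0 A ξ).topologicalClosure

noncomputable instance : (K A ξ).HasOrthogonalProjection := by
  unfold K; infer_instance

/-- the real projection -/
noncomputable def P : H →L[ℝ] H := (K A ξ).starProjection

lemma K_closed : IsClosed (K A ξ : Set H) := Submodule.isClosed_topologicalClosure _

lemma mem_K_of {a : H →L[ℂ] H} (ha : a ∈ A) (ha' : star a = a) : a ξ ∈ K A ξ :=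
  Submodule.le_topologicalClosure _ ⟨a, ha, ha', rfl⟩

lemma P_of_mem {v : H} (hv : v ∈ K A ξ) : P A ξ v = v :=
  Submodule.starProjection_eq_self_iff.2 hv

lemma P_mem (v : H) : P A ξ v ∈ K A ξ := Submodule.starProjection_apply_mem _ _

lemma P_P (v : H) : P A ξ (P A ξ v) = P A ξ v := P_of_mem A ξ (P_mem A ξ v)

lemma rho_P (v w : H) : rho (P A ξ v) w = rho v (P A ξ w) := by
  have h := Submodule.inner_starProjection_left_eq_right (K A ξ) v w
  rw [real_inner_eq_re_inner ℂ, real_inner_eq_re_inner ℂ] at h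
  exact h

lemma norm_P_le (v : H) : ‖P A ξ v‖ ≤ ‖v‖ := Submodule.norm_starProjection_apply_le _ _

lemma mem_K_of_norm {v : H} (h : ‖P A ξ v‖ = ‖v‖) : v ∈ K A ξ :=
  (Submodule.mem_iff_norm_starProjection _ _).2 h

lemma P_eq_zero {v : H} (h : ∀ a ∈ A, star a = a → rho (a ξ) v = 0) : P A ξ v = 0 := by
  have h1 : ∀ k ∈ K A ξ, rho k v = 0 := by
    intro k hk
    have hcl : IsClosed {k : H | rho k v = 0} := by
      refine isClosed_eq ?_ continuous_const
      unfold rho
      exact Complex.continuous_re.comp (continuous_id.inner continuous_const)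
    have hsub : (K0 A ξ : Set H) ⊆ {k : H | rho k v = 0} := by
      rintro _ ⟨a, ha, ha', rfl⟩
      exact h a ha ha'
    exact closure_minimal hsub hcl hk
  have h2 := h1 _ (P_mem A ξ v)
  rw [rho_P, rho_comm, ← P_P, rho_P, rho_self] at h2
  simpa using h2

/-- the projection onto `i K` -/
noncomputable def Q (v : H) : H := -(Complex.I • P A ξ (Complex.I • v))

lemma I_smul_Q (v : H) : Complex.I • Q A ξ v = P A ξ (Complex.I • v) := by
  unfold Q
  rw [smul_neg, smul_smul, Complex.I_mul_I, neg_one_smul, neg_neg]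

lemma Q_I_smul (v : H) : Q A ξ (Complex.I • v) = Complex.I • P A ξ v := by
  unfold Q
  rw [smul_smul, Complex.I_mul_I, neg_one_smul, map_neg, smul_neg, neg_neg]

lemma Q_add (v w : H) : Q A ξ (v + w) = Q A ξ v + Q A ξ w := by
  unfold Q
  rw [smul_add, map_add, smul_add, neg_add]

lemma Q_sub (v w : H) : Q A ξ (v - w) = Q A ξ v - Q A ξ w := by
  unfold Q
  rw [smul_sub, map_sub, smul_sub]; abel

lemma Q_Q (v : H) : Q A ξ (Q A ξ v) = Q A ξ v := by
  rw [Q, I_smul_Q, P_P]; rfl

lemma norm_Q_le (v : H) : ‖Q A ξ v‖ ≤ ‖v‖ := by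
  unfold Q
  rw [norm_neg, norm_smul, Complex.norm_I, one_mul]
  refine (norm_P_le A ξ _).trans ?_
  rw [norm_smul, Complex.norm_I, one_mul]

lemma rho_Q (v w : H) : rho (Q A ξ v) w = rho v (Q A ξ w) := by
  unfold Q
  rw [rho_neg_left, rho_I_I, rho_P, rho_I_I, rho_neg_right, neg_neg]

lemma Q_real_smul (c : ℝ) (v : H) : Q A ξ (c • v) = c • Q A ξ v := by
  unfold Q
  rw [smul_comm Complex.I c v, map_smul, smul_comm Complex.I c, smul_neg]

/-- `Q` as a real linear operator -/
noncomputable def QL : H →L[ℝ] H :=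
  LinearMap.mkContinuous
    { toFun := Q A ξ, map_add' := Q_add A ξ, map_smul' := Q_real_smul A ξ } 1
    (fun v => by rw [one_mul]; exact norm_Q_le A ξ v)

lemma QL_apply (v : H) : QL A ξ v = Q A ξ v := rfl

/-- `D = P - Q` -/
noncomputable def Dop : H →L[ℝ] H := P A ξ - QL A ξ

lemma Dop_apply (v : H) : Dop A ξ v = P A ξ v - Q A ξ v := rfl

lemma Dop_I (v : H) : Dop A ξ (Complex.I • v) = -(Complex.I • Dop A ξ v) := by
  rw [Dop_apply, Dop_apply, Q_I_smul, smul_sub, I_smul_Q]
  abel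

lemma smul_split (c : ℂ) (v : H) : c • v = c.re • v + c.im • (Complex.I • v) := by
  conv_lhs => rw [← Complex.re_add_im c]
  rw [add_smul, mul_smul, Complex.coe_smul, Complex.coe_smul]

/-- `R = P + Q` -/
noncomputable def Rop : H →L[ℂ] H :=
  LinearMap.mkContinuous
    { toFun := fun v => P A ξ v + Q A ξ v
      map_add' := by
        intro v w
        rw [map_add, Q_add]; abel
      map_smul' := by
        intro c v
        rw [RingHom.id_apply, smul_split c v, smul_split c (P A ξ v + Q A ξ v), map_add, Q_add,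
          map_smul, map_smul, Q_real_smul, Q_real_smul, Q_I_smul, ← I_smul_Q, smul_add, smul_add,
          smul_add]
        abel } 2
    (fun v => by
      change ‖P A ξ v + Q A ξ v‖ ≤ 2 * ‖v‖
      have h1 := norm_P_le A ξ v
      have h2 := norm_Q_le A ξ v
      have h3 := norm_add_le (P A ξ v) (Q A ξ v)
      linarith)

lemma Rop_apply (v : H) : Rop A ξ v = P A ξ v + Q A ξ v := rfl

lemma rho_R (v w : H) : rho (Rop A ξ v) w = rho v (Rop A ξ w) := by
  rw [Rop_apply, Rop_apply, rho_add_left, rho_add_right, rho_P, rho_Q]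

lemma rho_D (v w : H) : rho (Dop A ξ v) w = rho v (Dop A ξ w) := by
  rw [Dop_apply, Dop_apply, rho_sub_left, rho_sub_right, rho_P, rho_Q]

lemma rho_R_self (v : H) : (⟪v, Rop A ξ v⟫_ℂ).re = ‖P A ξ v‖ ^ 2 + ‖Q A ξ v‖ ^ 2 := by
  change rho v (Rop A ξ v) = _
  rw [Rop_apply, rho_add_right, ← P_P, ← rho_P, rho_self, ← Q_Q, ← rho_Q, rho_self, P_P, Q_Q]

lemma inner_zero_of {v w : H} (h1 : rho v w = 0) (h2 : rho v (Complex.I • w) = 0) :
    ⟪v, w⟫_ℂ = 0 := by
  apply Complex.ext
  · exact h1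
  · rw [rho_I_right] at h2
    simpa using h2

lemma zero_of_dense {V : Set H} (hV : Dense V) {v : H} (h : ∀ w ∈ V, ⟪w, v⟫_ℂ = 0) : v = 0 := by
  have hcl : IsClosed {w : H | ⟪w, v⟫_ℂ = 0} :=
    isClosed_eq (continuous_id.inner continuous_const) continuous_const
  have h1 : ⟪v, v⟫_ℂ = 0 := closure_minimal (fun w hw => h w hw) hcl (hV v)
  exact inner_self_eq_zero.1 h1

lemma inner_real {a' b : H →L[ℂ] H} (ha : a' ∈ A.commutant) (ha' : star a' = a') (hb : b ∈ A)
    (hb' : star b = b) : (⟪b ξ, a' ξ⟫_ℂ).im = 0 := by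
  have h1 : ⟪b ξ, a' ξ⟫_ℂ = ⟪a' ξ, b ξ⟫_ℂ := by
    rw [← inner_star_right b, hb', ← inner_star_right a', ha', commute_apply hb ha]
  have h2 := congrArg Complex.im h1
  rw [← inner_conj_symm (a' ξ), Complex.conj_im] at h2
  linarith

lemma Q_comm_zero {a' : H →L[ℂ] H} (ha : a' ∈ A.commutant) (ha' : star a' = a') :
    Q A ξ (a' ξ) = 0 := by
  unfold Q
  rw [P_eq_zero, smul_zero, neg_zero]
  intro b hb hb'
  rw [rho_I_right, inner_real A ξ ha ha' hb hb', neg_zero]

end TTA

open TTA in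
/-- MODULE TT-A -/
theorem exists_TTData (A : VonNeumannAlgebra H) (ξ : H) (hcyc : Dense (orb A ξ : Set H))
    (hsep : ∀ a ∈ A, a ξ = 0 → a = 0) :
    ∃ (R : H →L[ℂ] H) (D : H →L[ℝ] H), TTData A ξ R D := by
  have hcyc' : Dense (orb A.commutant ξ : Set H) := dense_of_separating A ξ hsep
  have hDconj : ∀ (c : ℂ) (v : H), Dop A ξ (c • v) = (starRingEnd ℂ) c • Dop A ξ v := by
    intro c v
    rw [smul_split c v, smul_split ((starRingEnd ℂ) c), map_add, map_smul, map_smul, Dop_I,
      Complex.conj_re, Complex.conj_im, smul_neg, neg_smul]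
  refine ⟨Rop A ξ, Dop A ξ, ?_, ?_, ?_, ?_, ?_, hDconj, ?_, ?_, ?_, ?_, ?_⟩
  · -- star R = R
    apply ContinuousLinearMap.ext
    intro v
    apply ext_inner_right ℂ
    intro w
    rw [inner_star_left]
    apply inner_ext_rho
    · rw [rho_R]
    · rw [← rho_I_left, ← rho_I_left, rho_I_I, rho_I_I, rho_R, map_smul]
  · intro v
    rw [rho_R_self]; positivity
  · intro v
    rw [rho_R_self]
    have h1 := norm_P_le A ξ v
    have h2 := norm_Q_le A ξ v
    nlinarith [norm_nonneg (P A ξ v), norm_nonneg (Q A ξ v), norm_nonneg v]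
  · intro v hv
    have h1 := rho_R_self A ξ v
    rw [hv, inner_zero_right, Complex.zero_re] at h1
    have hP : P A ξ v = 0 := by
      have : ‖P A ξ v‖ ^ 2 = 0 := by nlinarith [sq_nonneg ‖P A ξ v‖, sq_nonneg ‖Q A ξ v‖]
      simpa using this
    have hQ : Q A ξ v = 0 := by
      have : ‖Q A ξ v‖ ^ 2 = 0 := by nlinarith [sq_nonneg ‖P A ξ v‖, sq_nonneg ‖Q A ξ v‖]
      simpa using this
    have hQ' : P A ξ (Complex.I • v) = 0 := by rw [← I_smul_Q, hQ, smul_zero]
    have hsa : ∀ b ∈ A, star b = b → ⟪b ξ, v⟫_ℂ = 0 := by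
      intro b hb hb'
      have hbK := P_of_mem A ξ (mem_K_of A ξ hb hb')
      apply inner_zero_of
      · rw [← hbK, rho_P, hP, rho, inner_zero_right, Complex.zero_re]
      · rw [← hbK, rho_P, hQ', rho, inner_zero_right, Complex.zero_re]
    apply zero_of_dense hcyc
    rintro _ ⟨a, ha, rfl⟩
    obtain ⟨a1, h1, a2, h2, hs1, hs2, hdec, -⟩ := sa_decomp ha
    rw [hdec, add_apply, inner_add_left, hsa a1 h1 hs1, smul_apply, inner_smul_left, hsa a2 h2 hs2,
      mul_zero, add_zero]
  · intro v hv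
    have h1 := rho_R_self A ξ v
    rw [hv, inner_smul_right, inner_self_eq_norm_sq_to_K] at h1
    have h2 : ((2 : ℂ) * ((‖v‖ : ℂ)) ^ 2).re = 2 * ‖v‖ ^ 2 := by norm_cast
    have h1' : 2 * ‖v‖ ^ 2 = ‖P A ξ v‖ ^ 2 + ‖Q A ξ v‖ ^ 2 := by rw [← h1, ← h2]; rfl
    have hP := norm_P_le A ξ v
    have hQ := norm_Q_le A ξ v
    have hPe : ‖P A ξ v‖ = ‖v‖ := by
      apply le_antisymm hP
      nlinarith [norm_nonneg (P A ξ v), norm_nonneg (Q A ξ v), norm_nonneg v]
    have hQe : ‖Q A ξ v‖ = ‖v‖ := by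
      apply le_antisymm hQ
      nlinarith [norm_nonneg (P A ξ v), norm_nonneg (Q A ξ v), norm_nonneg v]
    have hvK : v ∈ K A ξ := mem_K_of_norm A ξ hPe
    have hIvK : Complex.I • v ∈ K A ξ := by
      apply mem_K_of_norm
      rw [← I_smul_Q, norm_smul, norm_smul, hQe]
    have hsa : ∀ a' ∈ A.commutant, star a' = a' → ∀ k ∈ K A ξ, (⟪a' ξ, k⟫_ℂ).im = 0 := by
      intro a' ha ha' k hk
      have hcl : IsClosed {k : H | (⟪a' ξ, k⟫_ℂ).im = 0} :=
        isClosed_eq (Complex.continuous_im.comp (continuous_const.inner continuous_id))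
          continuous_const
      have hsub : (K0 A ξ : Set H) ⊆ {k : H | (⟪a' ξ, k⟫_ℂ).im = 0} := by
        rintro _ ⟨b, hb, hb', rfl⟩
        change (⟪a' ξ, b ξ⟫_ℂ).im = 0
        rw [← inner_conj_symm, Complex.conj_im, inner_real A ξ ha ha' hb hb', neg_zero]
      exact closure_minimal hsub hcl hk
    have hsa' : ∀ a' ∈ A.commutant, star a' = a' → ⟪a' ξ, v⟫_ℂ = 0 := by
      intro a' ha ha'
      have e1 := hsa a' ha ha' v hvK
      have e2 := hsa a' ha ha' _ hIvK
      rw [inner_smul_right] at e2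
      apply Complex.ext
      · simpa using e2
      · exact e1
    apply zero_of_dense hcyc'
    rintro _ ⟨a, ha, rfl⟩
    obtain ⟨a1, h1, a2, h2, hs1, hs2, hdec, -⟩ := sa_decomp ha
    rw [hdec, add_apply, inner_add_left, hsa' a1 h1 hs1, smul_apply, inner_smul_left,
      hsa' a2 h2 hs2, mul_zero, add_zero]
  · -- D_symm
    intro v w
    apply inner_ext_rho
    · rw [← rho_D, rho_comm]
    · have h1 : (⟪v, Dop A ξ w⟫_ℂ).im = rho v (Dop A ξ (Complex.I • w)) := by
        rw [Dop_I, rho_neg_right, rho_I_right, neg_neg]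
      rw [h1, ← rho_D, rho_comm, rho_I_left]
  · -- D_sq
    intro v
    rw [map_sub, map_smul, two_smul, Rop_apply, Rop_apply, Dop_apply, Dop_apply, map_sub, Q_sub,
      map_add, Q_add, P_P, Q_Q]
    abel
  · -- D_R
    intro v
    rw [two_smul, Rop_apply, Rop_apply, Dop_apply, Dop_apply, map_add, Q_add, map_sub, Q_sub, P_P,
      Q_Q]
    abel
  · -- D_mem
    have hsa : ∀ b ∈ A, star b = b → Dop A ξ (b ξ) = (2 : ℂ) • b ξ - Rop A ξ (b ξ) := by
      intro b hb hb'
      rw [Dop_apply, Rop_apply, P_of_mem A ξ (mem_K_of A ξ hb hb'), two_smul]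
      abel
    intro a ha
    obtain ⟨a1, h1, a2, h2, hs1, hs2, hdec, hdec'⟩ := sa_decomp ha
    have e1 : a ξ = a1 ξ + Complex.I • a2 ξ := by rw [hdec]; rfl
    have e2 : (star a) ξ = a1 ξ - Complex.I • a2 ξ := by rw [hdec']; rfl
    rw [e1, e2, map_add, Dop_I, hsa a1 h1 hs1, hsa a2 h2 hs2, map_sub, map_smul, smul_sub, smul_sub,
      smul_comm (2 : ℂ) Complex.I]
    abel
  · -- D_comm
    have hsa : ∀ b ∈ A.commutant, star b = b → Dop A ξ (b ξ) = Rop A ξ (b ξ) := by
      intro b hb hb'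
      rw [Dop_apply, Rop_apply, Q_comm_zero A ξ hb hb', sub_zero, add_zero]
    intro a ha
    obtain ⟨a1, h1, a2, h2, hs1, hs2, hdec, hdec'⟩ := sa_decomp ha
    have e1 : a ξ = a1 ξ + Complex.I • a2 ξ := by rw [hdec]; rfl
    have e2 : (star a) ξ = a1 ξ - Complex.I • a2 ξ := by rw [hdec']; rfl
    rw [e1, e2, map_add, Dop_I, hsa a1 h1 hs1, hsa a2 h2 hs2, map_sub, map_smul]
    abel

end Pool.Agent.Helper23
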