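import Mathlib

namespace Pool.Agent.Helper60.UnitCoeff

/-- code of a letter; the sum of the codes records both length and content -/
def code (i : Fin 5) : ℕ := 1000 + 3 ^ i.val

/-- content code of a word -/
def cont : List (Fin 5) → ℕ
  | [] => 0
  | a :: w => code a + cont w

theorem cont_append (u v : List (Fin 5)) : cont (u ++ v) = cont u + cont v := by
  induction u with
  | nil => simp [cont]
  | cons a u ih => simp [cont, ih, Nat.add_assoc]

theorem code_bounds (a : Fin 5) : 1001 ≤ code a ∧ code a ≤ 1081 := by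
  fin_cases a <;> simp [code]

theorem cont_bounds (w : List (Fin 5)) :
    w.length * 1001 ≤ cont w ∧ cont w ≤ w.length * 1081 := by
  induction w with
  | nil => simp [cont]
  | cons a w ih =>
    have := code_bounds a
    have e : cont (a :: w) = code a + cont w := rfl
    have e2 : (a :: w).length = w.length + 1 := rfl
    rcases this with ⟨h1, h2⟩
    rcases ih with ⟨h3, h4⟩
    constructor
    · rw [e, e2]; linarith
    · rw [e, e2]; linarith

/-- the elementary functional on triples -/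
def l3 (A : ℕ) (a : Fin 5) (B : ℕ) : ℕ :=
  if (A = cont [0, 0] ∧ a = 1 ∧ B = cont [2, 3, 4]) ∨
     (A = cont [0, 2, 2] ∧ a = 1 ∧ B = cont [3, 4]) ∨
     (A = cont [0] ∧ a = 3 ∧ B = cont [1, 1, 2, 4]) then 1 else 0

/-- the derivation-like functional -/
def D (A : ℕ) : List (Fin 5) → ℕ → ℕ
  | [], _ => 0
  | a :: w, B => l3 A a (cont w + B) + D (A + code a) w B

theorem D_append (A : ℕ) (u v : List (Fin 5)) (B : ℕ) :
    D A (u ++ v) B = D A u (cont v + B) + D (A + cont u) v B := by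
  induction u generalizing A with
  | nil => simp [D, cont]
  | cons a u ih =>
    simp only [List.cons_append, D, ih, cont, cont_append]
    rw [Nat.add_assoc, Nat.add_assoc, Nat.add_assoc]

theorem F1 (u a b c d v : List (Fin 5)) :
    D 0 (u ++ a ++ b ++ c ++ d ++ v) 0 + D 0 (u ++ b ++ a ++ d ++ c ++ v) 0 =
    D 0 (u ++ b ++ a ++ c ++ d ++ v) 0 + D 0 (u ++ a ++ b ++ d ++ c ++ v) 0 := by
  simp only [D_append, cont_append]
  ring_nf

theorem l3_eq_zero (A : ℕ) (a : Fin 5) (B : ℕ)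
    (h : A + code a + B ≠ cont [0, 0, 1, 2, 3, 4] ∧ A + code a + B ≠ cont [0, 1, 2, 2, 3, 4] ∧
      A + code a + B ≠ cont [0, 1, 1, 2, 3, 4]) : l3 A a B = 0 := by
  unfold l3
  rw [if_neg]
  rintro (⟨rfl, rfl, rfl⟩ | ⟨rfl, rfl, rfl⟩ | ⟨rfl, rfl, rfl⟩)
  · exact h.1 (by decide)
  · exact h.2.1 (by decide)
  · exact h.2.2 (by decide)

theorem D_eq_zero (A : ℕ) (w : List (Fin 5)) (B : ℕ)
    (h : A + cont w + B ≠ cont [0, 0, 1, 2, 3, 4] ∧ A + cont w + B ≠ cont [0, 1, 2, 2, 3, 4] ∧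
      A + cont w + B ≠ cont [0, 1, 1, 2, 3, 4]) : D A w B = 0 := by
  induction w generalizing A with
  | nil => rfl
  | cons a w ih =>
    have e : A + cont (a :: w) + B = A + code a + (cont w + B) := by
      simp only [cont]; ring
    have e' : A + cont (a :: w) + B = A + code a + cont w + B := by
      simp only [cont]; ring
    simp only [D]
    rw [l3_eq_zero _ _ _ (by rw [← e]; exact h), ih _ (by rw [← e']; exact h)]

theorem D_length (w : List (Fin 5)) (h : w.length ≠ 6) : D 0 w 0 = 0 := by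
  apply D_eq_zero
  have hb := cont_bounds w
  rw [Nat.zero_add, Nat.add_zero]
  have h1 : cont [0, 0, 1, 2, 3, 4] = 6122 := by decide
  have h2 : cont [0, 1, 2, 2, 3, 4] = 6130 := by decide
  have h3 : cont [0, 1, 1, 2, 3, 4] = 6124 := by decide
  rw [h1, h2, h3]
  rcases hb with ⟨hb1, hb2⟩
  have : w.length ≤ 5 ∨ 7 ≤ w.length := by omega
  rcases this with h5 | h7
  · have : cont w ≤ 5405 := by linarith
    omega
  · have : 7007 ≤ cont w := by linarith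
    omega

/-- the word functional detecting 01234 -/
def dl (w : List (Fin 5)) : ℕ := if w = [0, 1, 2, 3, 4] then 1 else 0

theorem dl_length (w : List (Fin 5)) (h : w.length ≠ 5) : dl w = 0 := by
  unfold dl
  rw [if_neg]
  rintro rfl
  exact h rfl


/-- the sum of `dl` over the sixteen words of `u L(w) v` -/
def totL (u w0 w1 w2 w3 v : List (Fin 5)) : ℕ :=
  dl (u ++ w0 ++ w1 ++ w3 ++ w2 ++ v) + dl (u ++ w1 ++ w0 ++ w3 ++ w2 ++ v) +
  dl (u ++ w0 ++ w1 ++ w2 ++ w3 ++ v) + dl (u ++ w1 ++ w0 ++ w2 ++ w3 ++ v) +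
  dl (u ++ w0 ++ w2 ++ w3 ++ w1 ++ v) + dl (u ++ w2 ++ w0 ++ w3 ++ w1 ++ v) +
  dl (u ++ w0 ++ w2 ++ w1 ++ w3 ++ v) + dl (u ++ w2 ++ w0 ++ w1 ++ w3 ++ v) +
  dl (u ++ w3 ++ w1 ++ w0 ++ w2 ++ v) + dl (u ++ w1 ++ w3 ++ w0 ++ w2 ++ v) +
  dl (u ++ w3 ++ w1 ++ w2 ++ w0 ++ v) + dl (u ++ w1 ++ w3 ++ w2 ++ w0 ++ v) +
  dl (u ++ w3 ++ w2 ++ w0 ++ w1 ++ v) + dl (u ++ w2 ++ w3 ++ w0 ++ w1 ++ v) +
  dl (u ++ w3 ++ w2 ++ w1 ++ w0 ++ v) + dl (u ++ w2 ++ w3 ++ w1 ++ w0 ++ v)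

/-- sum of `D` over the eight words of `u (x^2 A + B x^2) v`,
`A = {j,i'}k + {k,i'}j`, `B = j{k,i'} + k{j,i'}` -/
def totG (u x i' j k v : List (Fin 5)) : ℕ :=
  D 0 (u ++ x ++ x ++ j ++ i' ++ k ++ v) 0 + D 0 (u ++ x ++ x ++ i' ++ j ++ k ++ v) 0 +
  D 0 (u ++ x ++ x ++ k ++ i' ++ j ++ v) 0 + D 0 (u ++ x ++ x ++ i' ++ k ++ j ++ v) 0 +
  D 0 (u ++ j ++ k ++ i' ++ x ++ x ++ v) 0 + D 0 (u ++ j ++ i' ++ k ++ x ++ x ++ v) 0 +
  D 0 (u ++ k ++ j ++ i' ++ x ++ x ++ v) 0 + D 0 (u ++ k ++ i' ++ j ++ x ++ x ++ v) 0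

/-- the contents that matter in degree six -/
def good (n : ℕ) : Bool := n == 6122 || n == 6130 || n == 6124

theorem D_zero' (w : List (Fin 5)) (n : ℕ) (hw : cont w = n) (h : good n = false) :
    D 0 w 0 = 0 := by
  apply D_eq_zero
  rw [Nat.zero_add, Nat.add_zero, hw]
  have h1 : cont [0, 0, 1, 2, 3, 4] = 6122 := by decide
  have h2 : cont [0, 1, 2, 2, 3, 4] = 6130 := by decide
  have h3 : cont [0, 1, 1, 2, 3, 4] = 6124 := by decide
  rw [h1, h2, h3]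
  simp only [good, Bool.or_eq_false_iff, beq_eq_false_iff_ne] at h
  tauto

theorem totG_zero (u x i' j k v : List (Fin 5)) (n : ℕ)
    (hn : cont u + 2 * cont x + cont i' + cont j + cont k + cont v = n) (h : good n = false) :
    totG u x i' j k v = 0 := by
  unfold totG
  rw [D_zero' _ n _ h, D_zero' _ n _ h, D_zero' _ n _ h, D_zero' _ n _ h, D_zero' _ n _ h,
    D_zero' _ n _ h, D_zero' _ n _ h, D_zero' _ n _ h] <;>
  · simp only [cont_append] <;> linarith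

theorem dl_zero' (w : List (Fin 5)) (n : ℕ) (hw : cont w = n) (h : n ≠ 5121) : dl w = 0 := by
  unfold dl
  rw [if_neg]
  rintro rfl
  exact h (hw ▸ by decide)

theorem totL_zero (u w0 w1 w2 w3 v : List (Fin 5)) (n : ℕ)
    (hn : cont u + cont w0 + cont w1 + cont w2 + cont w3 + cont v = n) (h : n ≠ 5121) :
    totL u w0 w1 w2 w3 v = 0 := by
  unfold totL
  rw [dl_zero' _ n _ h, dl_zero' _ n _ h, dl_zero' _ n _ h, dl_zero' _ n _ h,
    dl_zero' _ n _ h, dl_zero' _ n _ h, dl_zero' _ n _ h, dl_zero' _ n _ h,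
    dl_zero' _ n _ h, dl_zero' _ n _ h, dl_zero' _ n _ h, dl_zero' _ n _ h,
    dl_zero' _ n _ h, dl_zero' _ n _ h, dl_zero' _ n _ h, dl_zero' _ n _ h] <;>
  · simp only [cont_append] <;> linarith

def tot (u w0 w1 w2 w3 v : List (Fin 5)) : ℕ :=
  totL u w0 w1 w2 w3 v + (totG u w0 w3 w1 w2 v + totG u w3 w0 w1 w2 v +
    totG u w1 w2 w0 w3 v + totG u w2 w1 w0 w3 v)

/-- does the content of the word matter at all? -/
def test (c c0 c1 c2 c3 : ℕ) : Bool :=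
  c == 5121 || good (c + c0) || good (c + c1) || good (c + c2) || good (c + c3)

theorem tot_zero (u w0 w1 w2 w3 v : List (Fin 5)) 
    (h : test (cont u + cont w0 + cont w1 + cont w2 + cont w3 + cont v)
      (cont w0) (cont w1) (cont w2) (cont w3) = false) : tot u w0 w1 w2 w3 v = 0 := by
  unfold test at h
  simp only [Bool.or_eq_false_iff, beq_eq_false_iff_ne] at h
  obtain ⟨⟨⟨⟨h, h0⟩, h1⟩, h2⟩, h3⟩ := h
  unfold tot
  rw [totL_zero _ _ _ _ _ _ _ rfl h, totG_zero _ _ _ _ _ _ _ _ h0, totG_zero _ _ _ _ _ _ _ _ h3,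
    totG_zero _ _ _ _ _ _ _ _ h1, totG_zero _ _ _ _ _ _ _ _ h2] <;> ring

def chk (u w0 w1 w2 w3 v : List (Fin 5)) : Bool :=
  bif test (cont u + cont w0 + cont w1 + cont w2 + cont w3 + cont v)
      (cont w0) (cont w1) (cont w2) (cont w3) then tot u w0 w1 w2 w3 v % 2 == 0 else true

theorem chk_imp (u w0 w1 w2 w3 v : List (Fin 5)) (h : chk u w0 w1 w2 w3 v = true) :
    tot u w0 w1 w2 w3 v % 2 = 0 := by
  unfold chk at h
  cases ht : test (cont u + cont w0 + cont w1 + cont w2 + cont w3 + cont v)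
      (cont w0) (cont w1) (cont w2) (cont w3) with
  | true => rw [ht] at h; simpa using h
  | false => rw [tot_zero _ _ _ _ _ _ ht]

theorem pat1 : ∀ a b c d e : Fin 5, chk [a] [b] [c] [d] [e] [] = true := by
  decide +kernel

theorem pat2 : ∀ a b c d e : Fin 5, chk [] [a] [b] [c] [d] [e] = true := by
  decide +kernel

theorem pat3 : ∀ a b c d e : Fin 5, chk [] [a, b] [c] [d] [e] [] = true := by
  decide +kernel

theorem pat4 : ∀ a b c d e : Fin 5, chk [] [a] [b, c] [d] [e] [] = true := by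
  decide +kernel

theorem pat5 : ∀ a b c d e : Fin 5, chk [] [a] [b] [c, d] [e] [] = true := by
  decide +kernel

theorem pat6 : ∀ a b c d e : Fin 5, chk [] [a] [b] [c] [d, e] [] = true := by
  decide +kernel

theorem totL_length (u w0 w1 w2 w3 v : List (Fin 5))
    (h : u.length + w0.length + w1.length + w2.length + w3.length + v.length ≠ 5) :
    totL u w0 w1 w2 w3 v = 0 := by
  have e : ∀ w : List (Fin 5), w.length = u.length + w0.length + w1.length + w2.length +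
      w3.length + v.length → dl w = 0 := fun w hw => dl_length w (by rw [hw]; exact h)
  unfold totL
  rw [e (u ++ w0 ++ w1 ++ w3 ++ w2 ++ v), e (u ++ w1 ++ w0 ++ w3 ++ w2 ++ v),
    e (u ++ w0 ++ w1 ++ w2 ++ w3 ++ v), e (u ++ w1 ++ w0 ++ w2 ++ w3 ++ v),
    e (u ++ w0 ++ w2 ++ w3 ++ w1 ++ v), e (u ++ w2 ++ w0 ++ w3 ++ w1 ++ v),
    e (u ++ w0 ++ w2 ++ w1 ++ w3 ++ v), e (u ++ w2 ++ w0 ++ w1 ++ w3 ++ v),
    e (u ++ w3 ++ w1 ++ w0 ++ w2 ++ v), e (u ++ w1 ++ w3 ++ w0 ++ w2 ++ v),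
    e (u ++ w3 ++ w1 ++ w2 ++ w0 ++ v), e (u ++ w1 ++ w3 ++ w2 ++ w0 ++ v),
    e (u ++ w3 ++ w2 ++ w0 ++ w1 ++ v), e (u ++ w2 ++ w3 ++ w0 ++ w1 ++ v),
    e (u ++ w3 ++ w2 ++ w1 ++ w0 ++ v), e (u ++ w2 ++ w3 ++ w1 ++ w0 ++ v)] <;>
  · simp only [List.length_append] <;> omega

theorem totG_length (u x i' j k v : List (Fin 5))
    (h : u.length + 2 * x.length + i'.length + j.length + k.length + v.length ≠ 6) :
    totG u x i' j k v = 0 := by
  have e : ∀ w : List (Fin 5), w.length = u.length + 2 * x.length + i'.length + j.length +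
      k.length + v.length → D 0 w 0 = 0 := fun w hw => D_length w (by rw [hw]; exact h)
  unfold totG
  rw [e (u ++ x ++ x ++ j ++ i' ++ k ++ v), e (u ++ x ++ x ++ i' ++ j ++ k ++ v),
    e (u ++ x ++ x ++ k ++ i' ++ j ++ v), e (u ++ x ++ x ++ i' ++ k ++ j ++ v),
    e (u ++ j ++ k ++ i' ++ x ++ x ++ v), e (u ++ j ++ i' ++ k ++ x ++ x ++ v),
    e (u ++ k ++ j ++ i' ++ x ++ x ++ v), e (u ++ k ++ i' ++ j ++ x ++ x ++ v)] <;>
  · simp only [List.length_append] <;> omega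

/-- the key parity statement -/
theorem tot_even (u w0 w1 w2 w3 v : List (Fin 5)) (h0 : w0 ≠ []) (h1 : w1 ≠ []) (h2 : w2 ≠ [])
    (h3 : w3 ≠ []) : tot u w0 w1 w2 w3 v % 2 = 0 := by
  have l0 : 0 < w0.length := List.length_pos_iff.mpr h0
  have l1 : 0 < w1.length := List.length_pos_iff.mpr h1
  have l2 : 0 < w2.length := List.length_pos_iff.mpr h2
  have l3 : 0 < w3.length := List.length_pos_iff.mpr h3
  by_cases h : u.length + w0.length + w1.length + w2.length + w3.length + v.length = 5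
  · have cases : (u.length = 1 ∧ w0.length = 1 ∧ w1.length = 1 ∧ w2.length = 1 ∧ w3.length = 1 ∧
        v.length = 0) ∨
      (u.length = 0 ∧ w0.length = 1 ∧ w1.length = 1 ∧ w2.length = 1 ∧ w3.length = 1 ∧
        v.length = 1) ∨
      (u.length = 0 ∧ w0.length = 2 ∧ w1.length = 1 ∧ w2.length = 1 ∧ w3.length = 1 ∧
        v.length = 0) ∨
      (u.length = 0 ∧ w0.length = 1 ∧ w1.length = 2 ∧ w2.length = 1 ∧ w3.length = 1 ∧
        v.length = 0) ∨
      (u.length = 0 ∧ w0.length = 1 ∧ w1.length = 1 ∧ w2.length = 2 ∧ w3.length = 1 ∧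
        v.length = 0) ∨
      (u.length = 0 ∧ w0.length = 1 ∧ w1.length = 1 ∧ w2.length = 1 ∧ w3.length = 2 ∧
        v.length = 0) := by omega
    simp only [List.length_eq_zero_iff, List.length_eq_one_iff, List.length_eq_two] at cases
    apply chk_imp
    rcases cases with c | c | c | c | c | c
    · obtain ⟨⟨a, rfl⟩, ⟨b, rfl⟩, ⟨c, rfl⟩, ⟨d, rfl⟩, ⟨e, rfl⟩, rfl⟩ := c
      exact pat1 a b c d e
    · obtain ⟨rfl, ⟨a, rfl⟩, ⟨b, rfl⟩, ⟨c, rfl⟩, ⟨d, rfl⟩, ⟨e, rfl⟩⟩ := c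
      exact pat2 a b c d e
    · obtain ⟨rfl, ⟨a, b, rfl⟩, ⟨c, rfl⟩, ⟨d, rfl⟩, ⟨e, rfl⟩, rfl⟩ := c
      exact pat3 a b c d e
    · obtain ⟨rfl, ⟨a, rfl⟩, ⟨b, c, rfl⟩, ⟨d, rfl⟩, ⟨e, rfl⟩, rfl⟩ := c
      exact pat4 a b c d e
    · obtain ⟨rfl, ⟨a, rfl⟩, ⟨b, rfl⟩, ⟨c, d, rfl⟩, ⟨e, rfl⟩, rfl⟩ := c
      exact pat5 a b c d e
    · obtain ⟨rfl, ⟨a, rfl⟩, ⟨b, rfl⟩, ⟨c, rfl⟩, ⟨d, e, rfl⟩, rfl⟩ := c
      exact pat6 a b c d e
  · unfold tot
    rw [totL_length _ _ _ _ _ _ h, totG_length _ _ _ _ _ _ (by omega),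
      totG_length _ _ _ _ _ _ (by omega), totG_length _ _ _ _ _ _ (by omega),
      totG_length _ _ _ _ _ _ (by omega)]

end Pool.Agent.Helper60.UnitCoeff
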