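import Mathlib
import Pool.Agent.Helper60.UnitCoeffWords

namespace Pool.Agent.Helper60.UnitCoeff

section generic
variable {R : Type*} [Ring R]

theorem additive_zero {G H : Type*} [AddCommGroup G] [AddCommGroup H] (T : Set G) (f : G → H)
    (hadd : ∀ x y, f (x + y) = f x + f y) (h : ∀ a ∈ T, f a = 0) :
    ∀ a ∈ AddSubgroup.closure T, f a = 0 := by
  have : AddSubgroup.closure T ≤ (AddMonoidHom.mk' f hadd).ker := by
    rw [AddSubgroup.closure_le]
    intro a ha
    exact h a ha
  intro a ha
  exact this ha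

theorem K_ext (T : Set R) (hT : AddSubgroup.closure T = ⊤)
    (h : ∀ a ∈ T, ∀ b ∈ T, ∀ c ∈ T, ∀ d ∈ T, 2 * ((a * b - b * a) * (c * d - d * c)) = 0)
    (a b c d : R) : 2 * ((a * b - b * a) * (c * d - d * c)) = 0 := by
  have hm : ∀ x : R, x ∈ AddSubgroup.closure T := fun x => by rw [hT]; trivial
  refine additive_zero T (fun a => 2 * ((a * b - b * a) * (c * d - d * c))) ?_ ?_ a (hm a)
  · intro x y; noncomm_ring
  intro a ha
  refine additive_zero T (fun b => 2 * ((a * b - b * a) * (c * d - d * c))) ?_ ?_ b (hm b)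
  · intro x y; noncomm_ring
  intro b hb
  refine additive_zero T (fun c => 2 * ((a * b - b * a) * (c * d - d * c))) ?_ ?_ c (hm c)
  · intro x y; noncomm_ring
  intro c hc
  refine additive_zero T (fun d => 2 * ((a * b - b * a) * (c * d - d * c))) ?_ ?_ d (hm d)
  · intro x y; noncomm_ring
  intro d hd
  exact h a ha b hb c hc d hd

theorem K_anti (h4 : ∀ x : R, 4 * x = 0)
    (h : ∀ a b c d : R, 2 * ((a * b - b * a) * (c * d - d * c)) = 0)
    (a b c d : R) : 2 * ((a * b + b * a) * (c * d + d * c)) = 0 := by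
  have e : 2 * ((a * b + b * a) * (c * d + d * c)) = 2 * ((a * b - b * a) * (c * d - d * c)) +
      4 * (b * a * (c * d)) + 4 * (a * b * (d * c)) := by noncomm_ring
  rw [e, h, h4, h4]
  simp

variable {S : Type*} [NonUnitalRing S]

/-- the linearisation of `[x,y]^2` -/
def LL (x0 x1 x2 x3 : S) : S :=
  (x0 * x1 - x1 * x0) * (x3 * x2 - x2 * x3) + (x0 * x2 - x2 * x0) * (x3 * x1 - x1 * x3) +
  (x3 * x1 - x1 * x3) * (x0 * x2 - x2 * x0) + (x3 * x2 - x2 * x3) * (x0 * x1 - x1 * x0)

/-- `x^2 A + B x^2` with `A = {j,i'}k + {k,i'}j`, `B = j{k,i'} + k{j,i'}` -/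
def G1 (x i' j k : S) : S :=
  x * x * ((j * i' + i' * j) * k + (k * i' + i' * k) * j) +
  (j * (k * i' + i' * k) + k * (j * i' + i' * j)) * (x * x)

def GG (x0 x1 x2 x3 : S) : S := G1 x0 x3 x1 x2 + G1 x3 x0 x1 x2 + G1 x1 x2 x0 x3 + G1 x2 x1 x0 x3

/-- the identity -/
def FF (x0 x1 x2 x3 : S) : S := LL x0 x1 x2 x3 + (GG x0 x1 x2 x3 + GG x0 x1 x2 x3)

theorem LL_add (x y x1 x2 x3 : S) : LL (x + y) x1 x2 x3 = LL x x1 x2 x3 + LL y x1 x2 x3 := by
  simp only [LL, mul_add, add_mul, mul_sub, sub_mul]
  abel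

theorem G1_add (h : ∀ a b c d : S, (a * b + b * a) * (c * d + d * c) +
      (a * b + b * a) * (c * d + d * c) = 0) (x y i' j k : S) :
    G1 (x + y) i' j k + G1 (x + y) i' j k = G1 x i' j k + G1 x i' j k +
      (G1 y i' j k + G1 y i' j k) := by
  have e1 := congrArg (fun t => t * k) (h x y j i')
  have e2 := congrArg (fun t => t * j) (h x y k i')
  have e3 := congrArg (fun t => j * t) (h k i' x y)
  have e4 := congrArg (fun t => k * t) (h j i' x y)
  simp only [G1, mul_add, add_mul, mul_zero, zero_mul, mul_assoc] at *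
  have e5 := congrArg₂ (· + ·) (congrArg₂ (· + ·) e1 e2) (congrArg₂ (· + ·) e3 e4)
  simp only [add_zero] at e5
  rw [← sub_eq_zero]
  rw [← e5]
  abel

theorem FF_add0 (h : ∀ a b c d : S, (a * b + b * a) * (c * d + d * c) +
      (a * b + b * a) * (c * d + d * c) = 0) (x y b c d : S) :
    FF (x + y) b c d = FF x b c d + FF y b c d := by
  have e := G1_add h x y d b c
  have e1 : G1 d (x + y) b c = G1 d x b c + G1 d y b c := by
    simp only [G1, mul_add, add_mul]
    abel
  have e2 : G1 b c (x + y) d = G1 b c x d + G1 b c y d := by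
    simp only [G1, mul_add, add_mul]
    abel
  have e3 : G1 c b (x + y) d = G1 c b x d + G1 c b y d := by
    simp only [G1, mul_add, add_mul]
    abel
  simp only [FF, GG, LL_add, e1, e2, e3]
  rw [← sub_eq_zero] at e ⊢
  rw [← e]
  abel

theorem FF_swap1 (a b c d : S) : FF a b c d = FF b a d c := by
  simp only [FF, GG, G1, LL, mul_add, add_mul, mul_sub, sub_mul, mul_assoc]
  abel

theorem FF_swap3 (a b c d : S) : FF a b c d = FF d b c a := by
  simp only [FF, GG, G1, LL, mul_add, add_mul, mul_sub, sub_mul, mul_assoc]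
  abel

theorem FF_add1 (h : ∀ a b c d : S, (a * b + b * a) * (c * d + d * c) +
      (a * b + b * a) * (c * d + d * c) = 0) (a x y c d : S) :
    FF a (x + y) c d = FF a x c d + FF a y c d := by
  rw [FF_swap1, FF_add0 h, FF_swap1 a x, FF_swap1 a y]

theorem FF_add3 (h : ∀ a b c d : S, (a * b + b * a) * (c * d + d * c) +
      (a * b + b * a) * (c * d + d * c) = 0) (a b c x y : S) :
    FF a b c (x + y) = FF a b c x + FF a b c y := by
  rw [FF_swap3, FF_add0 h, FF_swap3 a b c x, FF_swap3 a b c y]

theorem FF_add2 (h : ∀ a b c d : S, (a * b + b * a) * (c * d + d * c) +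
      (a * b + b * a) * (c * d + d * c) = 0) (a b x y d : S) :
    FF a b (x + y) d = FF a b x d + FF a b y d := by
  rw [FF_swap1 a b (x + y) d, FF_add3 h, FF_swap1 a b x d, FF_swap1 a b y d]

theorem FF_ext (h : ∀ a b c d : S, (a * b + b * a) * (c * d + d * c) +
      (a * b + b * a) * (c * d + d * c) = 0) (T : Set S)
    (hT : ∀ a ∈ T, ∀ b ∈ T, ∀ c ∈ T, ∀ d ∈ T, FF a b c d = 0) (a b c d : S)
    (ha : a ∈ AddSubgroup.closure T) (hb : b ∈ AddSubgroup.closure T)
    (hc : c ∈ AddSubgroup.closure T) (hd : d ∈ AddSubgroup.closure T) : FF a b c d = 0 := by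
  refine additive_zero T (fun a => FF a b c d) (fun x y => FF_add0 h x y b c d) ?_ a ha
  intro a ha
  refine additive_zero T (fun b => FF a b c d) (fun x y => FF_add1 h a x y c d) ?_ b hb
  intro b hb
  refine additive_zero T (fun c => FF a b c d) (fun x y => FF_add2 h a b x y d) ?_ c hc
  intro c hc
  refine additive_zero T (fun d => FF a b c d) (fun x y => FF_add3 h a b c x y) ?_ d hd
  intro d hd
  exact hT a ha b hb c hc d hd

end generic
/-- the free associative unital ring on five letters -/
abbrev A5 := MonoidAlgebra ℤ (FreeMonoid (Fin 5))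

/-- the functional on words -/
def lam (w : FreeMonoid (Fin 5)) : ZMod 4 :=
  2 * ((dl w.toList : ℕ) : ZMod 4) + ((D 0 w.toList 0 : ℕ) : ZMod 4)

/-- its additive extension -/
noncomputable def Lam : A5 →+ ZMod 4 :=
  (Finsupp.liftAddHom (fun w : FreeMonoid (Fin 5) =>
    (AddMonoidHom.mulRight (lam w)).comp (Int.castAddHom (ZMod 4)))).comp
    (MonoidAlgebra.coeffAddEquiv (R := ℤ) (M := FreeMonoid (Fin 5))).toAddMonoidHom

theorem Lam_single (w : FreeMonoid (Fin 5)) (n : ℤ) :
    Lam (MonoidAlgebra.single w n) = (n : ZMod 4) * lam w := by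
  simp [Lam, MonoidAlgebra.coeffAddEquiv]

/-- words as elements of the ring -/
noncomputable def wd (w : FreeMonoid (Fin 5)) : A5 := MonoidAlgebra.of ℤ _ w

theorem wd_mul (u v : FreeMonoid (Fin 5)) : wd u * wd v = wd (u * v) := by
  simp [wd]

theorem Lam_wd (w : FreeMonoid (Fin 5)) : Lam (wd w) = lam w := by
  simp [wd, Lam_single]

/-- the congruence defined by the functional -/
def cong : RingCon A5 where
  r x y := ∀ u v : A5, Lam (u * x * v) = Lam (u * y * v)
  iseqv := ⟨fun _ _ _ => rfl, fun h u v => (h u v).symm, fun h h' u v => (h u v).trans (h' u v)⟩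
  add' := by
    intro w x y z h h' u v
    rw [mul_add, mul_add, add_mul, add_mul, map_add, map_add, h, h']
  mul' := by
    intro w x y z h h' u v
    have e1 : u * (w * y) * v = u * w * (y * v) := by simp only [mul_assoc]
    have e2 : u * x * (y * v) = (u * x) * y * v := by simp only [mul_assoc]
    have e3 : (u * x) * z * v = u * (x * z) * v := by simp only [mul_assoc]
    rw [e1, h, e2, h', e3]

/-- the unital quotient ring -/
abbrev BB := cong.Quotient

noncomputable def mk : A5 →+* BB := cong.mk'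

theorem mk_eq_zero (x : A5) : mk x = 0 ↔ ∀ u v : A5, Lam (u * x * v) = 0 := by
  have h : mk x = mk 0 ↔ _ := RingCon.eq cong
  rw [map_zero] at h
  rw [h]
  constructor
  · intro h u v
    have := h u v
    rwa [mul_zero, zero_mul, map_zero] at this
  · intro h u v
    rw [mul_zero, zero_mul, map_zero, h]

theorem closure_wd : AddSubgroup.closure (Set.range wd) = ⊤ := by
  rw [eq_top_iff]
  intro x _
  induction x using MonoidAlgebra.induction_linear with
  | zero => exact zero_mem _
  | add x y hx hy => exact add_mem (hx trivial) (hy trivial)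
  | single w n =>
    have : MonoidAlgebra.single w n = n • wd w := by simp [wd]
    rw [this]
    exact zsmul_mem (AddSubgroup.subset_closure (Set.mem_range_self w)) n

theorem mk_eq_zero_of_words (x : A5) (h : ∀ u v, Lam (wd u * x * wd v) = 0) : mk x = 0 := by
  rw [mk_eq_zero]
  intro u v
  have hu : u ∈ AddSubgroup.closure (Set.range wd) := by rw [closure_wd]; trivial
  have hv : v ∈ AddSubgroup.closure (Set.range wd) := by rw [closure_wd]; trivial
  refine additive_zero (Set.range wd) (fun u => Lam (u * x * v)) ?_ ?_ u hu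
  · intro a b; rw [add_mul, add_mul, map_add]
  · rintro _ ⟨a, rfl⟩
    refine additive_zero (Set.range wd) (fun v => Lam (wd a * x * v)) ?_ ?_ v hv
    · intro a b; rw [mul_add, map_add]
    · rintro _ ⟨b, rfl⟩
      exact h a b

/-- words in the quotient -/
noncomputable def m (w : FreeMonoid (Fin 5)) : BB := mk (wd w)

theorem closure_m : AddSubgroup.closure (Set.range m) = ⊤ := by
  rw [eq_top_iff]
  intro x _
  obtain ⟨y, rfl⟩ := cong.mk'_surjective x
  have hy : y ∈ AddSubgroup.closure (Set.range wd) := by rw [closure_wd]; trivial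
  have : AddSubgroup.closure (Set.range wd) ≤
      (AddSubgroup.closure (Set.range m)).comap (mk : A5 →+* BB).toAddMonoidHom := by
    rw [AddSubgroup.closure_le]
    rintro _ ⟨a, rfl⟩
    exact AddSubgroup.subset_closure ⟨a, rfl⟩
  exact this hy

theorem four_eq_zero (x : BB) : 4 * x = 0 := by
  obtain ⟨y, rfl⟩ := cong.mk'_surjective x
  have h : mk (4 * y) = 0 := by
    rw [mk_eq_zero]
    intro u v
    have : u * (4 * y) * v = 4 • (u * y * v) := by
      rw [nsmul_eq_mul]
      push_cast
      noncomm_ring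
    rw [this, map_nsmul, nsmul_eq_mul]
    have h4 : ((4 : ℕ) : ZMod 4) = 0 := by decide
    rw [h4, zero_mul]
  rw [map_mul] at h
  have e : mk (4 : A5) = 4 := map_ofNat mk 4
  rw [e] at h
  exact h


theorem m_mul (u v : FreeMonoid (Fin 5)) : m u * m v = m (u * v) := by
  rw [m, m, ← map_mul, wd_mul]; rfl

theorem lam_F1 (u a b c d v : FreeMonoid (Fin 5)) :
    ((D 0 (u * a * b * c * d * v).toList 0 : ℕ) : ZMod 4) -
      ((D 0 (u * b * a * c * d * v).toList 0 : ℕ) : ZMod 4) -
      ((D 0 (u * a * b * d * c * v).toList 0 : ℕ) : ZMod 4) +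
      ((D 0 (u * b * a * d * c * v).toList 0 : ℕ) : ZMod 4) = 0 := by
  have h := F1 u.toList a.toList b.toList c.toList d.toList v.toList
  simp only [FreeMonoid.toList_mul]
  have h' := congrArg (fun n : ℕ => (n : ZMod 4)) h
  simp only [Nat.cast_add] at h'
  linear_combination h'

theorem h4 : (4 : ZMod 4) = 0 := by decide

theorem K_words (a b c d : FreeMonoid (Fin 5)) :
    2 * ((m a * m b - m b * m a) * (m c * m d - m d * m c)) = 0 := by
  have e : 2 * ((m a * m b - m b * m a) * (m c * m d - m d * m c)) =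
      mk (2 * ((wd a * wd b - wd b * wd a) * (wd c * wd d - wd d * wd c))) := by
    simp only [m, map_mul, map_sub, map_ofNat]
  rw [e]
  apply mk_eq_zero_of_words
  intro u v
  have e2 : wd u * (2 * ((wd a * wd b - wd b * wd a) * (wd c * wd d - wd d * wd c))) * wd v =
      (wd (u * a * b * c * d * v) - wd (u * b * a * c * d * v) - wd (u * a * b * d * c * v) +
       wd (u * b * a * d * c * v)) + 
      (wd (u * a * b * c * d * v) - wd (u * b * a * c * d * v) - wd (u * a * b * d * c * v) +
       wd (u * b * a * d * c * v)) := by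
    simp only [← wd_mul]
    noncomm_ring
  rw [e2]
  simp only [map_add, map_sub, Lam_wd, lam]
  have h := lam_F1 u a b c d v
  linear_combination 2 * h + ((dl (u * a * b * c * d * v).toList : ZMod 4) -
    (dl (u * b * a * c * d * v).toList : ZMod 4) - (dl (u * a * b * d * c * v).toList : ZMod 4) +
    (dl (u * b * a * d * c * v).toList : ZMod 4)) * h4

theorem K (a b c d : BB) : 2 * ((a * b - b * a) * (c * d - d * c)) = 0 := by
  refine K_ext (Set.range m) closure_m ?_ a b c d
  rintro _ ⟨a, rfl⟩ _ ⟨b, rfl⟩ _ ⟨c, rfl⟩ _ ⟨d, rfl⟩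
  exact K_words a b c d

/-- same with anticommutators -/
theorem K' (a b c d : BB) : (a * b + b * a) * (c * d + d * c) +
    (a * b + b * a) * (c * d + d * c) = 0 := by
  rw [← two_mul]
  exact K_anti four_eq_zero K a b c d

theorem map_LL {S T : Type*} [NonUnitalRing S] [NonUnitalRing T] {F : Type*} [FunLike F S T]
    [NonUnitalRingHomClass F S T] (f : F) (a b c d : S) :
    f (LL a b c d) = LL (f a) (f b) (f c) (f d) := by
  simp only [LL, map_add, map_sub, map_mul]

theorem map_FF {S T : Type*} [NonUnitalRing S] [NonUnitalRing T] {F : Type*} [FunLike F S T]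
    [NonUnitalRingHomClass F S T] (f : F) (a b c d : S) :
    f (FF a b c d) = FF (f a) (f b) (f c) (f d) := by
  simp only [FF, GG, G1, LL, map_add, map_sub, map_mul]

theorem LL_words (u v a b c d : FreeMonoid (Fin 5)) :
    Lam (wd u * LL (wd a) (wd b) (wd c) (wd d) * wd v) =
      2 * ((totL u.toList a.toList b.toList c.toList d.toList v.toList : ℕ) : ZMod 4) := by
  have e : wd u * LL (wd a) (wd b) (wd c) (wd d) * wd v =
    (wd (u * a * b * d * c * v) - wd (u * b * a * d * c * v) - wd (u * a * b * c * d * v) +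
     wd (u * b * a * c * d * v)) +
    (wd (u * a * c * d * b * v) - wd (u * c * a * d * b * v) - wd (u * a * c * b * d * v) +
     wd (u * c * a * b * d * v)) +
    (wd (u * d * b * a * c * v) - wd (u * b * d * a * c * v) - wd (u * d * b * c * a * v) +
     wd (u * b * d * c * a * v)) +
    (wd (u * d * c * a * b * v) - wd (u * c * d * a * b * v) - wd (u * d * c * b * a * v) +
     wd (u * c * d * b * a * v)) := by
    simp only [← wd_mul, LL]
    noncomm_ring
  have f1 := lam_F1 u a b d c v
  have f2 := lam_F1 u a c d b v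
  have f3 := lam_F1 u d b a c v
  have f4 := lam_F1 u d c a b v
  rw [e]
  simp only [map_add, map_sub, Lam_wd, lam, totL, Nat.cast_add, ← FreeMonoid.toList_mul]
  linear_combination f1 + f2 + f3 + f4 - ((dl (u * b * a * d * c * v).toList : ZMod 4) +
    (dl (u * a * b * c * d * v).toList : ZMod 4) + (dl (u * c * a * d * b * v).toList : ZMod 4) +
    (dl (u * a * c * b * d * v).toList : ZMod 4) + (dl (u * b * d * a * c * v).toList : ZMod 4) +
    (dl (u * d * b * c * a * v).toList : ZMod 4) + (dl (u * c * d * a * b * v).toList : ZMod 4) +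
    (dl (u * d * c * b * a * v).toList : ZMod 4)) * h4

theorem G1_words (u v x i j k : FreeMonoid (Fin 5)) :
    2 * Lam (wd u * G1 (wd x) (wd i) (wd j) (wd k) * wd v) =
      2 * ((totG u.toList x.toList i.toList j.toList k.toList v.toList : ℕ) : ZMod 4) := by
  have e : wd u * G1 (wd x) (wd i) (wd j) (wd k) * wd v =
    wd (u * x * x * j * i * k * v) + wd (u * x * x * i * j * k * v) +
    wd (u * x * x * k * i * j * v) + wd (u * x * x * i * k * j * v) +
    wd (u * j * k * i * x * x * v) + wd (u * j * i * k * x * x * v) +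
    wd (u * k * j * i * x * x * v) + wd (u * k * i * j * x * x * v) := by
    simp only [← wd_mul, G1]
    noncomm_ring
  rw [e]
  simp only [map_add, Lam_wd, lam, totG, Nat.cast_add, ← FreeMonoid.toList_mul]
  linear_combination ((dl (u * x * x * j * i * k * v).toList : ZMod 4) +
    (dl (u * x * x * i * j * k * v).toList : ZMod 4) +
    (dl (u * x * x * k * i * j * v).toList : ZMod 4) +
    (dl (u * x * x * i * k * j * v).toList : ZMod 4) +
    (dl (u * j * k * i * x * x * v).toList : ZMod 4) +
    (dl (u * j * i * k * x * x * v).toList : ZMod 4) +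
    (dl (u * k * j * i * x * x * v).toList : ZMod 4) +
    (dl (u * k * i * j * x * x * v).toList : ZMod 4)) * h4

theorem FF_words (a b c d : FreeMonoid (Fin 5)) (ha : a ≠ 1) (hb : b ≠ 1) (hc : c ≠ 1)
    (hd : d ≠ 1) : FF (m a) (m b) (m c) (m d) = 0 := by
  have e : FF (m a) (m b) (m c) (m d) = mk (FF (wd a) (wd b) (wd c) (wd d)) := by
    rw [map_FF]; rfl
  rw [e]
  apply mk_eq_zero_of_words
  intro u v
  have e2 : wd u * FF (wd a) (wd b) (wd c) (wd d) * wd v =
      wd u * LL (wd a) (wd b) (wd c) (wd d) * wd v +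
      (wd u * G1 (wd a) (wd d) (wd b) (wd c) * wd v + wd u * G1 (wd a) (wd d) (wd b) (wd c) * wd v)
      + (wd u * G1 (wd d) (wd a) (wd b) (wd c) * wd v +
        wd u * G1 (wd d) (wd a) (wd b) (wd c) * wd v) +
      (wd u * G1 (wd b) (wd c) (wd a) (wd d) * wd v + wd u * G1 (wd b) (wd c) (wd a) (wd d) * wd v)
      + (wd u * G1 (wd c) (wd b) (wd a) (wd d) * wd v +
        wd u * G1 (wd c) (wd b) (wd a) (wd d) * wd v) := by
    simp only [FF, GG, mul_add, add_mul]
    abel
  rw [e2]
  simp only [map_add, LL_words]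
  simp only [← two_mul, G1_words]
  have h := tot_even u.toList a.toList b.toList c.toList d.toList v.toList ha hb hc hd
  obtain ⟨t, ht⟩ : ∃ t, tot u.toList a.toList b.toList c.toList d.toList v.toList = 2 * t :=
    ⟨_, (Nat.mul_div_cancel' (Nat.dvd_of_mod_eq_zero h)).symm⟩
  have ht' := congrArg (fun n : ℕ => (n : ZMod 4)) ht
  simp only [tot, Nat.cast_add, Nat.cast_mul, Nat.cast_ofNat] at ht'
  linear_combination 2 * ht' + (t : ZMod 4) * h4

/-- nonempty words in the quotient -/
def nw : Set BB := {x | ∃ w : FreeMonoid (Fin 5), w ≠ 1 ∧ m w = x}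

theorem nw_mul {x y : BB} (hx : x ∈ nw) (hy : y ∈ nw) : x * y ∈ nw := by
  obtain ⟨a, ha, rfl⟩ := hx
  obtain ⟨b, hb, rfl⟩ := hy
  refine ⟨a * b, ?_, (m_mul a b).symm⟩
  intro h
  apply ha
  have := congrArg FreeMonoid.toList h
  simp only [FreeMonoid.toList_mul, FreeMonoid.toList_one, List.append_eq_nil_iff] at this
  exact FreeMonoid.toList.injective (by simpa using this.1)

/-- the counterexample ring, as a subring (without unit) of the quotient -/
def RR : NonUnitalSubring BB where
  carrier := AddSubgroup.closure nw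
  add_mem' := fun ha hb => add_mem ha hb
  zero_mem' := zero_mem _
  neg_mem' := fun ha => neg_mem ha
  mul_mem' := by
    intro x y hx hy
    have h1 : ∀ t ∈ nw, AddSubgroup.closure nw ≤
        (AddSubgroup.closure nw).comap (AddMonoidHom.mulLeft t) := by
      intro t ht
      rw [AddSubgroup.closure_le]
      intro s hs
      exact AddSubgroup.subset_closure (nw_mul ht hs)
    have h2 : AddSubgroup.closure nw ≤
        (AddSubgroup.closure nw).comap (AddMonoidHom.mulRight y) := by
      rw [AddSubgroup.closure_le]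
      intro s hs
      exact h1 s hs hy
    exact h2 hx

theorem RR_FF (a b c d : RR) : FF a b c d = 0 := by
  apply Subtype.ext
  have e : ((FF a b c d : RR) : BB) = FF (a : BB) b c d :=
    map_FF (NonUnitalSubringClass.subtype RR) a b c d
  rw [e]
  refine FF_ext K' nw ?_ a b c d a.2 b.2 c.2 d.2
  rintro _ ⟨a, ha, rfl⟩ _ ⟨b, hb, rfl⟩ _ ⟨c, hc, rfl⟩ _ ⟨d, hd, rfl⟩
  exact FF_words a b c d ha hb hc hd

end Pool.Agent.Helper60.UnitCoeff
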